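import Mathlib.SetTheory.Cardinal.Cofinality.Club
import Mathlib.SetTheory.Cardinal.Regular
import Mathlib.SetTheory.ZFC.Ordinal
import Pool.Agent.Lib.helper92.ZF.Defs

/-! Subtle cardinals, and the notions of the problem relativised to a transitive model `M`. -/

namespace Pool.Agent.MP_d6f492_lc

open ZFSet

/-- A subtle cardinal. -/
def Subtle (δ : Cardinal.{0}) : Prop :=
  δ.IsInaccessible ∧ ∀ (C : Set δ.ord.ToType) (A : δ.ord.ToType → Set δ.ord.ToType), IsClub C →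
    (∀ a, A a ⊆ Set.Iio a) → ∃ a ∈ C, ∃ b ∈ C, a < b ∧ A a = A b ∩ Set.Iio a

/-- `M` has an injective function from `X` to `Y`. -/
def Inj (M : Set ZFSet.{0}) (X Y : ZFSet.{0}) : Prop :=
  ∃ h ∈ M, IsFunc X Y h ∧ ∀ a b c, pair a c ∈ h → pair b c ∈ h → a = b

/-- The values of `h` at `a ∈ b` are always related by `r`. -/
def Along (h : ZFSet.{0}) (r : ZFSet.{0} → ZFSet.{0} → Prop) : Prop :=
  ∀ a b x y, pair a x ∈ h → pair b y ∈ h → a ∈ b → r x y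

/-- In `M`, `κ` is an uncountable cardinal with `κ → (κ)²₂`. -/
structure WeaklyCompact (M : Set ZFSet.{0}) (κ : ZFSet.{0}) : Prop where
  ordinal : κ.IsOrdinal
  uncountable : omega ∈ κ
  cardinal : ∀ β ∈ κ, ¬ Inj M κ β
  partition : ∀ c ∈ M, ∃ h ∈ M, IsFunc κ κ h ∧ Along h (fun x y => x ∈ y) ∧
    (Along h (fun x y => pair x y ∈ c) ∨ Along h (fun x y => pair x y ∉ c))

/-- `x` is a point of the generalized Baire space of `M`. -/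
def Pt (M : Set ZFSet.{0}) (κ x : ZFSet.{0}) : Prop := x ∈ M ∧ IsFunc κ κ x

/-- The functions `x` and `y` agree below `β`. -/
def Agree (β x y : ZFSet.{0}) : Prop := ∀ a ∈ β, ∀ b, pair a b ∈ x ↔ pair a b ∈ y

/-- `U` is open in the bounded topology. -/
def Opn (M : Set ZFSet.{0}) (κ U : ZFSet.{0}) : Prop :=
  ∀ x ∈ U, Pt M κ x ∧ ∃ β ∈ κ, ∀ y, Pt M κ y → Agree β x y → y ∈ U

/-- In `M`, the set `K` is `κ`-compact. -/
def Cpt (M : Set ZFSet.{0}) (κ K : ZFSet.{0}) : Prop :=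
  (∀ x ∈ K, Pt M κ x) ∧ ∀ S ∈ M, (∀ U ∈ S, Opn M κ U) → K ⊆ sUnion S →
    ∃ T ∈ M, T ⊆ S ∧ K ⊆ sUnion T ∧ ∃ β ∈ κ, Inj M T β

/-- In `M`, the set `A` is a union of at most `κ` many `κ`-compact sets. -/
def KSigma (M : Set ZFSet.{0}) (κ A : ZFSet.{0}) : Prop :=
  ∃ R ∈ M, (∀ K ∈ R, Cpt M κ K) ∧ Inj M R κ ∧ A = sUnion R

/-- In `M`, the set `A` is the projection of a closed subset of the square of the space. -/
def Analytic (M : Set ZFSet.{0}) (κ A : ZFSet.{0}) : Prop :=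
  ∃ C ∈ M, (∀ z ∈ C, ∃ x y, Pt M κ x ∧ Pt M κ y ∧ z = pair x y) ∧
    (∀ x y, Pt M κ x → Pt M κ y →
      (∀ β ∈ κ, ∃ u v, pair u v ∈ C ∧ Agree β x u ∧ Agree β y v) → pair x y ∈ C) ∧
    ∀ x, x ∈ A ↔ ∃ y, pair x y ∈ C

/-- The map with graph `r` is continuous for the bounded topologies. -/
def Cts (κ : ZFSet.{0}) (r : ZFSet.{0} → ZFSet.{0} → Prop) : Prop :=
  ∀ f x, r f x → ∀ β ∈ κ, ∃ γ ∈ κ, ∀ g y, r g y → Agree γ f g → Agree β x y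

/-- In `M`, some subset of `A` is closed in `A` and homeomorphic to the whole space. -/
def ClosedCopy (M : Set ZFSet.{0}) (κ A : ZFSet.{0}) : Prop :=
  ∃ D ∈ M, D ⊆ A ∧ (∀ x ∈ A, (∀ β ∈ κ, ∃ y ∈ D, Agree β x y) → x ∈ D) ∧
    ∃ φ ∈ M, (∀ z ∈ φ, ∃ f x, Pt M κ f ∧ x ∈ D ∧ z = pair f x) ∧
      (∀ f, Pt M κ f → ∃! x, pair f x ∈ φ) ∧ (∀ x ∈ D, ∃! f, pair f x ∈ φ) ∧
      Cts κ (fun f x => pair f x ∈ φ) ∧ Cts κ (fun x f => pair f x ∈ φ)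

end Pool.Agent.MP_d6f492_lc
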