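import Mathlib.SetTheory.Cardinal.Arithmetic
import Pool.Agent.MP_d6f492_lc.Defs

/-! The ordinals below a subtle cardinal: regular points, coding, reflection. -/

namespace Pool.Agent.MP_d6f492_lc

open Cardinal Set Function

/-- The well order of the ordinals below a subtle cardinal. -/
class Big (O : Type) [LinearOrder O] : Prop where
  inacc : (#O).IsInaccessible
  small : ∀ a : O, #(Iio a) < #O
  subtle : ∀ (C : Set O) (A : O → Set O), IsClub C → (∀ a, A a ⊆ Iio a) →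
    ∃ a ∈ C, ∃ b ∈ C, a < b ∧ A a = A b ∩ Iio a

theorem exists_iio {α : Type} [LinearOrder α] [WellFoundedLT α] {c : Cardinal} (h : c < #α) :
    ∃ x : α, #(Iio x) = c := by
  have h1 : c.ord < Ordinal.type (α := α) (· < ·) := by
    by_contra h2
    have := Ordinal.card_le_card (not_lt.1 h2)
    rw [Ordinal.card_type, card_ord] at this
    exact absurd h (not_lt.2 this)
  obtain ⟨x, hx⟩ := Ordinal.typein_surj _ h1
  have h2 := Ordinal.card_typein (r := ((· < ·) : α → α → Prop)) x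
  rw [hx, card_ord] at h2
  exact ⟨x, h2.symm⟩

variable {O : Type} [LinearOrder O]

/-- The number of predecessors. -/
def cn0 (a : O) : Cardinal.{0} := #(Iio a)

theorem cn0_mono {a b : O} (h : a ≤ b) : cn0 a ≤ cn0 b := mk_le_mk_of_subset (Iio_subset_Iio h)

theorem cn0_le_iic (a : O) : cn0 a ≤ #(Iic a) := mk_le_mk_of_subset Iio_subset_Iic_self

theorem exists_cn0 [WellFoundedLT O] {c : Cardinal} {γ : O} (h : c < cn0 γ) :
    ∃ b < γ, cn0 b = c := by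
  obtain ⟨x, hx⟩ := exists_iio (α := Iio γ) h
  refine ⟨x.1, x.2, Eq.trans ?_ hx⟩
  exact mk_congr ⟨fun y => ⟨⟨y.1, lt_trans y.2 x.2⟩, y.2⟩, fun y => ⟨y.1.1, y.2⟩, fun _ => rfl,
    fun _ => rfl⟩

/-- Closure under a function. -/
def Cl (f : O → O) (c : O) : Prop := ∀ a < c, f a < c

/-- Inaccessible points. -/
structure Reg (γ : O) : Prop where
  big : ℵ₀ < cn0 γ
  pow : ∀ a < γ, 2 ^ #(Iic a) < cn0 γ
  bdd : ∀ s ⊆ Iio γ, #s < cn0 γ → ∃ b < γ, ∀ a ∈ s, a < b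

namespace Reg

variable {γ : O} (h : Reg γ)
include h

theorem bd {ι : Type} (hι : #ι < cn0 γ) {f : ι → O} (hf : ∀ i, f i < γ) :
    ∃ b < γ, ∀ i, f i < b := by
  obtain ⟨b, hb, h1⟩ := h.bdd (range f) (by rintro _ ⟨i, rfl⟩; exact hf i) (mk_range_le.trans_lt hι)
  exact ⟨b, hb, fun i => h1 _ ⟨i, rfl⟩⟩

theorem succ {a : O} (ha : a < γ) : ∃ b < γ, a < b := by
  obtain ⟨b, hb, h1⟩ := h.bd (ι := Unit) (f := fun _ => a)
    (by simpa using one_lt_aleph0.trans h.big) fun _ => ha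
  exact ⟨b, hb, h1 ()⟩

theorem seq {f : ℕ → O} (hf : ∀ i, f i < γ) : ∃ b < γ, ∀ i, f i < b :=
  h.bd (by simpa using h.big) hf

theorem list {l : List O} (hl : ∀ a ∈ l, a < γ) : ∃ b < γ, ∀ a ∈ l, a < b :=
  h.bdd {a | a ∈ l} hl (l.finite_toSet.lt_aleph0.trans h.big)

theorem iic {a : O} (ha : a < γ) : #(Iic a) < cn0 γ := (cantor _).trans (h.pow a ha)

theorem iio {a : O} (ha : a < γ) : cn0 a < cn0 γ := (cn0_le_iic a).trans_lt (h.iic ha)

theorem bot [OrderBot O] : ⊥ < γ := by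
  obtain ⟨a, ha, -⟩ := h.list (l := []) (by simp)
  exact bot_le.trans_lt ha

theorem mul {a b : Cardinal} (ha : a < cn0 γ) (hb : b < cn0 γ) : a * b < cn0 γ :=
  mul_lt_of_lt h.big.le ha hb

theorem prod {A B : Type} (ha : #A < cn0 γ) (hb : #B < cn0 γ) : #(A × B) < cn0 γ := by
  simpa using h.mul ha hb

theorem add {a b : Cardinal} (ha : a < cn0 γ) (hb : b < cn0 γ) : a + b < cn0 γ :=
  add_lt_of_lt h.big.le ha hb

theorem mul_le {a b : Cardinal} (ha : a ≤ cn0 γ) (hb : b ≤ cn0 γ) : a * b ≤ cn0 γ :=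
  (mul_le_mul' ha hb).trans (mul_eq_self h.big.le).le

theorem prod_le {A B : Type} (ha : #A ≤ cn0 γ) (hb : #B ≤ cn0 γ) : #(A × B) ≤ cn0 γ := by
  simpa using h.mul_le ha hb

theorem add_le {a b : Cardinal} (ha : a ≤ cn0 γ) (hb : b ≤ cn0 γ) : a + b ≤ cn0 γ :=
  add_le_of_le h.big.le ha hb

theorem union_le {ι A : Type} (hι : #ι ≤ cn0 γ) {f : ι → Set A} (hf : ∀ i, #(f i) ≤ cn0 γ) :
    #(⋃ i, f i) ≤ cn0 γ :=
  (mk_iUnion_le f).trans (h.mul_le hι (ciSup_le' hf))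

variable [WellFoundedLT O]

theorem union {ι A : Type} (hι : #ι < cn0 γ) {f : ι → Set A} (hf : ∀ i, #(f i) < cn0 γ) :
    #(⋃ i, f i) < cn0 γ := by
  choose b hb e using fun i => exists_cn0 (hf i)
  obtain ⟨c, hc, h1⟩ := h.bd hι hb
  exact (mk_iUnion_le f).trans_lt (h.mul hι ((ciSup_le' fun i =>
    (e i).symm.le.trans (cn0_mono (h1 i).le)).trans_lt (h.iio hc)))

omit [WellFoundedLT O] in
theorem subsets {A : Type} {Y : Set A} (hY : #Y ≤ cn0 γ) :
    #{t : Set A | t ⊆ Y ∧ #t < cn0 γ} ≤ cn0 γ := by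
  obtain ⟨ι⟩ := hY
  refine le_trans (mk_le_mk_of_subset (t := ⋃ b : Iio γ, 𝒫 (Subtype.val '' {y : Y | (ι y).1 < b.1}))
    ?_) (h.union_le le_rfl fun b => ?_)
  · rintro t ⟨h1, h2⟩
    obtain ⟨b, hb, h3⟩ := h.bd h2 (f := fun x : t => (ι ⟨x.1, h1 x.2⟩).1) fun x => (ι _).2
    exact mem_iUnion.2 ⟨⟨b, hb⟩, fun x hx => ⟨⟨x, h1 hx⟩, h3 ⟨x, hx⟩, rfl⟩⟩
  · rw [mk_powerset]
    refine le_trans (power_le_power_left two_ne_zero (mk_image_le.trans ?_)) (h.pow b.1 b.2).le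
    exact mk_le_of_injective (f := fun y => (⟨(ι y.1).1, le_of_lt y.2⟩ : Iic b.1)) fun y z e =>
      Subtype.ext (ι.injective (Subtype.ext (Subtype.mk.inj e)))

/-- Closing off. -/
theorem close {A : Type} (F : Set A → Set A) (hF : ∀ s : Set A, #s < cn0 γ → #(F s) ≤ cn0 γ) :
    ∃ u : Set A, #u ≤ cn0 γ ∧ ∀ s ⊆ u, #s < cn0 γ → F s ⊆ u := by
  let U : O → Set A := (wellFounded_lt (α := O)).fix fun t R =>
    ⋃ s : {s : Set A | s ⊆ (⋃ x : Iio t, R x.1 x.2) ∧ #s < cn0 γ}, F s.1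
  have hU : ∀ t, U t = ⋃ s : {s : Set A | s ⊆ (⋃ x : Iio t, U x.1) ∧ #s < cn0 γ}, F s.1 :=
    fun t => WellFounded.fix_eq _ _ t
  have h1 : ∀ t < γ, #(U t) ≤ cn0 γ := by
    intro t
    induction t using WellFoundedLT.induction with
    | ind t ih =>
    intro ht
    rw [hU]
    exact h.union_le (h.subsets (h.union_le (cn0_mono ht.le) fun x => ih x.1 x.2 (x.2.trans ht)))
      fun s => hF _ s.2.2
  refine ⟨⋃ t : Iio γ, U t.1, h.union_le le_rfl fun t => h1 t.1 t.2, fun s hs h2 => ?_⟩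
  choose f hf using fun x : s => mem_iUnion.1 (hs x.2)
  obtain ⟨b, hb, h3⟩ := h.bd h2 fun x => (f x).2
  refine subset_trans ?_ (subset_iUnion _ ⟨b, hb⟩)
  rw [hU]
  exact subset_iUnion (fun s : {s : Set A | s ⊆ (⋃ x : Iio b, U x.1) ∧ #s < cn0 γ} => F s.1)
    ⟨s, fun x hx => mem_iUnion.2 ⟨⟨_, h3 ⟨x, hx⟩⟩, hf ⟨x, hx⟩⟩, h2⟩

end Reg

variable [hO : Big O]

theorem iic_lt (a : O) : #(Iic a) < #O := by
  rw [← Iio_insert]
  exact mk_insert_le.trans_lt (add_lt_of_lt hO.inacc.aleph0_lt.le (Big.small a)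
    (one_lt_aleph0.trans hO.inacc.aleph0_lt))

theorem exists_bd {ι : Type} (hι : #ι < #O) (f : ι → O) : ∃ b, ∀ i, f i < b := by
  by_contra hn
  push Not at hn
  have h1 : (⋃ i, Iic (f i)) = Set.univ := eq_univ_of_forall fun b =>
    let ⟨i, hi⟩ := hn b; mem_iUnion.2 ⟨i, hi⟩
  have h2 := mk_iUnion_le_sum_mk.trans_lt
    (sum_lt_of_isRegular hO.inacc.isRegular hι fun i => iic_lt (f i))
  rw [h1, mk_univ] at h2
  exact lt_irrefl _ h2

theorem exists_gt' (a : O) : ∃ b, a < b :=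
  let ⟨b, hb⟩ := exists_bd (ι := Unit) (by simpa using one_lt_aleph0.trans hO.inacc.aleph0_lt)
    fun _ => a; ⟨b, hb ()⟩

theorem list_bd (l : List O) : ∃ b, ∀ a ∈ l, a < b :=
  let ⟨b, hb⟩ := exists_bd (ι := {a | a ∈ l}) (l.finite_toSet.lt_aleph0.trans hO.inacc.aleph0_lt)
    Subtype.val; ⟨b, fun a ha => hb ⟨a, ha⟩⟩

theorem list_small (a : O) : #{l : List O | ∀ x ∈ l, x < a} < #O := by
  refine lt_of_le_of_lt (mk_le_of_surjective (α := List (Iio a))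
    (f := fun l => ⟨l.map Subtype.val, fun x hx => let ⟨y, _, e⟩ := List.mem_map.1 hx; e ▸ y.2⟩) ?_)
    ((mk_list_le_max _).trans_lt (max_lt hO.inacc.aleph0_lt (Big.small a)))
  rintro ⟨l, hl⟩
  exact ⟨l.pmap Subtype.mk hl, Subtype.ext (by simp [List.map_pmap])⟩

/-- Coding of objects with a rank by ordinals. -/
theorem coding {X : Type} (lt : X → O → Prop) (hb : ∀ x, ∃ a, lt x a)
    (hm : ∀ x a b, lt x a → a ≤ b → lt x b) (hs : ∀ a, #{x | lt x a} < #O) :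
    ∃ (π : X → O) (G : O → O), Injective π ∧ (∀ x a, lt x a → π x < G a) ∧
      ∀ x a, π x ≤ a → lt x (G a) := by
  have h1 : #X ≤ #O := by
    have : (⋃ a, {x | lt x a}) = Set.univ := eq_univ_of_forall fun x => mem_iUnion.2 (hb x)
    rw [← mk_univ, ← this]
    exact (mk_iUnion_le _).trans ((mul_le_mul' le_rfl (ciSup_le' fun a => (hs a).le)).trans
      (mul_eq_self hO.inacc.aleph0_lt.le).le)
  obtain ⟨π⟩ := h1
  choose r hr using hb
  choose G1 h1 using fun a => exists_bd (hs a) fun x => π x.1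
  choose G2 h2 using fun a => exists_bd (ι := π ⁻¹' Iic a)
    ((mk_preimage_of_injective _ _ π.injective).trans_lt (iic_lt a)) fun x => r x.1
  exact ⟨π, fun a => max (G1 a) (G2 a), π.injective, fun x a h => lt_max_of_lt_left (h1 a ⟨x, h⟩),
    fun x a h => hm _ _ _ (hr x) (le_max_of_le_right (h2 a ⟨x, h⟩).le)⟩

variable [WellFoundedLT O]

theorem club (g : O → O) (a0 : O) : IsClub {c | a0 < c ∧ Cl g c} := by
  refine ⟨fun d hd ⟨x, hx⟩ _ c hc => ⟨(hd hx).1.trans_le (hc.1 hx), fun a ha => ?_⟩, fun a => ?_⟩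
  · obtain ⟨y, hy, h1⟩ := (lt_isLUB_iff hc).1 ha
    exact ((hd hy).2 a h1).trans_le (hc.1 hy)
  · choose f hf using fun a : O => exists_bd (iic_lt a) fun x => max a (g x.1)
    let s : ℕ → O := fun n => f^[n] (max a a0)
    have hs : ∀ n, s (n + 1) = f (s n) := fun n => iterate_succ_apply' f n _
    obtain ⟨b, hb⟩ := exists_bd (ι := ℕ) (by simpa using hO.inacc.aleph0_lt) s
    obtain ⟨c, hc, hm⟩ := (wellFounded_lt (α := O)).has_min {c | ∀ n, s n ≤ c} ⟨b, fun n => (hb n).le⟩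
    have h0 : max a a0 < c := ((le_max_left _ _).trans_lt (hf (s 0) ⟨s 0, le_rfl⟩)).trans_le
      (hs 0 ▸ hc 1)
    refine ⟨c, ⟨(le_max_right _ _).trans_lt h0, fun x hx => ?_⟩, (le_max_left _ _).trans h0.le⟩
    by_contra hn
    refine hm x (fun n => le_of_not_gt fun h1 => hn ?_) hx
    exact ((le_max_right _ _).trans_lt (hf (s n) ⟨x, h1.le⟩)).trans_le (hs n ▸ hc (n + 1))

variable [OrderBot O]

/-- Subtlety for sets of lists at inaccessible closure points. -/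
theorem sub (A : O → Set (List O)) (g : O → O) (a0 : O) : ∃ γ κ, a0 < γ ∧ γ < κ ∧ Reg γ ∧ Reg κ ∧
    Cl g γ ∧ Cl g κ ∧ ∀ l, (∀ a ∈ l, a < γ) → (l ∈ A γ ↔ l ∈ A κ) := by
  classical
  obtain ⟨π, G, hπ, h1, h2⟩ := coding (X := Bool × List O) (fun x a => ∀ y ∈ x.2, y < a)
    (fun x => list_bd x.2) (fun x a b h hab y hy => (h y hy).trans_le hab) fun a => by
      refine lt_of_le_of_lt (mk_le_of_injective (β := Bool × {l : List O | ∀ x ∈ l, x < a})
        (f := fun x => (x.1.1, ⟨x.1.2, x.2⟩)) fun x y e => ?_) ?_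
      · simp only [Prod.mk.injEq, Subtype.mk.injEq] at e
        exact Subtype.ext (Prod.ext e.1 e.2)
      · simp only [mk_prod, lift_id]
        exact mul_lt_of_lt hO.inacc.aleph0_lt.le ((lt_aleph0_of_finite _).trans hO.inacc.aleph0_lt)
          (list_small a)
  choose pw hpw using fun a : O => exists_iio (hO.inacc.isStrongPrelimit (iic_lt a))
  choose nx hnx using exists_gt' (O := O)
  obtain ⟨a1, ha1⟩ := exists_iio hO.inacc.aleph0_lt
  let C := {c | max a0 a1 < c ∧ Cl (fun a => max (max (G a) (g a)) (max (pw a) (nx a))) c}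
  have c1 : ∀ c ∈ C, ∀ a < c, G a < c ∧ g a < c ∧ pw a < c ∧ nx a < c := fun c hc a ha => by
    simpa only [max_lt_iff, and_assoc] using hc.2 a ha
  have c2 : ∀ c ∈ C, ∀ a < c, 2 ^ #(Iic a) < cn0 c := fun c hc a ha => by
    have h3 := (c1 c hc a ha).2.2.1
    rw [← hpw a]
    exact ((cn0_le_iic _).trans_lt (cantor _)).trans_le
      ((hpw _).symm.le.trans (cn0_mono (c1 c hc _ h3).2.2.1.le))
  have c3 : ∀ c ∈ C, ∀ l : List O, (∀ y ∈ l, y < c) → ∃ a < c, ∀ y ∈ l, y < a := by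
    intro c hc l
    induction l with
    | nil => exact fun _ => ⟨_, hc.1, by simp⟩
    | cons y l ih =>
      intro h
      obtain ⟨a, ha, h3⟩ := ih fun z hz => h z (List.mem_cons_of_mem _ hz)
      refine ⟨max a (nx y), max_lt ha (c1 c hc y (h y List.mem_cons_self)).2.2.2, fun z hz => ?_⟩
      rcases List.mem_cons.1 hz with rfl | hz
      · exact lt_max_of_lt_right (hnx _)
      · exact lt_max_of_lt_left (h3 z hz)
  have c4 : ∀ c, ∃ (b : O) (f : O → O), c ∈ C → b < c ∧ (∀ x < b, f x < c) ∧ (b = ⊥ → Reg c) ∧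
      (b ≠ ⊥ → ∀ a < c, ∃ x < b, a ≤ f x) := by
    intro c
    by_cases hc : c ∈ C
    swap
    · exact ⟨⊥, id, fun h => absurd h hc⟩
    by_cases hr : Reg c
    · exact ⟨⊥, id, fun _ => ⟨bot_le.trans_lt hc.1, by simp, fun _ => hr, by simp⟩⟩
    have : ∃ s ⊆ Iio c, #s < cn0 c ∧ ∀ b < c, ∃ a ∈ s, b ≤ a := by
      by_contra hn
      refine hr ⟨?_, c2 c hc, fun s h3 h4 => ?_⟩
      · have h3 : a1 < c := (le_max_right _ _).trans_lt hc.1
        exact ((ha1.symm.le.trans (cn0_le_iic a1)).trans_lt (cantor _)).trans (c2 c hc a1 h3)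
      · by_contra h5
        push Not at h5
        exact hn ⟨s, h3, h4, h5⟩
    obtain ⟨s, h3, h4, h5⟩ := this
    obtain ⟨b, hb, e⟩ := exists_cn0 h4
    obtain ⟨φ⟩ := Cardinal.eq.1 e
    refine ⟨b, fun x => if h : x < b then (φ ⟨x, h⟩).1 else x, fun _ => ⟨hb, fun x hx => ?_,
      fun h6 => ?_, fun _ a ha => ?_⟩⟩
    · simp only [dif_pos hx]
      exact h3 (φ _).2
    · obtain ⟨a, ha, -⟩ := h5 b hb
      exact absurd ((φ.symm ⟨a, ha⟩).2.trans_eq h6) not_lt_bot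
    · obtain ⟨y, hy, h6⟩ := h5 a ha
      have h7 : (φ.symm ⟨y, hy⟩).1 < b := (φ.symm ⟨y, hy⟩).2
      refine ⟨(φ.symm ⟨y, hy⟩).1, h7, ?_⟩
      simpa [dif_pos h7] using h6
  choose b f hbf using c4
  let code : O → Bool × List O → Prop := fun c x =>
    if x.1 then x.2 ∈ A c else x.2 = [b c] ∨ ∃ y < b c, x.2 = [y, f c y]
  obtain ⟨c, hc, d, hd, hcd, e⟩ := Big.subtle C
    (fun c => π '' {x | (∀ y ∈ x.2, y < c) ∧ code c x} ∩ Iio c) (club _ _) fun _ => inter_subset_right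
  have key : ∀ x : Bool × List O, (∀ y ∈ x.2, y < c) → (code c x ↔ code d x) := by
    intro x hx
    obtain ⟨a, ha, h3⟩ := c3 c hc _ hx
    have h4 : π x < c := (h1 x a h3).trans (c1 c hc a ha).1
    have h5 := Set.ext_iff.1 e (π x)
    simp only [mem_inter_iff, hπ.mem_set_image, mem_Iio, h4, h4.trans hcd, and_true,
      mem_ofPred_eq] at h5
    exact ⟨fun h => (h5.1 ⟨hx, h⟩).2, fun h => (h5.2 ⟨fun y hy => (hx y hy).trans hcd, h⟩).2⟩
  obtain ⟨k1, k2, k3, -⟩ := hbf c hc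
  obtain ⟨-, -, k4, k5⟩ := hbf d hd
  have e1 : b c = b d := by simpa [code] using (key (false, [b c]) (by simpa using k1)).1
  have e2 : b d = ⊥ := by
    by_contra hn
    obtain ⟨x, hx, h3⟩ := k5 hn c hcd
    have hx' : x < b c := e1 ▸ hx
    have := (key (false, [x, f c x]) (by simpa using ⟨hx'.trans k1, k2 x hx'⟩)).1
      (by simpa [code] using hx')
    simp only [code, Bool.false_eq_true, if_false, List.cons.injEq, and_true] at this
    rcases this with h4 | ⟨y, -, rfl, h4⟩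
    · simp at h4
    · exact absurd (k2 x hx') (not_lt.2 (h4 ▸ h3))
  exact ⟨c, d, (le_max_left _ _).trans_lt hc.1, hcd, k3 (e1.trans e2), k4 e2,
    fun a ha => (c1 c hc a ha).2.1, fun a ha => (c1 d hd a ha).2.1, fun l hl => key (true, l) hl⟩

/-- Inaccessible points that reflect closure properties. -/
structure Mh (θ : O) : Prop where
  reg : Reg θ
  refl : ∀ g, Cl g θ → ∀ a < θ, ∃ c < θ, a < c ∧ Reg c ∧ Cl g c

theorem exists_mh (g : O → O) (a0 : O) : ∃ θ, a0 < θ ∧ Mh θ ∧ Cl g θ := by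
  by_contra hn
  have h1 : ∀ θ, ∃ (f : O → O) (a : O), a0 < θ → Reg θ → Cl g θ → Cl f θ ∧ a < θ ∧
      ∀ c < θ, a < c → Reg c → ¬ Cl f c := by
    intro θ
    by_contra h2
    push Not at h2
    obtain ⟨h3, h4, h5, -⟩ := h2 id a0
    refine hn ⟨θ, h3, ⟨h4, fun f hf a ha => ?_⟩, h5⟩
    obtain ⟨c, h6, h7, h8, h9⟩ := (h2 f a).2.2.2 hf ha
    exact ⟨c, h6, h7, h8, h9⟩
  choose f a h1 using h1
  obtain ⟨γ, κ, h2, h3, h4, h5, h6, h7, h8⟩ := sub
    (fun θ => {l | l = [a θ] ∨ ∃ x, l = [x, f θ x]}) g a0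
  obtain ⟨k1, k2, -⟩ := h1 γ h2 h4 h6
  obtain ⟨-, -, k3⟩ := h1 κ (h2.trans h3) h5 h7
  have e : a γ = a κ := by simpa using (h8 [a γ] (by simpa using k2)).1
  refine k3 γ h3 (e ▸ k2) h4 fun x hx => ?_
  have : f γ x = f κ x := by
    simpa using (h8 [x, f γ x] (by simpa using ⟨hx, k1 x hx⟩)).1
  exact this ▸ k1 x hx

end Pool.Agent.MP_d6f492_lc
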