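import Pool.Agent.MP_d6f492_lc.Defs
import Pool.Agent.Lib.helper92.ZF.GenAPI

/-! Interfaces between the forcing, the generic extension and the arguments inside it. -/

namespace Pool.Agent.MP_d6f492_lc

open ZFSet Pool.Agent.ZF92

section Ground

variable {K P : Type} [LinearOrder K]

/-- A family of predicates on conditions that are inherited by extensions. -/
def Mo {A : Type} (le : P → P → Prop) (Z : A → P → Prop) : Prop :=
  ∀ e p q, le q p → Z e p → Z e q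

/-- The condition `y` forces that the two names agree on the square below `β`. -/
def Eqv (le : P → P → Prop) (β : K) (Z W : K × K → P → Prop) (y : P) : Prop :=
  ∀ a < β, ∀ b < β, ∀ u, le u y →
    (Z (a, b) u → ∃ v, le v u ∧ W (a, b) v) ∧ (W (a, b) u → ∃ v, le v u ∧ Z (a, b) v)

/-- The quotient attached to a name of a set of points and to a small family of open sets. -/
structure Quo (le : P → P → Prop) (Ev : K → K × K → P → Prop)
    (Out : (K × K → P → Prop) → P → Prop) (X : K × K × K → P → Prop)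
    (Sl : K × K → P → Prop) (am : P → P → P) : Prop where
  slm : Mo le Sl
  self : ∀ p, am p p = p
  left : ∀ m y k, am (am m y) k = am m k
  up : ∀ m y k, le m (am y k) → le (am m y) y
  down : ∀ m y k, le m (am y k) → le m (am m k)
  mono : ∀ g g' k, le g' g → le (am g' k) (am g k)
  ev : ∀ j e y k, Ev j e (am y k) ↔ Ev j e y
  refl : ∀ s y, X s y → ∃ m, le m y ∧ ∀ k, X s (am m k)
  cover : ∀ Z y, Mo le Z → Out Z y → ∀ β, ∃ u, le u y ∧ ∃ β' j, β ≤ β' ∧ Sl (β', j) u ∧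
    Eqv le β' Z (Ev j) u
  avoid : ∀ W p, Mo le W → (∀ β y, le y p → ∃ u, le u y ∧ ∃ β' j, β ≤ β' ∧ Sl (β', j) u ∧
      Eqv le β' W (Ev j) u) → ∀ y k, le (am y k) p → ∃ u, le u y ∧ ∃ Z, Mo le Z ∧ Out Z u ∧
      ∀ β j v, le v u → Eqv le β Z (Ev j) v → ∃ m, le m (am v k) ∧ Eqv le β W (Ev j) m
  lb : ∀ (β : K) (F : K × P → P → Prop) (p : P), Mo le F →
    (∀ a k k' y, le y p → F (a, k) y → F (a, k') y → k = k') →
    (∀ a < β, ∀ a' < β, ∀ y, le y p → ∃ m, le m y ∧ ∃ a'' < β, ∃ k k' k'', F (a, k) m ∧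
      F (a', k') m ∧ F (a'', k'') m ∧ le (am m k'') (am m k) ∧ le (am m k'') (am m k')) →
    ∃ q, le q p ∧ ∃ l, ∀ a < β, ∀ k y, le y q → F (a, k) y → ∃ u, le u y ∧ le (am u l) (am u k)

/-- What the forcing provides. The type `K` is the set of ordinals below `κ`. -/
structure Gd (le : P → P → Prop) (Ev : K → K × K → P → Prop) : Prop where
  nomax : ∀ a : K, ∃ b, a < b
  lim : ∃ b : K, (∃ a, a < b) ∧ ∀ a < b, ∃ c, a < c ∧ c < b
  mono : ∀ j, Mo le (Ev j)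
  small : ∀ β : K, ∃ β', ∀ Z, Mo le Z → ∀ p, ∃ q, le q p ∧ ∃ j < β', Eqv le β Z (Ev j) q
  reg : ∀ (β : K) (H : K × K → P → Prop) (p : P), Mo le H →
    (∀ a < β, ∀ y, le y p → ∃ u, le u y ∧ ∃ b, H (a, b) u) →
    ∃ q, le q p ∧ ∃ c, ∀ a < β, ∀ y, le y q → ∃ u, le u y ∧ ∃ b < c, H (a, b) u
  tree : ∀ (T : K × K → P → Prop) (p : P), Mo le T →
    (∀ β y, le y p → ∃ u, le u y ∧ ∃ j, T (β, j) u) →
    (∀ β β' j j' y, β' ≤ β → le y p → T (β, j) y → Eqv le β' (Ev j') (Ev j) y →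
      ∃ u, le u y ∧ T (β', j') u) →
    ∃ q, le q p ∧ ∃ Z, Mo le Z ∧ ∀ β j y, le y q → Eqv le β Z (Ev j) y →
      ∃ u, le u y ∧ T (β, j) u
  dich : ∀ (Out : (K × K → P → Prop) → P → Prop) (X : K × K × K → P → Prop), Mo le X →
    (∀ Z p q, le q p → Out Z p → Out Z q) → ∃ Sl am, Quo le Ev Out X Sl am

end Ground

section Inner

variable {M : Set ZFSet.{0}} [Fact (ZFC M)] {K : Type} [Srt M K] [Sm M K] [LinearOrder K]

/-- Agreement on the square below `β`. -/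
def Ag {K : Type} [LT K] (β : K) (z w : K × K → Prop) : Prop :=
  ∀ a < β, ∀ b < β, (z (a, b) ↔ w (a, b))

/-- The graph of a function. -/
def gr (x : Fn M K K) (e : K × K) : Prop := x.ap e.1 = e.2

/-- A closed preorder in `M` whose members decide initial parts of a pair of points. -/
structure QS (C : PS M (Fn M K K × Fn M K K)) (B : PS M (PS M (K × K))) {Q : Type} [Srt M Q]
    [Sm M Q] (le : Q → Q → Prop) (D : Q → K → Fn M K K → Fn M K K → Prop) : Prop where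
  ne : Nonempty Q
  dle : DfF M fun p : Q × Q => le p.1 p.2
  dD : DfF M fun p : (Q × K) × Fn M K K × Fn M K K => D p.1.1 p.1.2 p.2.1 p.2.2
  refl : ∀ q, le q q
  trans : ∀ p q r, le p q → le q r → le p r
  mono : ∀ q q' β x y, le q' q → D q β x y → D q' β x y
  congr : ∀ q β x y x' y', D q β x y → (∀ a < β, x.ap a = x'.ap a ∧ y.ap a = y'.ap a) →
    D q β x' y'
  coh : ∀ q β β' x y x' y' a, D q β x y → D q β' x' y' → a < β → a < β' →
    x.ap a = x'.ap a ∧ y.ap a = y'.ap a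
  dense : ∀ q β, ∃ q', le q' q ∧ ∃ x y, (x, y) ∈ C ∧ D q' β x y
  out : ∀ q, ∃ z : PS M (K × K), z ∉ B ∧ ∀ β, ∃ q', le q' q ∧ ∃ x y, D q' β x y ∧
    Ag β (fun e => e ∈ z) (gr x)
  closed : ∀ (β : K) (F : Fn M K Q), (∀ a a', a < a' → a' < β → le (F.ap a') (F.ap a)) →
    ∃ q, ∀ a < β, le q (F.ap a)

/-- What holds in the generic extension. The sort `K` is `κ`. -/
structure Ax (M : Set ZFSet.{0}) [Fact (ZFC M)] {K : Type} [Srt M K] [Sm M K] [LinearOrder K]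
    (ev : K → K × K → Prop) : Prop where
  lt : ∀ a b : K, cd M a ∈ cd M b ↔ a < b
  trans : ∀ (a : K) z, z ∈ cd M a → ∃ b : K, z = cd M b
  nomax : ∀ a : K, ∃ b, a < b
  lim : ∃ b : K, (∃ a, a < b) ∧ ∀ a < b, ∃ c, a < c ∧ c < b
  dev : DfF M fun p : K × K × K => ev p.1 p.2
  small : ∀ β : K, ∃ β', ∀ z : PS M (K × K), ∃ j < β', Ag β (fun e => e ∈ z) (ev j)
  reg : ∀ (β : K) (h : Fn M K K), ∃ c, ∀ a < β, h.ap a < c
  tree : ∀ T : PS M (K × K), (∀ β, ∃ j, (β, j) ∈ T) →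
    (∀ β β' j j', β' ≤ β → (β, j) ∈ T → Ag β' (ev j') (ev j) → (β', j') ∈ T) →
    ∃ z : PS M (K × K), ∀ β j, Ag β (fun e => e ∈ z) (ev j) → (β, j) ∈ T
  dich : ∀ (C : PS M (Fn M K K × Fn M K K)) (B : PS M (PS M (K × K))), ∃ Sl : PS M (K × K),
    (∀ z : PS M (K × K), z ∉ B → ∀ β, ∃ β' j, β ≤ β' ∧ (β', j) ∈ Sl ∧
      Ag β' (fun e => e ∈ z) (ev j)) ∧
    ∀ x y, (x, y) ∈ C → (∀ β, ∃ β' j, β ≤ β' ∧ (β', j) ∈ Sl ∧ Ag β' (gr x) (ev j)) →
      ∃ (Q : Type) (_ : Srt M Q) (_ : Sm M Q) (le : Q → Q → Prop)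
        (D : Q → K → Fn M K K → Fn M K K → Prop), QS C B le D

end Inner

/-- Target of the forcing construction. -/
def GROUND : Prop := ∀ δ, Subtle δ → ∃ (K P : Type) (_ : LinearOrder K) (_ : WellFoundedLT K)
  (le : P → P → Prop) (_ : Forcing92.Pre le) (t : P) (Ev : K → K × K → P → Prop),
  (∀ p, le p t) ∧ Gd le Ev

/-- Target of the passage to the generic extension. -/
def MODEL : Prop := ∀ (K P : Type) [LinearOrder K] [WellFoundedLT K] (le : P → P → Prop)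
  [Forcing92.Pre le] (t : P) (Ev : K → K × K → P → Prop), (∀ p, le p t) → Gd le Ev →
  ∃ (M : Set ZFSet.{0}) (_ : Fact (ZFC M)) (L : Type) (_ : Srt M L) (_ : Sm M L)
    (_ : LinearOrder L) (_ : WellFoundedLT L) (ev : L → L × L → Prop), Ax M ev

/-- Target: weak compactness inside the extension. -/
def WC : Prop := ∀ (M : Set ZFSet.{0}) [Fact (ZFC M)] (K : Type) [Srt M K] [Sm M K]
  [LinearOrder K] [WellFoundedLT K] (ev : K → K × K → Prop), Ax M ev → WeaklyCompact M (un M K)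

/-- Target: the dichotomy inside the extension. -/
def DICH : Prop := ∀ (M : Set ZFSet.{0}) [Fact (ZFC M)] (K : Type) [Srt M K] [Sm M K]
  [LinearOrder K] [WellFoundedLT K] (ev : K → K × K → Prop), Ax M ev →
  ∀ A ∈ M, Analytic M (un M K) A → KSigma M (un M K) A ∨ ClosedCopy M (un M K) A

/-- Target: cluster points of long sequences inside the extension. -/
def CLU : Prop := ∀ (M : Set ZFSet.{0}) [Fact (ZFC M)] (K : Type) [Srt M K] [Sm M K]
  [LinearOrder K] [WellFoundedLT K] (ev : K → K × K → Prop), Ax M ev →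
  ∀ x : K → K × K → Prop, DfF M (fun p : K × K × K => x p.1 p.2) →
  ∃ z : PS M (K × K), ∀ β t : K, ∃ s, t ≤ s ∧ Ag β (fun e => e ∈ z) (x s)

/-- Target: the Hurewicz scheme inside the extension. -/
def HUR : Prop := ∀ (M : Set ZFSet.{0}) [Fact (ZFC M)] (K : Type) [Srt M K] [Sm M K]
  [LinearOrder K] [WellFoundedLT K] (ev : K → K × K → Prop), Ax M ev →
  ∀ (C : PS M (Fn M K K × Fn M K K)) (B : PS M (PS M (K × K))) (Q : Type) [Srt M Q] [Sm M Q]
    (le : Q → Q → Prop) (D : Q → K → Fn M K K → Fn M K K → Prop), QS C B le D →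
  (∀ x y, (∀ β : K, ∃ u v, (u, v) ∈ C ∧ ∀ a < β, x.ap a = u.ap a ∧ y.ap a = v.ap a) → (x, y) ∈ C) →
  (∀ x y z, (x, y) ∈ C → (∀ e, e ∈ z ↔ gr x e) → z ∈ B) →
  ∃ φ : Fn M K K → Fn M K K, DfF M φ ∧ (∀ f, ∃ y, (φ f, y) ∈ C) ∧
    (∀ f (β : K), ∃ γ : K, ∀ g : Fn M K K, (∀ a < γ, f.ap a = g.ap a) →
      ∀ a < β, (φ f).ap a = (φ g).ap a) ∧
    (∀ f (β : K), ∃ γ : K, ∀ g : Fn M K K, (∀ a < γ, (φ f).ap a = (φ g).ap a) →
      ∀ a < β, f.ap a = g.ap a) ∧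
    ∀ x y, (x, y) ∈ C → (∀ β : K, ∃ g, ∀ a < β, x.ap a = (φ g).ap a) → ∃ f, φ f = x

theorem final (h1 : GROUND) (h2 : MODEL) (h3 : WC) (h4 : DICH) (h : ∃ δ, Subtle δ) :
    ∃ M : Set ZFSet.{0}, ZFC M ∧ ∃ κ ∈ M, WeaklyCompact M κ ∧
      ∀ A ∈ M, Analytic M κ A → KSigma M κ A ∨ ClosedCopy M κ A := by
  obtain ⟨δ, hδ⟩ := h
  obtain ⟨K, P, _, _, le, _, t, Ev, ht, hG⟩ := h1 δ hδ
  obtain ⟨M, hM, L, _, _, _, _, ev, hA⟩ := h2 K P le t Ev ht hG
  exact ⟨M, hM.out, un M L, un_mem, h3 M L ev hA, h4 M L ev hA⟩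

end Pool.Agent.MP_d6f492_lc
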