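import Pool.Agent.MP_d6f492_lc.Base
import Pool.Agent.MP_d6f492_lc.Spec

/-! The conditions and their order. -/

namespace Pool.Agent.MP_d6f492_lc

open Cardinal Set Function

section Eqv

variable {K P : Type} [LinearOrder K] {le : P → P → Prop} {β β' : K} {Z W Y : K × K → P → Prop}
  {x y : P}

theorem Eqv.symm (h : Eqv le β Z W y) : Eqv le β W Z y :=
  fun a ha b hb u hu => (h a ha b hb u hu).symm

theorem Eqv.less (h : Eqv le β Z W y) (hβ : β' ≤ β) : Eqv le β' Z W y :=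
  fun a ha b hb => h a (ha.trans_le hβ) b (hb.trans_le hβ)

theorem Eqv.mono (tr : ∀ {p q r}, le p q → le q r → le p r) (h : Eqv le β Z W y) (hx : le x y) :
    Eqv le β Z W x := fun a ha b hb u hu => h a ha b hb u (tr hu hx)

theorem Eqv.trans (tr : ∀ {p q r}, le p q → le q r → le p r) (h : Eqv le β Z W y)
    (h' : Eqv le β W Y y) : Eqv le β Z Y y := fun a ha b hb u hu =>
  ⟨fun hz => let ⟨v, h1, h2⟩ := (h a ha b hb u hu).1 hz
    let ⟨w, h3, h4⟩ := (h' a ha b hb v (tr h1 hu)).1 h2; ⟨w, tr h3 h1, h4⟩,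
   fun hz => let ⟨v, h1, h2⟩ := (h' a ha b hb u hu).2 hz
    let ⟨w, h3, h4⟩ := (h a ha b hb v (tr h1 hu)).2 h2; ⟨w, tr h3 h1, h4⟩⟩

end Eqv

/-- Slots, promises and pieces of names. -/
inductive Bit (O : Type) : Type
  | s (c β j : O) (l : List O) : Bit O
  | a (c x : O) : Bit O
  | n (u v k : O) : Bit O

variable {O : Type} [LinearOrder O]

open Bit

def Bit.ords : Bit O → List O
  | s c β j l => c :: β :: j :: l
  | a c x => [c, x]
  | n u v k => [u, v, k]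

def Bit.co : Bit O → O
  | s c _ _ _ => c
  | a c _ => c
  | n u _ _ => u

def Bit.lt (b : Bit O) (x : O) : Prop := ∀ y ∈ b.ords, y < x

theorem Bit.lt.co {b : Bit O} {x : O} (h : b.lt x) : b.co < x :=
  h _ (by cases b <;> simp [Bit.ords, Bit.co])

theorem Bit.lt.mono {b : Bit O} {x y : O} (h : b.lt x) (hxy : x ≤ y) : b.lt y :=
  fun z hz => (h z hz).trans_le hxy

theorem lt_s {c β j x : O} {l : List O} :
    (s c β j l).lt x ↔ c < x ∧ β < x ∧ j < x ∧ ∀ k ∈ l, k < x := by simp [Bit.lt, Bit.ords]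
theorem lt_a {c y x : O} : (a c y).lt x ↔ c < x ∧ y < x := by simp [Bit.lt, Bit.ords]
theorem lt_n {u v k x : O} : (n u v k).lt x ↔ u < x ∧ v < x ∧ k < x := by simp [Bit.lt, Bit.ords]

abbrev Cd (O : Type) := Set (Bit O)

def Bd (t : Cd O) (x : O) : Prop := ∀ b ∈ t, b.lt x

/-- Codes, bookkeeping and the lengths of the blocks. -/
class Dat (O : Type) [LinearOrder O] where
  cn : O → Cd O
  code : Cd O → O
  bk : O → O
  g0 : O → O
  th : O → O
  code_lt : ∀ {t x}, Bd t x → code t < g0 x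
  cn_code : ∀ {t x}, Bd t x → cn (code t) = t
  cn_bd : ∀ k, Bd (cn k) (g0 k)
  lt_g0 : ∀ x, x < g0 x
  bk_spec : ∀ {k x}, k ≤ x → ∃ c, x < c ∧ c < g0 x ∧ bk c = k
  lt_th : ∀ x, x < th x
  th_mh : ∀ x, Mh (th x)
  th_cl : ∀ x, Cl g0 (th x)
  th_mono : Monotone th

theorem exists_dat [WellFoundedLT O] [OrderBot O] [hO : Big O] : Nonempty (Dat O) := by
  classical
  have h0 : ∀ x : O, #{b : Bit O | b.lt x} < #O := fun x => by
    refine lt_of_le_of_lt (mk_le_of_injective (β := ℕ × {l : List O | ∀ y ∈ l, y < x})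
      (f := fun b => (Bit.rec (fun _ _ _ _ => 0) (fun _ _ => 1) (fun _ _ _ => 2) b.1,
        ⟨b.1.ords, b.2⟩)) ?_) ?_
    · rintro ⟨b, hb⟩ ⟨b', hb'⟩ e
      cases b <;> cases b' <;> simp_all [Bit.ords]
    · simp only [mk_prod, lift_id, mk_nat]
      exact mul_lt_of_lt hO.inacc.aleph0_lt.le hO.inacc.aleph0_lt (list_small x)
  obtain ⟨π, G, hπ, h1, h2⟩ := coding (X := {t : Cd O // ∃ x, Bd t x}) (fun t x => Bd t.1 x)
    (fun t => t.2) (fun t x y h hxy b hb => (h b hb).mono hxy) fun x => by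
      refine lt_of_le_of_lt (mk_le_of_injective (β := 𝒫 {b : Bit O | b.lt x})
        (f := fun t => ⟨t.1.1, t.2⟩) fun t t' e => Subtype.ext (Subtype.ext (Subtype.mk.inj e))) ?_
      rw [mk_powerset]
      exact hO.inacc.isStrongPrelimit (h0 x)
  obtain ⟨ρ⟩ : #(O × O) ≤ #O := by simp [mul_eq_self hO.inacc.aleph0_lt.le]
  have h3 : ∀ k x : O, ∃ y, x < ρ (k, y) := fun k x => by
    by_contra hn
    push Not at hn
    exact absurd (iic_lt x) (not_lt.2 (mk_le_of_injective (f := fun y => (⟨_, hn y⟩ : Iic x))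
      fun y z e => (Prod.mk.inj (ρ.injective (Subtype.mk.inj e))).2))
  choose nx hnx using h3
  choose H hH using fun x : O => exists_bd (iic_lt x) fun k => ρ (k.1, nx k.1 x)
  let g : O → O := fun x => max (G x) (H x)
  have h4 : ∀ x : O, ∃ θ, (x < θ ∧ Mh θ ∧ Cl g θ) ∧ ∀ θ', x < θ' ∧ Mh θ' ∧ Cl g θ' → ¬ θ' < θ :=
    fun x => (wellFounded_lt (α := O)).has_min {θ | x < θ ∧ Mh θ ∧ Cl g θ} (exists_mh g x)
  choose th h4 h5 using h4
  refine ⟨⟨fun k => if h : ∃ t, π t = k then h.choose.1 else ∅,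
    fun t => if h : ∃ x, Bd t x then π ⟨t, h⟩ else ⊥, fun c => (invFun ρ c).1, g, th,
    fun {t x} h => ?_, fun {t x} h => ?_, fun k => ?_,
    fun x => lt_max_of_lt_right ((hnx x x).trans (hH x ⟨x, le_rfl⟩)), fun {k x} h => ?_,
    fun x => (h4 x).1, fun x => (h4 x).2.1, fun x => (h4 x).2.2,
    fun x y h => not_lt.1 (h5 x _ ⟨h.trans_lt (h4 y).1, (h4 y).2⟩)⟩⟩
  · rw [dif_pos ⟨x, h⟩]
    exact lt_max_of_lt_left (h1 _ x h)
  · have h6 : ∃ x, Bd t x := ⟨x, h⟩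
    have h7 : ∃ t', π t' = π ⟨t, h6⟩ := ⟨_, rfl⟩
    simp only [dif_pos h6, dif_pos h7, hπ h7.choose_spec]
  · split_ifs with h
    · exact fun b hb => (h2 _ k h.choose_spec.le b hb).mono (le_max_left _ _)
    · exact fun b hb => hb.elim
  · exact ⟨_, hnx k x, lt_max_of_lt_right (hH x ⟨k, h⟩), by rw [leftInverse_invFun ρ.injective]⟩

open Dat

variable [Dat O]

/-- The levels of the iteration. -/
structure Lev (γ : O) : Prop where
  reg : Reg γ
  g0 : Cl g0 γ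
  th : Cl th γ

def At (γ c : O) : Prop := Lev γ ∧ γ ≤ c ∧ c < th γ

theorem At.uniq {γ γ' c : O} (h : At γ c) (h' : At γ' c) : γ = γ' := by
  rcases lt_trichotomy γ γ' with e | e | e
  · exact absurd ((h'.1.th γ e).trans_le h'.2.1) h.2.2.not_gt
  · exact e
  · exact absurd ((h.1.th γ' e).trans_le h.2.1) h'.2.2.not_gt

theorem At.le {γ κ c : O} (h : At γ c) (hc : c < th κ) : γ ≤ κ :=
  not_lt.1 fun e => ((h.1.th κ e).trans_le h.2.1).not_gt hc

def WF : Bit O → Prop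
  | s c β j l => ∃ γ, At γ c ∧ β < γ ∧ j < γ ∧ ∀ k ∈ l, k < γ
  | a c x => ∃ γ, At γ c ∧ x < c ∧ n x x x ∈ cn (bk c) ∧ #(cn x) ≤ cn0 γ ∧
      ∀ u v k, n u v k ∈ cn x → v < γ
  | n _ _ _ => False

theorem WF.lt {b : Bit O} {c : O} (h : WF b) (hc : b.co < c) : b.lt c := by
  cases b with
  | s d β j l =>
    obtain ⟨γ, h1, h2, h3, h4⟩ := h
    have h5 : γ < c := h1.2.1.trans_lt hc
    exact lt_s.2 ⟨hc, h2.trans h5, h3.trans h5, fun k hk => (h4 k hk).trans h5⟩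
  | a d x => obtain ⟨γ, -, h2, -⟩ := h; exact lt_a.2 ⟨hc, h2.trans hc⟩
  | n => exact h.elim

def lo (c : O) (p : Cd O) : Cd O := {b ∈ p | b.co < c}
def hi (c : O) (p : Cd O) : Cd O := {b ∈ p | c ≤ b.co}
def am (c : O) (r p : Cd O) : Cd O := lo c r ∪ hi c p

/-- Valid conditions. -/
def Val (p : Cd O) : Prop := (∀ b ∈ p, WF b) ∧ ∀ L, Lev L → #(lo (th L) p) < cn0 L

def V (c : O) (p : Cd O) : Prop := Val p ∧ ∀ b ∈ p, b.co < c

def Act (L : Cd O → Cd O → Prop) (y : Cd O) (l : List O) : Prop := ∀ k ∈ l, L y (cn k)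

def Ev (L : Cd O → Cd O → Prop) (j : O) (e : O × O) (y : Cd O) : Prop :=
  ∃ k, n e.1 e.2 k ∈ cn j ∧ L y (cn k)

def Tst (L : Cd O → Cd O → Prop) (u y : Cd O) : Prop := Val u ∧ L u y

def Has (L : Cd O → Cd O → Prop) (c β j : O) (x y : Cd O) : Prop := ∃ l, s c β j l ∈ x ∧ Act L y l

def Alw (L : Cd O → Cd O → Prop) (c ξ β j : O) (y : Cd O) : Prop :=
  ∃ β0 j0 k, n β0 j0 k ∈ cn ξ ∧ β0 ≤ β ∧ V c (cn k) ∧ L y (cn k) ∧
    Eqv (Tst L) β0 (Ev L j0) (Ev L j) y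

structure Phi (c : O) (L : Cd O → Cd O → Prop) (x p : Cd O) : Prop where
  pr : ∀ ξ, a c ξ ∈ p → a c ξ ∈ x
  sl : ∀ β j y, Tst L y x → Has L c β j p y → ∃ u, Tst L u y ∧ Has L c β j x u
  nw : ∀ β j ξ y, a c ξ ∈ p → Tst L y x → Has L c β j x y →
    ∃ u, Tst L u y ∧ (Has L c β j p u ∨ Alw L c ξ β j u)

variable [WellFoundedLT O]

noncomputable def Step : O → Cd O → Cd O → Prop :=
  (wellFounded_lt (α := O)).fix fun c R => Phi c fun x p => ∀ d (h : d < c), R d h x p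

def Le (c : O) (x p : Cd O) : Prop := ∀ d < c, Step d x p

def le (x p : Cd O) : Prop := ∀ c, Step c x p

theorem step_iff {c : O} {x p : Cd O} : Step c x p ↔ Phi c (Le c) x p := by
  rw [Step, WellFounded.fix_eq]; rfl

variable {c d : O} {x y p q r : Cd O}

theorem Step.phi (h : Step c x p) : Phi c (Le c) x p := step_iff.1 h

theorem Le.mono (h : Le c x p) (hd : d ≤ c) : Le d x p := fun e he => h e (he.trans_le hd)

theorem le.at (h : le x p) (c : O) : Le c x p := fun d _ => h d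

theorem le_of_all (h : ∀ c, Le c x p) : le x p := fun c => h (g0 c) c (lt_g0 c)

theorem step_sub' (hr : ∀ y : Cd O, Le c y y) (h1 : ∀ b ∈ p, b.co = c → b ∈ x)
    (h2 : ∀ β j l ξ, s c β j l ∈ x → a c ξ ∈ p → s c β j l ∈ p) : Step c x p :=
  step_iff.2 ⟨fun _ h => h1 _ h rfl,
    fun _ _ y hy ⟨l, h3, h4⟩ => ⟨y, ⟨hy.1, hr y⟩, l, h1 _ h3 rfl, h4⟩,
    fun _ _ _ y h hy ⟨l, h3, h4⟩ => ⟨y, ⟨hy.1, hr y⟩, Or.inl ⟨l, h2 _ _ _ _ h3 h, h4⟩⟩⟩

theorem Le.refl (c : O) (x : Cd O) : Le c x x := by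
  induction c using WellFoundedLT.induction generalizing x with
  | ind c ih => exact fun d hd => step_sub' (ih d hd) (fun _ h _ => h) fun _ _ _ _ h _ => h

theorem step_sub (h1 : ∀ b ∈ p, b.co = c → b ∈ x)
    (h2 : ∀ β j l ξ, s c β j l ∈ x → a c ξ ∈ p → s c β j l ∈ p) : Step c x p :=
  step_sub' (Le.refl c) h1 h2

theorem step_same (h : ∀ b : Bit O, b.co = c → (b ∈ x ↔ b ∈ p)) : Step c x p :=
  step_sub (fun b hb e => (h b e).2 hb) fun _ _ _ _ h1 _ => (h _ rfl).1 h1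

theorem step_empty (h : ∀ b ∈ p, b.co ≠ c) : Step c x p :=
  step_sub (fun b hb e => absurd e (h b hb)) fun _ _ _ _ _ h1 => absurd rfl (h _ h1)

theorem le.refl (x : Cd O) : le x x := fun _ => step_same fun _ _ => Iff.rfl

theorem Le.trans (h1 : Le c x y) (h2 : Le c y p) : Le c x p := by
  induction c using WellFoundedLT.induction generalizing x y p with
  | ind c ih =>
  intro d hd
  have ih' : ∀ {x y p : Cd O}, Le d x y → Le d y p → Le d x p := ih d hd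
  have k1 := (h1 d hd).phi
  have k2 := (h2 d hd).phi
  have h1' := h1.mono hd.le
  refine step_iff.2 ⟨fun ξ h => k1.pr ξ (k2.pr ξ h), fun β j z hz h => ?_, fun β j ξ z hξ hz h => ?_⟩
  · obtain ⟨u, hu, h3⟩ := k2.sl β j z ⟨hz.1, ih' hz.2 h1'⟩ h
    obtain ⟨v, hv, h4⟩ := k1.sl β j u ⟨hu.1, ih' hu.2 hz.2⟩ h3
    exact ⟨v, ⟨hv.1, ih' hv.2 hu.2⟩, h4⟩
  · obtain ⟨u, hu, h3 | h3⟩ := k1.nw β j ξ z (k2.pr ξ hξ) hz h
    · obtain ⟨v, hv, h4⟩ := k2.nw β j ξ u hξ ⟨hu.1, ih' (ih' hu.2 hz.2) h1'⟩ h3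
      exact ⟨v, ⟨hv.1, ih' hv.2 hu.2⟩, h4⟩
    · exact ⟨u, hu, Or.inr h3⟩

theorem le.trans (h1 : le x y) (h2 : le y p) : le x p :=
  le_of_all fun c => (h1.at c).trans (h2.at c)

theorem Tst.trans (h1 : Tst (Le c) x y) (h2 : Tst (Le c) y p) : Tst (Le c) x p :=
  ⟨h1.1, h1.2.trans h2.2⟩

theorem Tst.trans' (h1 : Tst (Le c) x y) (h2 : Le c y p) : Tst (Le c) x p := ⟨h1.1, h1.2.trans h2⟩

theorem Step.left (h : Step c x p) (h1 : Le c y x) (h2 : ∀ b : Bit O, b.co = c → (b ∈ y ↔ b ∈ x)) :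
    Step c y p := by
  refine step_iff.2 ⟨fun ξ hξ => (h2 _ rfl).2 (h.phi.pr ξ hξ), fun β j z hz h3 => ?_,
    fun β j ξ z hξ hz ⟨l, h3, h4⟩ => h.phi.nw β j ξ z hξ (hz.trans' h1) ⟨l, (h2 _ rfl).1 h3, h4⟩⟩
  obtain ⟨u, hu, l, h4, h5⟩ := h.phi.sl β j z (hz.trans' h1) h3
  exact ⟨u, hu, l, (h2 _ rfl).2 h4, h5⟩

theorem Step.right (h : Step c x p) (h2 : ∀ b : Bit O, b.co = c → (b ∈ q ↔ b ∈ p)) :
    Step c x q := by
  refine step_iff.2 ⟨fun ξ hξ => h.phi.pr ξ ((h2 _ rfl).1 hξ),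
    fun β j z hz ⟨l, h3, h4⟩ => h.phi.sl β j z hz ⟨l, (h2 _ rfl).1 h3, h4⟩,
    fun β j ξ z hξ hz h3 => ?_⟩
  obtain ⟨u, hu, h4⟩ := h.phi.nw β j ξ z ((h2 _ rfl).1 hξ) hz h3
  exact ⟨u, hu, h4.imp_left fun ⟨l, h5, h6⟩ => ⟨l, (h2 _ rfl).2 h5, h6⟩⟩

theorem Le.top (h : Le c x p) (hp : ∀ b ∈ p, b.co < c) : le x p := fun d => by
  rcases lt_or_ge d c with hd | hd
  · exact h d hd
  · exact step_empty fun b hb => ((hp b hb).trans_le hd).ne

theorem le_sub (h1 : p ⊆ x) (h2 : ∀ c β j l ξ, s c β j l ∈ x → a c ξ ∈ p → s c β j l ∈ p) :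
    le x p := fun c => step_sub (fun _ hb _ => h1 hb) (h2 c)

theorem le_empty (x : Cd O) : le x ∅ := fun _ => step_empty fun _ h => h.elim

omit [Dat O] [WellFoundedLT O] in
theorem mem_am {b : Bit O} : b ∈ am c r p ↔ b ∈ r ∧ b.co < c ∨ b ∈ p ∧ c ≤ b.co := Iff.rfl

omit [Dat O] [WellFoundedLT O] in
theorem mem_am_lt {b : Bit O} (h : b.co < c) : b ∈ am c r p ↔ b ∈ r := by
  simp [mem_am, h, h.not_ge]

omit [Dat O] [WellFoundedLT O] in
theorem mem_am_ge {b : Bit O} (h : c ≤ b.co) : b ∈ am c r p ↔ b ∈ p := by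
  simp [mem_am, h, h.not_gt]

theorem Le_lo (c : O) (x : Cd O) : Le c (lo c x) x :=
  fun _ hd => step_same fun _ e => and_iff_left (e ▸ hd)

theorem le_lo (c : O) (x : Cd O) : le x (lo c x) :=
  Le.top (c := c) (fun _ hd => step_same fun _ e => (and_iff_left (e ▸ hd)).symm) fun _ h => h.2

theorem Le.hi (h : Le d x p) (c : O) : Le d x (hi c p) := fun e he => by
  rcases lt_or_ge e c with h1 | h1
  · exact step_empty fun b hb => (h1.trans_le hb.2).ne'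
  · exact (h e he).right fun b hb => and_iff_left (hb ▸ h1)

theorem Le_am (c : O) (r p : Cd O) : Le c (am c r p) r :=
  fun _ hd => step_same fun _ e => mem_am_lt (e ▸ hd)

theorem Le.am_le (h : Le c r p) : le (am c r p) p := fun d => by
  rcases lt_or_ge d c with hd | hd
  · exact (h d hd).left ((Le_am c r p).mono hd.le) fun _ e => mem_am_lt (e ▸ hd)
  · exact step_same fun _ e => mem_am_ge (e ▸ hd)

theorem Le.meet (h1 : Le c x r) (h2 : Le d x (MP_d6f492_lc.hi c p)) : Le d x (am c r p) := fun e he => by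
  rcases lt_or_ge e c with h3 | h3
  · exact (h1 e h3).right fun _ hb => mem_am_lt (hb ▸ h3)
  · exact (h2 e he).right fun _ hb => (mem_am_ge (hb ▸ h3)).trans (and_iff_left (hb ▸ h3)).symm

theorem Le.le_am (h1 : Le c x r) (h2 : le x p) : le x (am c r p) :=
  le_of_all fun d => h1.meet ((h2.at d).hi c)

/-- Restriction of an extension of a condition that lives below the cut. -/
theorem Le.lo_le (h : Le c x p) (hp : ∀ b ∈ p, b.co < c) : le (lo c x) p :=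
  ((Le_lo c x).trans h).top hp

theorem Le.am_le' (h : Le c x p) (hp : ∀ b ∈ p, b.co < c) (y : Cd O) : le (am c x y) p :=
  ((Le_am c x y).trans h).top hp

theorem Act.mono {l : List O} (h : Act (Le c) y l) (hx : Le c x y) : Act (Le c) x l :=
  fun k hk => hx.trans (h k hk)

theorem Has.mono {β j e : O} (h : Has (Le c) e β j p y) (hx : Le c x y) : Has (Le c) e β j p x :=
  h.imp fun _ h => ⟨h.1, h.2.mono hx⟩

/-- The union of a directed family is a lower bound. -/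
theorem sUnion_le {S : Set (Cd O)} (hS : ∀ p ∈ S, ∀ q ∈ S, ∃ r ∈ S, le r p ∧ le r q)
    (hp : p ∈ S) : le (⋃₀ S) p := by
  refine le_of_all fun c => ?_
  induction c using WellFoundedLT.induction generalizing p with
  | ind c ih =>
  intro d hd
  refine step_iff.2 ⟨fun ξ h => ⟨p, hp, h⟩,
    fun β j z hz ⟨l, h1, h2⟩ => ⟨z, ⟨hz.1, Le.refl _ _⟩, l, ⟨p, hp, h1⟩, h2⟩,
    fun β j ξ z hξ hz ⟨l, ⟨q, hq, h1⟩, h2⟩ => ?_⟩
  obtain ⟨r, hr, h3, h4⟩ := hS p hp q hq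
  have h5 := hz.trans' (ih d hd hr)
  obtain ⟨u, hu, h6⟩ := (h4 d).phi.sl β j z h5 ⟨l, h1, h2⟩
  obtain ⟨v, hv, h7⟩ := (h3 d).phi.nw β j ξ u hξ (hu.trans h5) h6
  exact ⟨v, hv.trans hu, h7⟩

section Valid

omit [WellFoundedLT O]

theorem Val.sub (h : Val p) (hq : q ⊆ p) : Val q :=
  ⟨fun b hb => h.1 b (hq hb), fun L hL =>
    (mk_le_mk_of_subset (t := lo (th L) p) fun _ hb => ⟨hq hb.1, hb.2⟩).trans_lt (h.2 L hL)⟩

theorem Val.union (h : Val p) (h' : Val q) : Val (p ∪ q) :=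
  ⟨fun b hb => hb.elim (h.1 b) (h'.1 b), fun L hL => by
    refine lt_of_le_of_lt ?_ (hL.reg.add (h.2 L hL) (h'.2 L hL))
    exact (mk_le_mk_of_subset fun b hb => hb.1.imp (fun h => ⟨h, hb.2⟩) fun h => ⟨h, hb.2⟩).trans
      (mk_union_le _ _)⟩

theorem Val.am (h : Val r) (h' : Val p) (c : O) : Val (am c r p) :=
  (h.sub fun _ hb => hb.1).union (h'.sub fun _ hb => hb.1)

theorem Val.lo (h : Val p) (c : O) : V c (lo c p) := ⟨h.sub fun _ hb => hb.1, fun _ hb => hb.2⟩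

theorem V.mono (h : V c p) (hd : c ≤ d) : V d p := ⟨h.1, fun b hb => (h.2 b hb).trans_le hd⟩

theorem V.sub (h : V c p) (hq : q ⊆ p) : V c q := ⟨h.1.sub hq, fun b hb => h.2 b (hq hb)⟩

theorem V.union (h : V c p) (h' : V c q) : V c (p ∪ q) :=
  ⟨h.1.union h'.1, fun b hb => hb.elim (h.2 b) (h'.2 b)⟩

theorem V.am (h : V d p) (hr : Val r) (hc : c ≤ d) : V d (am c r p) :=
  ((hr.lo c).mono hc).union (h.sub fun _ hb => hb.1)

theorem V.empty (c : O) : V c (∅ : Cd O) :=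
  ⟨⟨fun _ h => h.elim, fun L hL => by
    rw [show lo (th L) (∅ : Cd O) = ∅ from eq_empty_of_forall_notMem fun _ h => h.1]
    simpa using aleph0_pos.trans hL.reg.big⟩, fun _ h => h.elim⟩

theorem V.single {b : Bit O} (h : WF b) (hc : b.co < c) : V c ({b} : Cd O) :=
  ⟨⟨fun _ e => e ▸ h, fun L hL => (mk_le_mk_of_subset (t := {b}) fun _ h => h.1).trans_lt
    (by simpa using one_lt_aleph0.trans hL.reg.big)⟩, fun _ e => e ▸ hc⟩

theorem V.bd (h : V c p) : Bd p c := fun b hb => (h.1.1 b hb).lt (h.2 b hb)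

theorem V.cn (h : V c p) : cn (code p) = p := cn_code h.bd

theorem V.code (h : V c p) : code p < g0 c := code_lt h.bd

theorem V.small {κ : O} (hκ : Lev κ) (h : V (th κ) p) : #p < cn0 κ :=
  (mk_le_mk_of_subset (t := lo (th κ) p) fun b hb => ⟨hb, h.2 b hb⟩).trans_lt (h.1.2 κ hκ)

omit [Dat O] in
theorem Bd.shrink {t : Cd O} (h : Bd t c) (hc : Reg c) (hs : #t < cn0 c) : ∃ d < c, Bd t d := by
  choose f h1 h2 using fun b : t => hc.list (h b.1 b.2)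
  obtain ⟨d, h3, h4⟩ := hc.bd hs h1
  exact ⟨d, h3, fun b hb y hy => (h2 ⟨b, hb⟩ y hy).trans (h4 _)⟩

theorem Bd.code {t : Cd O} (h : Bd t c) (hc : Reg c) (hg : Cl g0 c) (hs : #t < cn0 c) :
    code t < c :=
  let ⟨d, h1, h2⟩ := h.shrink hc hs; (code_lt h2).trans (hg d h1)

theorem cn_lt {k : O} (hg : Cl g0 c) (hk : k < c) : Bd (cn k) c :=
  fun b hb => (cn_bd k b hb).mono (hg k hk).le

theorem bits_le (hc : Reg c) (hg : Cl g0 c) : #{b : Bit O | b.lt c} ≤ cn0 c := by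
  have h : ∀ b : {b : Bit O | b.lt c}, Bd {b.1} c := fun b _ e => e ▸ b.2
  exact mk_le_of_injective (f := fun b => (⟨code {b.1}, (h b).code hc hg
    (by simpa using one_lt_aleph0.trans hc.big)⟩ : Iio c)) fun b b' e => Subtype.ext
      (singleton_injective ((cn_code (h b)).symm.trans ((congrArg cn (Subtype.mk.inj e)).trans
        (cn_code (h b')))))

theorem bits_lt {L : O} (hL : Reg L) (hg : Cl g0 L) (hc : c < L) :
    #{b : Bit O | b.lt c} < cn0 L := by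
  have h : ∀ b : {b : Bit O | b.lt c}, Bd {b.1} c := fun b _ e => e ▸ b.2
  exact (mk_le_of_injective (f := fun b => (⟨code {b.1}, code_lt (h b)⟩ : Iio (g0 c)))
    fun b b' e => Subtype.ext (singleton_injective ((cn_code (h b)).symm.trans
      ((congrArg cn (Subtype.mk.inj e)).trans (cn_code (h b')))))).trans_lt (hL.iio (hg c hc))

end Valid

/-- Extension inside the conditions below `d`. -/
def Ld (d : O) (u y : Cd O) : Prop := V d u ∧ le u y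

theorem Ld.trans (h1 : Ld d x y) (h2 : Ld d y p) : Ld d x p := ⟨h1.1, h1.2.trans h2.2⟩

theorem Ld.trans' (h1 : Ld d x y) (h2 : le y p) : Ld d x p := ⟨h1.1, h1.2.trans h2⟩

theorem V.ld (h : V d x) : Ld d x x := ⟨h, le.refl x⟩

theorem Tst.am (h : Tst (Le c) x y) (hy : V d y) (hc : c ≤ d) : Ld d (am c x y) y :=
  ⟨hy.am h.1 hc, h.2.am_le⟩

theorem Ld.tst (h : Ld d x y) (c : O) : Tst (Le c) x y := ⟨h.1.1, h.2.at c⟩

theorem Le.cn {γ k : O} (h : Le c y (cn k)) (hγ : Cl g0 γ) (hk : k < γ) (hc : γ ≤ c) :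
    le y (cn k) := h.top fun b hb => (cn_lt hγ hk b hb).co.trans_le hc

theorem Ev.at {j : O} {e : O × O} (h : Ev le j e y) (c : O) : Ev (Le c) j e y :=
  h.imp fun _ h => ⟨h.1, h.2.at c⟩

theorem Ev.mono {j : O} {e : O × O} (h : Ev le j e y) (hx : le x y) : Ev le j e x :=
  h.imp fun _ h => ⟨h.1, hx.trans h.2⟩

theorem Ev.mono' {j : O} {e : O × O} (h : Ev (Le c) j e y) (hx : Le c x y) : Ev (Le c) j e x :=
  h.imp fun _ h => ⟨h.1, hx.trans h.2⟩

theorem Ev.top {γ j : O} {e : O × O} (h : Ev (Le c) j e y) (hγ : Cl g0 γ) (hj : j < γ)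
    (hc : γ ≤ c) : Ev le j e y :=
  h.imp fun _ h => ⟨h.1, h.2.cn hγ (lt_n.1 (cn_lt hγ hj _ h.1)).2.2 hc⟩

theorem Ev.of_Le {γ j : O} {e : O × O} (h : Ev le j e y) (hx : Le c x y) (hγ : Cl g0 γ)
    (hj : j < γ) (hc : γ ≤ c) : Ev le j e x := ((h.at c).mono' hx).top hγ hj hc

theorem ev_mo (d j : O) : Mo (Ld d) (Ev le j) := fun _ _ _ h1 h2 => h2.mono h1.2

theorem Has.at {β j e : O} (h : Has le e β j p y) (c : O) : Has (Le c) e β j p y :=
  h.imp fun _ h => ⟨h.1, fun k hk => (h.2 k hk).at c⟩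

theorem Has.mono' {β j e : O} (h : Has le e β j p y) (hx : le x y) : Has le e β j p x :=
  h.imp fun _ h => ⟨h.1, fun k hk => hx.trans (h.2 k hk)⟩

theorem Has.top {β j : O} (h : Has (Le c) c β j p y) (hp : Val p) : Has le c β j p y :=
  h.imp fun _ h => ⟨h.1, fun k hk => by
    obtain ⟨_, h1, _, _, h2⟩ := hp.1 _ h.1
    exact (h.2 k hk).cn h1.1.g0 (h2 k hk) h1.2.1⟩

/-- The equivalence of two node names, from one cut to the whole poset. -/
theorem Eqv.to_ld {γ β j j' : O} (h : Eqv (Tst (Le c)) β (Ev (Le c) j) (Ev (Le c) j') y)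
    (hγ : Cl g0 γ) (hj : j < γ) (hj' : j' < γ) (hc : γ ≤ c) (hd : c ≤ d) (hx : Le c x y) :
    Eqv (Ld d) β (Ev le j) (Ev le j') x := by
  intro u hu v hv z hz
  have h1 := h u hu v hv z ((hz.tst c).trans' hx)
  refine ⟨fun h2 => ?_, fun h2 => ?_⟩
  · obtain ⟨w, h3, h4⟩ := h1.1 (h2.at c)
    exact ⟨_, h3.am hz.1 hd, (h4.mono' (Le_am c w z)).top hγ hj' hc⟩
  · obtain ⟨w, h3, h4⟩ := h1.2 (h2.at c)
    exact ⟨_, h3.am hz.1 hd, (h4.mono' (Le_am c w z)).top hγ hj hc⟩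

theorem Eqv.of_ld {γ β j j' : O} (h : Eqv (Ld d) β (Ev le j) (Ev le j') y) (hy : V d y)
    (hγ : Cl g0 γ) (hj : j < γ) (hj' : j' < γ) (hc : γ ≤ c) (hd : γ ≤ d) (hx : Le γ x y) :
    Eqv (Tst (Le c)) β (Ev (Le c) j) (Ev (Le c) j') x := by
  intro u hu v hv z hz
  have h0 : Tst (Le γ) z y := ⟨hz.1, (hz.2.mono hc).trans hx⟩
  have h1 := h u hu v hv _ (h0.am hy hd)
  have key : ∀ {i i' : O}, i < γ → i' < γ → (Ev le i (u, v) (am γ z y) →
      ∃ w, Ld d w (am γ z y) ∧ Ev le i' (u, v) w) → Ev (Le c) i (u, v) z →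
      ∃ w, Tst (Le c) w z ∧ Ev (Le c) i' (u, v) w := fun hi hi' h2 h3 => by
    obtain ⟨w, h4, h5⟩ := h2 ((h3.top hγ hi hc).of_Le (Le_am γ z y) hγ hi le_rfl)
    exact ⟨am γ w z, ⟨h4.1.1.am hz.1 γ, ((h4.2.at γ).trans (Le_am γ z y)).am_le.at c⟩,
      (h5.of_Le (Le_am γ w z) hγ hi' le_rfl).at c⟩
  exact ⟨key hj hj' h1.1, key hj' hj h1.2⟩

theorem le.slot {β j : O} (h : le x p) (hx : V d x) (hy : Ld d y x) (hs : Has le c β j p y) :
    ∃ u, Ld d u y ∧ Has le c β j x u := by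
  obtain ⟨u, h1, h2⟩ := (h c).phi.sl β j y (hy.tst c) (hs.at c)
  obtain ⟨l, h3, -⟩ := id h2
  exact ⟨_, h1.am hy.1 (hx.2 _ h3).le, (h2.mono (Le_am c u y)).top hx.1⟩

end Pool.Agent.MP_d6f492_lc
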