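import Pool.Agent.MP_d6f492_lc.Spec

/-! The dichotomy inside the extension, from cluster points and the Hurewicz scheme. -/

namespace Pool.Agent.MP_d6f492_lc

open ZFSet Pool.Agent.ZF92

namespace Dich

variable {M : Set ZFSet.{0}} [Fact (ZFC M)] {K : Type} [Srt M K] [Sm M K] [LinearOrder K]

omit [LinearOrder K] in
theorem pair_mem_fn {x : Fn M K K} {a : K} {w : ZFSet} :
    pair (cd M a) w ∈ cd M x ↔ w = cd M (x.ap a) := by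
  rw [mem_cd_fn]
  constructor
  · rintro ⟨b, e⟩
    obtain ⟨e1, e2⟩ := pair_inj.1 e
    obtain rfl := cd_inj.1 e1
    exact e2
  · rintro rfl
    exact ⟨a, rfl⟩

omit [LinearOrder K] in
theorem pt_iff {x : ZFSet} : Pt M (un M K) x ↔ ∃ f : Fn M K K, x = cd M f := by
  constructor
  · rintro ⟨hx, h1, h2⟩
    obtain ⟨A, rfl⟩ := exists_ps (X := K × K) hx fun z hz => by
      obtain ⟨a, ha, b, hb, rfl⟩ := mem_prod.1 (h1 hz)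
      obtain ⟨a, rfl⟩ := mem_un.1 ha
      obtain ⟨b, rfl⟩ := mem_un.1 hb
      exact ⟨(a, b), rfl⟩
    have h3 : ∀ a : K, ∃ b : K, (a, b) ∈ A ∧ ∀ c, (a, c) ∈ A → b = c := fun a => by
      obtain ⟨w, hw, hu⟩ := h2 _ (mem_un.2 ⟨a, rfl⟩)
      obtain ⟨p, hp, e⟩ := mem_cd_ps.1 hw
      obtain ⟨e1, e2⟩ := pair_inj.1 e
      obtain rfl := cd_inj.1 e1
      refine ⟨p.2, hp, fun c hc => cd_inj (M := M).1 (e2.symm.trans (hu _ ?_).symm)⟩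
      exact cd_mem_cd_ps.2 hc
    choose f h4 h5 using h3
    have e : ∀ x y, f x = y ↔ (x, y) ∈ A := fun x y => ⟨fun e => e ▸ h4 x, h5 x y⟩
    refine ⟨⟨f, DfF.of_rel (by fun_prop) e⟩, ?_⟩
    rw [cd_fn]
    refine congrArg _ (PS.ext fun p => ?_)
    rw [Fn.mem_gr]
    exact (e _ _).symm
  · rintro ⟨f, rfl⟩
    refine ⟨cd_mem f, fun z hz => ?_, fun z hz => ?_⟩
    · obtain ⟨a, rfl⟩ := mem_cd_fn.1 hz
      exact mem_prod.2 ⟨_, mem_un.2 ⟨_, rfl⟩, _, mem_un.2 ⟨_, rfl⟩, rfl⟩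
    · obtain ⟨a, rfl⟩ := mem_un.1 hz
      refine ⟨_, mem_cd_fn.2 ⟨a, rfl⟩, fun w hw => ?_⟩
      obtain ⟨b, e⟩ := mem_cd_fn.1 hw
      obtain ⟨e1, e2⟩ := pair_inj.1 e
      obtain rfl := cd_inj.1 e1
      exact e2

variable {ev : K → K × K → Prop}

theorem agree_iff (hA : Ax M ev) {b : K} {x y : Fn M K K} :
    Agree (cd M b) (cd M x) (cd M y) ↔ ∀ a < b, x.ap a = y.ap a := by
  constructor
  · intro h a ha
    exact cd_inj.1 (pair_mem_fn.1 ((h _ ((hA.lt a b).2 ha) _).1 (pair_mem_fn.2 rfl)))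
  · intro h a ha w
    obtain ⟨a, rfl⟩ := hA.trans b a ha
    rw [pair_mem_fn, pair_mem_fn, h a ((hA.lt a b).1 ha)]

omit [LinearOrder K] in
theorem inj_of {Y : Type} [Srt M Y] [Sm M Y] (T : PS M Y) {h : Y → K} (dh : DfF M h) {β : ZFSet}
    (hβ : ∀ y ∈ T, cd M (h y) ∈ β) (hi : ∀ y ∈ T, ∀ y' ∈ T, h y = h y' → y = y') :
    Inj M (cd M T) β := by
  have hm : ∀ p : Y × K, p ∈ PS.of M (fun p : Y × K => p.1 ∈ T ∧ h p.1 = p.2) ↔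
      p.1 ∈ T ∧ h p.1 = p.2 := fun p => PS.mem_of (by fun_prop)
  have key : ∀ a c, pair a c ∈ cd M (PS.of M (fun p : Y × K => p.1 ∈ T ∧ h p.1 = p.2)) ↔
      ∃ y ∈ T, a = cd M y ∧ c = cd M (h y) := fun a c => by
    rw [mem_cd_ps]
    constructor
    · rintro ⟨p, hp, e⟩
      obtain ⟨h1, h2⟩ := (hm p).1 hp
      exact ⟨p.1, h1, (pair_inj.1 e).1, h2 ▸ (pair_inj.1 e).2⟩
    · rintro ⟨y, hy, rfl, rfl⟩
      exact ⟨(y, h y), (hm _).2 ⟨hy, rfl⟩, rfl⟩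
  refine ⟨_, cd_mem (PS.of M (fun p : Y × K => p.1 ∈ T ∧ h p.1 = p.2)),
    ⟨fun z hz => ?_, fun z hz => ?_⟩, fun a b c ha hb => ?_⟩
  · obtain ⟨p, hp, rfl⟩ := mem_cd_ps.1 hz
    obtain ⟨h1, h2⟩ := (hm p).1 hp
    exact mem_prod.2 ⟨_, cd_mem_cd_ps.2 h1, _, h2 ▸ hβ _ h1, rfl⟩
  · obtain ⟨y, hy, rfl⟩ := mem_cd_ps.1 hz
    refine ⟨_, (key _ _).2 ⟨y, hy, rfl, rfl⟩, fun w hw => ?_⟩
    obtain ⟨y', -, e, rfl⟩ := (key _ _).1 hw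
    rw [cd_inj.1 e]
  · obtain ⟨y, hy, rfl, e⟩ := (key _ _).1 ha
    obtain ⟨y', hy', rfl, e'⟩ := (key _ _).1 hb
    rw [hi y hy y' hy' (cd_inj.1 (e.symm.trans e'))]

theorem ag_symm {β : K} {z w : K × K → Prop} (h : Ag β z w) : Ag β w z :=
  fun a ha b hb => (h a ha b hb).symm

theorem ag_trans {β : K} {z w u : K × K → Prop} (h : Ag β z w) (h' : Ag β w u) : Ag β z u :=
  fun a ha b hb => (h a ha b hb).trans (h' a ha b hb)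

theorem ag_mono {β γ : K} {z w : K × K → Prop} (h : Ag β z w) (e : γ ≤ β) : Ag γ z w :=
  fun a ha b hb => h a (ha.trans_le e) b (hb.trans_le e)

theorem df_lt (hA : Ax M ev) : DfF M fun p : K × K => p.1 < p.2 :=
  (DfF.cd_mem_cd DfF.id.fst DfF.id.snd).congr fun p => (hA.lt p.1 p.2).symm

theorem df_le (hA : Ax M ev) : DfF M fun p : K × K => p.1 ≤ p.2 :=
  ((df_lt hA).comp (DfF.id.snd.mk DfF.id.fst)).not.congr fun _ => not_lt.symm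

theorem cpt [WellFoundedLT K] (h1 : CLU) (hA : Ax M ev) (F : PS M (Fn M K K))
    (hF : ∀ z : PS M (K × K), (∀ β, ∃ x ∈ F, Ag β (fun e => e ∈ z) (gr x)) →
      ∃ x ∈ F, ∀ e, e ∈ z ↔ gr x e) : Cpt M (un M K) (cd M F) := by
  have dlt := df_lt hA
  have dev := hA.dev
  refine ⟨fun x hx => ?_, fun S hS hO hc => ?_⟩
  · obtain ⟨f, -, rfl⟩ := mem_cd_ps.1 hx
    exact pt_iff.2 ⟨f, rfl⟩
  obtain ⟨S, rfl⟩ := exists_ps (X := PS M (Fn M K K)) hS fun U hU => by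
    obtain ⟨U', e⟩ := exists_ps (X := Fn M K K) (trM hS hU) fun x hx => pt_iff.1 (hO U hU x hx).1
    exact ⟨U', e.symm⟩
  have hopen : ∀ U ∈ S, ∀ x ∈ U, ∃ b : K, ∀ y : Fn M K K, (∀ a < b, x.ap a = y.ap a) → y ∈ U := by
    intro U hU x hx
    obtain ⟨-, β, hβ, h⟩ := hO _ (cd_mem_cd_ps.2 hU) _ (cd_mem_cd_ps.2 hx)
    obtain ⟨b, rfl⟩ := mem_un.1 hβ
    exact ⟨b, fun y hy => cd_mem_cd_ps.1 (h _ (pt_iff.2 ⟨y, rfl⟩) ((agree_iff hA).2 hy))⟩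
  have hcov : ∀ x ∈ F, ∃ U ∈ S, x ∈ U := by
    intro x hx
    obtain ⟨U, hU, h⟩ := mem_sUnion.1 (hc (cd_mem_cd_ps.2 hx))
    obtain ⟨U, hU', rfl⟩ := mem_cd_ps.1 hU
    exact ⟨U, hU', cd_mem_cd_ps.1 h⟩
  have good : ∃ t : K, ∀ x ∈ F, ∃ U ∈ S, ∀ y ∈ F, Ag t (gr y) (gr x) → y ∈ U := by
    by_contra hn
    have hn' : ∀ t : K, ∃ x, x ∈ F ∧ ¬ ∃ U ∈ S, ∀ y ∈ F, Ag t (gr y) (gr x) → y ∈ U := fun t => by
      by_contra h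
      exact hn ⟨t, fun x hx => by_contra fun h' => h ⟨x, hx, h'⟩⟩
    obtain ⟨s, ds, hs⟩ := exists_choice (M := M)
      (by simp only [Ag, gr, all_iff, imp_iff]; fun_prop) hn'
    obtain ⟨z, hz⟩ := h1 M K ev hA (fun t => gr (s t)) (by simp only [gr]; fun_prop)
    obtain ⟨x, hx, e⟩ := hF z fun β => by
      obtain ⟨t, -, h⟩ := hz β β
      exact ⟨s t, (hs t).1, h⟩
    obtain ⟨U, hU, hxU⟩ := hcov x hx
    obtain ⟨b, hb⟩ := hopen U hU x hxU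
    obtain ⟨c, hc⟩ := hA.reg b x
    obtain ⟨t, ht, h⟩ := hz (max b c) (max b c)
    refine (hs t).2 ⟨U, hU, fun y _ hy => hb y fun a ha => ?_⟩
    have h2 := ag_trans h (ag_symm (ag_mono hy ht)) a (ha.trans_le (le_max_left _ _)) (x.ap a)
      ((hc a ha).trans_le (le_max_right _ _))
    exact (h2.1 ((e _).2 rfl)).symm
  obtain ⟨t, ht⟩ := good
  obtain ⟨b, hb⟩ := hA.small t
  have : Nonempty (PS M (Fn M K K)) := ⟨F⟩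
  have : Nonempty K := ⟨t⟩
  obtain ⟨c, dc, hc⟩ := exists_choice' (M := M)
    (R := fun (j : K) (U : PS M (Fn M K K)) => U ∈ S ∧ ∀ y ∈ F, Ag t (gr y) (ev j) → y ∈ U)
    (by simp only [Ag, gr, all_iff, imp_iff]; fun_prop)
  obtain ⟨h, dh, hh⟩ := exists_choice' (M := M)
    (R := fun (U : PS M (Fn M K K)) (j : K) => j < b ∧ c j = U) (by fun_prop)
  have hm : ∀ U, U ∈ PS.of M (fun U : PS M (Fn M K K) => U ∈ S ∧ ∃ j, j < b ∧ c j = U) ↔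
      U ∈ S ∧ ∃ j, j < b ∧ c j = U := fun U => PS.mem_of (by fun_prop)
  refine ⟨_, cd_mem (PS.of M (fun U : PS M (Fn M K K) => U ∈ S ∧ ∃ j, j < b ∧ c j = U)),
    fun U hU => ?_, fun x hx => ?_, cd M b, mem_un.2 ⟨b, rfl⟩, inj_of _ dh (fun U hU => ?_) ?_⟩
  · obtain ⟨U, hU', rfl⟩ := mem_cd_ps.1 hU
    exact cd_mem_cd_ps.2 ((hm U).1 hU').1
  · obtain ⟨x, hx', rfl⟩ := mem_cd_ps.1 hx
    obtain ⟨j, hj, h2⟩ := hb x.gr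
    have h3 : Ag t (gr x) (ev j) := fun a ha a' ha' => Fn.mem_gr.symm.trans (h2 a ha a' ha')
    obtain ⟨U, hU, h4⟩ := ht x hx'
    obtain ⟨h5, h6⟩ := hc j U ⟨hU, fun y hy h => h4 y hy (ag_trans h (ag_symm h3))⟩
    exact mem_sUnion.2 ⟨_, cd_mem_cd_ps.2 ((hm _).2 ⟨h5, j, hj, rfl⟩),
      cd_mem_cd_ps.2 (h6 x hx' h3)⟩
  · obtain ⟨-, j, hj⟩ := (hm U).1 hU
    exact (hA.lt _ _).2 (hh U j hj).1
  · intro U hU U' hU' e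
    obtain ⟨-, j, hj⟩ := (hm U).1 hU
    obtain ⟨-, j', hj'⟩ := (hm U').1 hU'
    rw [← (hh U j hj).2, ← (hh U' j' hj').2, e]

theorem cts (hA : Ax M ev) {r : ZFSet → ZFSet → Prop} {R : Fn M K K → Fn M K K → Prop}
    (hr : ∀ f x, r f x → ∃ f' x', f = cd M f' ∧ x = cd M x' ∧ R f' x')
    (hR : ∀ f x, R f x → ∀ β : K, ∃ γ : K, ∀ g y, R g y → (∀ a < γ, f.ap a = g.ap a) →
      ∀ a < β, x.ap a = y.ap a) : Cts (un M K) r := by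
  intro f x h β hβ
  obtain ⟨f, x, rfl, rfl, h1⟩ := hr f x h
  obtain ⟨β, rfl⟩ := mem_un.1 hβ
  obtain ⟨γ, hγ⟩ := hR f x h1 β
  refine ⟨_, mem_un.2 ⟨γ, rfl⟩, fun g y h' e => ?_⟩
  obtain ⟨g, y, rfl, rfl, h2⟩ := hr g y h'
  exact (agree_iff hA).2 (hγ g y h2 ((agree_iff hA).1 e))

theorem copy (hA : Ax M ev) {A : ZFSet} {C : PS M (Fn M K K × Fn M K K)}
    (hC : ∀ x, x ∈ A ↔ ∃ u v, (u, v) ∈ C ∧ x = cd M u) {φ : Fn M K K → Fn M K K} (dφ : DfF M φ)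
    (h1 : ∀ f, ∃ y, (φ f, y) ∈ C)
    (h2 : ∀ f (β : K), ∃ γ : K, ∀ g : Fn M K K, (∀ a < γ, f.ap a = g.ap a) →
      ∀ a < β, (φ f).ap a = (φ g).ap a)
    (h3 : ∀ f (β : K), ∃ γ : K, ∀ g : Fn M K K, (∀ a < γ, (φ f).ap a = (φ g).ap a) →
      ∀ a < β, f.ap a = g.ap a)
    (h4 : ∀ x y, (x, y) ∈ C → (∀ β : K, ∃ g, ∀ a < β, x.ap a = (φ g).ap a) → ∃ f, φ f = x) :
    ClosedCopy M (un M K) A := by
  have hinj : ∀ f g, φ f = φ g → f = g := fun f g e => Fn.ext fun a => by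
    obtain ⟨β, hβ⟩ := hA.nomax a
    obtain ⟨γ, hγ⟩ := h3 f β
    exact hγ g (fun _ _ => by rw [e]) a hβ
  have hD : ∀ x, x ∈ cd M (PS.of M fun x : Fn M K K => ∃ f, φ f = x) ↔ ∃ f, x = cd M (φ f) := by
    intro x
    rw [mem_cd_ps]
    constructor
    · rintro ⟨y, hy, rfl⟩
      obtain ⟨f, rfl⟩ := (PS.mem_of (P := fun x : Fn M K K => ∃ f, φ f = x) (by fun_prop)).1 hy
      exact ⟨f, rfl⟩
    · rintro ⟨f, rfl⟩
      exact ⟨_, (PS.mem_of (P := fun x : Fn M K K => ∃ f, φ f = x) (by fun_prop)).2 ⟨f, rfl⟩, rfl⟩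
  have hG : ∀ z, z ∈ cd M (⟨φ, dφ⟩ : Fn M (Fn M K K) (Fn M K K)) ↔
      ∃ f, z = pair (cd M f) (cd M (φ f)) := fun z => mem_cd_fn
  have hG' : ∀ f x, pair f x ∈ cd M (⟨φ, dφ⟩ : Fn M (Fn M K K) (Fn M K K)) ↔
      ∃ g, f = cd M g ∧ x = cd M (φ g) := fun f x => by
    simp only [hG, pair_inj]
  refine ⟨_, cd_mem (PS.of M fun x : Fn M K K => ∃ f, φ f = x), fun x hx => ?_, fun x hx h => ?_,
    _, cd_mem (⟨φ, dφ⟩ : Fn M (Fn M K K) (Fn M K K)), fun z hz => ?_, fun f hf => ?_,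
    fun x hx => ?_, cts hA (R := fun f x => φ f = x) (fun f x h => ?_) ?_,
    cts hA (R := fun x f => φ f = x) (fun x f h => ?_) ?_⟩
  · obtain ⟨f, rfl⟩ := (hD x).1 hx
    obtain ⟨y, hy⟩ := h1 f
    exact (hC _).2 ⟨_, y, hy, rfl⟩
  · obtain ⟨u, v, huv, rfl⟩ := (hC x).1 hx
    obtain ⟨f, rfl⟩ := h4 u v huv fun β => by
      obtain ⟨y, hy, e⟩ := h _ (mem_un.2 ⟨β, rfl⟩)
      obtain ⟨g, rfl⟩ := (hD y).1 hy
      exact ⟨g, (agree_iff hA).1 e⟩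
    exact (hD _).2 ⟨f, rfl⟩
  · obtain ⟨f, rfl⟩ := (hG z).1 hz
    exact ⟨_, _, pt_iff.2 ⟨f, rfl⟩, (hD _).2 ⟨f, rfl⟩, rfl⟩
  · obtain ⟨f, rfl⟩ := pt_iff.1 hf
    refine ⟨_, (hG' _ _).2 ⟨f, rfl, rfl⟩, fun x hx => ?_⟩
    obtain ⟨g, e, rfl⟩ := (hG' _ _).1 hx
    rw [cd_inj.1 e]
  · obtain ⟨f, rfl⟩ := (hD x).1 hx
    refine ⟨_, (hG' _ _).2 ⟨f, rfl, rfl⟩, fun y hy => ?_⟩
    obtain ⟨g, rfl, e⟩ := (hG' _ _).1 hy
    rw [hinj f g (cd_inj.1 e)]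
  · obtain ⟨g, rfl, rfl⟩ := (hG' _ _).1 h
    exact ⟨g, _, rfl, rfl, rfl⟩
  · rintro f _ rfl β
    obtain ⟨γ, hγ⟩ := h2 f β
    refine ⟨γ, ?_⟩
    rintro g _ rfl
    exact hγ g
  · obtain ⟨g, rfl, rfl⟩ := (hG' _ _).1 h
    exact ⟨_, g, rfl, rfl, rfl⟩
  · rintro _ f rfl β
    obtain ⟨γ, hγ⟩ := h3 f β
    refine ⟨γ, ?_⟩
    rintro _ g rfl
    exact hγ g

end Dich

open Dich in
theorem dich (h1 : CLU) (h2 : HUR) : DICH := by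
  intro M _ K _ _ _ _ ev hA A _ ⟨C, hCM, c1, c2, c3⟩
  have dlt := df_lt hA
  have dle := df_le hA
  have dev := hA.dev
  obtain ⟨C, rfl⟩ := exists_ps (X := Fn M K K × Fn M K K) hCM fun z hz => by
    obtain ⟨x, y, hx, hy, rfl⟩ := c1 z hz
    obtain ⟨x, rfl⟩ := pt_iff.1 hx
    obtain ⟨y, rfl⟩ := pt_iff.1 hy
    exact ⟨(x, y), rfl⟩
  have hC : ∀ x, x ∈ A ↔ ∃ u v, (u, v) ∈ C ∧ x = cd M u := fun x => by
    rw [c3]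
    constructor
    · rintro ⟨y, hy⟩
      obtain ⟨p, hp, e⟩ := mem_cd_ps.1 hy
      exact ⟨p.1, p.2, hp, (pair_inj.1 e).1⟩
    · rintro ⟨u, v, h, rfl⟩
      exact ⟨cd M v, (cd_mem_cd_ps (x := (u, v))).2 h⟩
  have hcl : ∀ x y, (∀ β : K, ∃ u v, (u, v) ∈ C ∧ ∀ a < β, x.ap a = u.ap a ∧ y.ap a = v.ap a) →
      (x, y) ∈ C := fun x y h => by
    refine (cd_mem_cd_ps (x := (x, y))).1
      (c2 (cd M x) (cd M y) (pt_iff.2 ⟨x, rfl⟩) (pt_iff.2 ⟨y, rfl⟩) fun β hβ => ?_)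
    obtain ⟨β, rfl⟩ := mem_un.1 hβ
    obtain ⟨u, v, h3, h4⟩ := h β
    exact ⟨cd M u, cd M v, (cd_mem_cd_ps (x := (u, v))).2 h3,
      (agree_iff hA).2 fun a ha => (h4 a ha).1, (agree_iff hA).2 fun a ha => (h4 a ha).2⟩
  obtain ⟨B, hB⟩ : ∃ B : PS M (PS M (K × K)), ∀ z, z ∈ B ↔
      ∃ x y, (x, y) ∈ C ∧ ∀ e, e ∈ z ↔ gr x e :=
    ⟨_, fun z => PS.mem_of (by simp only [gr, all_iff]; fun_prop)⟩
  obtain ⟨Sl, s1, s2⟩ := hA.dich C B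
  have dP : DfF M fun p : K × Fn M K K => (∃ y, (p.2, y) ∈ C) ∧
      ¬ ∃ β' j, p.1 ≤ β' ∧ (β', j) ∈ Sl ∧ Ag β' (gr p.2) (ev j) := by
    simp only [Ag, gr, all_iff, imp_iff]; fun_prop
  obtain ⟨F, dF, hF⟩ : ∃ F : K → PS M (Fn M K K), DfF M F ∧ ∀ b x, x ∈ F b ↔ (∃ y, (x, y) ∈ C) ∧
      ¬ ∃ β' j, b ≤ β' ∧ (β', j) ∈ Sl ∧ Ag β' (gr x) (ev j) :=
    ⟨_, DfF.psOf dP, fun b x => PS.mem_of (dP.comp ((DfF.const b).mk DfF.id))⟩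
  by_cases hall : ∀ x y, (x, y) ∈ C → ∃ b, x ∈ F b
  · left
    have : Nonempty K := ⟨hA.lim.choose⟩
    obtain ⟨h, dh, hh⟩ := exists_choice' (M := M)
      (R := fun (U : PS M (Fn M K K)) (b : K) => F b = U) (by fun_prop)
    obtain ⟨R, hR⟩ : ∃ R : PS M (PS M (Fn M K K)), ∀ U, U ∈ R ↔ ∃ b, F b = U :=
      ⟨_, fun U => PS.mem_of (by fun_prop)⟩
    refine ⟨_, cd_mem R, fun U hU => ?_, inj_of R dh (fun U _ => mem_un.2 ⟨_, rfl⟩) ?_, ?_⟩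
    · obtain ⟨U, hU', rfl⟩ := mem_cd_ps.1 hU
      obtain ⟨b, rfl⟩ := (hR U).1 hU'
      refine cpt h1 hA _ fun z hz => ?_
      have key : ¬ ∃ β' j, b ≤ β' ∧ (β', j) ∈ Sl ∧ Ag β' (fun e => e ∈ z) (ev j) := by
        rintro ⟨β', j, h3, h4, h5⟩
        obtain ⟨x, hx, h6⟩ := hz β'
        exact ((hF b x).1 hx).2 ⟨β', j, h3, h4, ag_trans (ag_symm h6) h5⟩
      obtain ⟨x, y, h3, h4⟩ := (hB z).1 (by_contra fun hn => key (s1 z hn b))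
      refine ⟨x, (hF b x).2 ⟨⟨y, h3⟩, ?_⟩, h4⟩
      rintro ⟨β', j, h5, h6, h7⟩
      exact key ⟨β', j, h5, h6, fun a ha a' ha' => (h4 _).trans (h7 a ha a' ha')⟩
    · intro U hU U' hU' e
      obtain ⟨b, hb⟩ := (hR U).1 hU
      obtain ⟨b', hb'⟩ := (hR U').1 hU'
      rw [← hh U b hb, ← hh U' b' hb', e]
    · ext x
      rw [hC, mem_sUnion]
      constructor
      · rintro ⟨u, v, h3, rfl⟩
        obtain ⟨b, hb⟩ := hall u v h3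
        exact ⟨_, cd_mem_cd_ps.2 ((hR _).2 ⟨b, rfl⟩), cd_mem_cd_ps.2 hb⟩
      · rintro ⟨U, hU, hx⟩
        obtain ⟨U, hU', rfl⟩ := mem_cd_ps.1 hU
        obtain ⟨b, rfl⟩ := (hR U).1 hU'
        obtain ⟨u, hu, rfl⟩ := mem_cd_ps.1 hx
        obtain ⟨v, hv⟩ := ((hF b u).1 hu).1
        exact ⟨u, v, hv, rfl⟩
  · right
    push Not at hall
    obtain ⟨x, y, hxy, hn⟩ := hall
    obtain ⟨Q, _, _, le, D, hQ⟩ := s2 x y hxy fun β =>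
      by_contra fun h => hn β ((hF β x).2 ⟨⟨y, hxy⟩, h⟩)
    obtain ⟨φ, dφ, p1, p2, p3, p4⟩ := h2 M K ev hA C B Q le D hQ hcl
      fun x y z h e => (hB z).2 ⟨x, y, h, e⟩
    exact copy hA hC dφ p1 p2 p3 p4

end Pool.Agent.MP_d6f492_lc
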