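import Pool.Agent.MP_d6f492_lc.Quot

/-! The forcing provides what the passage to the extension needs. -/

namespace Pool.Agent.MP_d6f492_lc

open Cardinal Set Function Bit Dat

variable {O : Type} [LinearOrder O] [Dat O] [WellFoundedLT O] {κ : O}

abbrev PP (κ : O) := {p : Cd O // V (th κ) p}

def leP (x y : PP κ) : Prop := le x.1 y.1

def dn (Z : O × O → Cd O → Prop) (e : Iio κ × Iio κ) (x : PP κ) : Prop := Z (e.1, e.2) x.1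

def up (Z : Iio κ × Iio κ → PP κ → Prop) (e : O × O) (x : Cd O) : Prop :=
  ∃ h1 h2 h3, Z (⟨e.1, h1⟩, ⟨e.2, h2⟩) ⟨x, h3⟩

omit [WellFoundedLT O] in
theorem dn_up (Z : Iio κ × Iio κ → PP κ → Prop) : dn (up Z) = Z :=
  funext fun e => funext fun x => propext ⟨fun ⟨_, _, _, h⟩ => h, fun h => ⟨e.1.2, e.2.2, x.2, h⟩⟩

theorem mo_up {Z : Iio κ × Iio κ → PP κ → Prop} (h : Mo leP Z) : Mo (Ld (th κ)) (up Z) :=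
  fun _ p q h1 ⟨h2, h3, h4, h5⟩ => ⟨h2, h3, h1.1, h _ ⟨p, h4⟩ ⟨q, h1.1⟩ h1.2 h5⟩

theorem mo_dn {Z : O × O → Cd O → Prop} (h : Mo (Ld (th κ)) Z) : Mo leP (dn (κ := κ) Z) :=
  fun _ _ q h1 h2 => h _ _ _ ⟨q.2, h1⟩ h2

theorem eqv_dn {Z W : O × O → Cd O → Prop} {β : Iio κ} {y : PP κ} :
    Eqv leP β (dn Z) (dn W) y ↔ Eqv (Ld (th κ)) β.1 Z W y.1 :=
  ⟨fun h a ha b hb u hu => (h ⟨a, ha.trans β.2⟩ ha ⟨b, hb.trans β.2⟩ hb ⟨u, hu.1⟩ hu.2).imp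
    (fun h h1 => let ⟨v, h2, h3⟩ := h h1; ⟨v.1, ⟨v.2, h2⟩, h3⟩)
    fun h h1 => let ⟨v, h2, h3⟩ := h h1; ⟨v.1, ⟨v.2, h2⟩, h3⟩,
  fun h a ha b hb u hu => (h a ha b hb u ⟨u.2, hu⟩).imp
    (fun h h1 => let ⟨v, h2, h3⟩ := h h1; ⟨⟨v, h2.1⟩, h2.2, h3⟩)
    fun h h1 => let ⟨v, h2, h3⟩ := h h1; ⟨⟨v, h2.1⟩, h2.2, h3⟩⟩

theorem eqv_up {Z : Iio κ × Iio κ → PP κ → Prop} {W : O × O → Cd O → Prop} {β : Iio κ}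
    {y : PP κ} : Eqv leP β Z (dn W) y ↔ Eqv (Ld (th κ)) β.1 (up Z) W y.1 := by
  rw [← eqv_dn, dn_up]

theorem gd [OrderBot O] (hκ : Lev κ) (hT : Tree κ) :
    Gd (K := Iio κ) leP fun j => dn (Ev le j.1) where
  nomax a := let ⟨b, h1, h2⟩ := hκ.reg.succ a.2; ⟨⟨b, h1⟩, h2⟩
  lim := ⟨⟨th ⊥, hκ.th _ hκ.reg.bot⟩, ⟨⟨⊥, hκ.reg.bot⟩, lt_th ⊥⟩, fun a ha =>
    let ⟨c, h1, h2⟩ := (th_mh ⊥).reg.succ ha; ⟨⟨c, h1.trans (hκ.th _ hκ.reg.bot)⟩, h2, h1⟩⟩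
  mono j := mo_dn (ev_mo _ _)
  small β := by
    have h0 := hκ.g0 _ (hκ.g0 _ (hκ.th _ β.2))
    refine ⟨⟨_, h0⟩, fun Z hZ p => ?_⟩
    obtain ⟨q, h1, j, h2, h3⟩ := small_name (mo_up hZ) (th_mono β.2.le) p.2
    exact ⟨⟨q, h1.1⟩, h1.2, ⟨j, h2.trans h0⟩, h2, eqv_up.2 h3⟩
  reg β H p hH h := by
    obtain ⟨q, h1, c, h2, b, h3, h4⟩ := tailb hκ (J := Iio β.1) (hκ.reg.iio β.2)
      (fun a b m => up H (a.1, b) m) p.2 fun a y hy => by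
        obtain ⟨u, k1, b, k2⟩ := h ⟨a.1, a.2.trans β.2⟩ a.2 ⟨y, hy.1⟩ hy.2
        exact ⟨u.1, ⟨u.2, k1⟩, b.1, b.2, _, _, _, k2⟩
    refine ⟨⟨q, h1.1⟩, h1.2, ⟨b, h3⟩, fun a ha y hy => ?_⟩
    obtain ⟨m, b', k1, k2, ⟨_, k3, _, k4⟩, k5, k6⟩ := h4 ⟨a.1, ha⟩ y.1 ⟨y.2, hy⟩
    have k7 := Tst.am ⟨k2.1.1, k5⟩ y.2 (h2.trans (lt_th κ)).le
    exact ⟨⟨_, k7.1⟩, k7.2, ⟨b', k3⟩, k1, hH _ ⟨m, k2.1⟩ _ (k6 _ (Le_am c m _) (k7.2.trans hy)) k4⟩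
  tree T p h1 h2 h3 := by
    obtain ⟨q, k1, Z, k2, k3⟩ := hT (up T) p.1 (mo_up h1) p.2 (fun β hβ y hy => by
      obtain ⟨u, k1, j, k2⟩ := h2 ⟨β, hβ⟩ ⟨y, hy.1⟩ hy.2
      exact ⟨u.1, ⟨u.2, k1⟩, j.1, j.2, _, _, _, k2⟩) fun β hβ β' h4 j hj j' hj' y hy ⟨_, _, _, h5⟩ h6 => by
      obtain ⟨u, k1, k2⟩ := h3 ⟨β, hβ⟩ ⟨β', h4.trans_lt hβ⟩ ⟨j, hj⟩ ⟨j', hj'⟩ ⟨y, hy.1⟩ h4 hy.2 h5
        (eqv_dn.2 h6)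
      exact ⟨u.1, ⟨u.2, k1⟩, _, _, _, k2⟩
    refine ⟨⟨q, k1.1⟩, k1.2, dn Z, mo_dn k2, fun β j y hy h => ?_⟩
    obtain ⟨u, k4, _, _, _, k5⟩ := k3 β.1 β.2 j.1 j.2 y.1 ⟨y.2, hy⟩ (eqv_dn.1 h)
    exact ⟨⟨u, k4.1⟩, k4.2, k5⟩
  dich Out X hX hO := by
    obtain ⟨c, i, h1, h2, h3, h4, h5⟩ := quot hκ (fun Z y => ∃ h, Out (dn Z) ⟨y, h⟩)
      (fun Z x y h ⟨h', h''⟩ => ⟨h.1, hO _ ⟨y, h'⟩ _ h.2 h''⟩)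
      (hκ.reg.prod_le le_rfl (hκ.reg.prod_le le_rfl le_rfl)) (fun t y => ∃ h, X t ⟨y, h⟩)
      fun t y x h ⟨h', h''⟩ => ⟨h.1, hX _ ⟨y, h'⟩ _ h.2 h''⟩
    refine ⟨dn fun e => Slot (th κ) i e.1 e.2, fun y k => ⟨am c y.1 k.1, k.2.am y.2.1 h2⟩,
      fun _ _ _ h h' => h'.mono h, fun p => Subtype.ext (Set.ext fun b => ?_),
      fun m y k => Subtype.ext (Set.ext fun b => ?_),
      fun m y k h => ((h.at c).trans (Le_am c _ _)).am_le,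
      fun m y k h => le_of_all fun e => (Le.refl c _).meet ((le.trans h (am_le_hi c _ _)).at e),
      fun g g' k h => le_of_all fun e => ((Le_am c _ _).trans (h.at c)).meet ((am_le_hi c _ _).at e),
      fun j e y k => ⟨fun h => Ev.of_Le h (Le_am' c _ _) hκ.g0 j.2 h1,
        fun h => Ev.of_Le h (Le_am c _ _) hκ.g0 j.2 h1⟩, fun t y h => ?_, fun Z y hZ h β => ?_,
      fun W p _ H y k h => ?_, fun β F p hF k1 k2 => ?_⟩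
    · rcases lt_or_ge b.co c with h | h
      exacts [mem_am_lt h, mem_am_ge h]
    · rcases lt_or_ge b.co c with h | h
      exacts [(mem_am_lt h).trans ((mem_am_lt h).trans (mem_am_lt h).symm),
        (mem_am_ge h).trans (mem_am_ge h).symm]
    · obtain ⟨m, k1, k2⟩ := h3 t y.1 y.2 ⟨y.2, h⟩
      exact ⟨⟨m, k1.1⟩, k1.2, fun k => (k2 k.1 k.2).2⟩
    · obtain ⟨u, k1, β', k2, j, k3, k4, k5, k6⟩ := h4 (up Z) y.1 (mo_up hZ) y.2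
        ⟨y.2, (dn_up Z).symm ▸ h⟩ β.1 β.2
      exact ⟨⟨u, k1.1⟩, k1.2, ⟨β', k2⟩, ⟨j, k3⟩, k4, k5, eqv_up.2 k6⟩
    · obtain ⟨u, k1, Z, k2, ⟨_, k3⟩, k4⟩ := h5 (up W) p.1 (fun β hβ y hy => by
        obtain ⟨u, k1, β', j, k2, k3, k4⟩ := H ⟨β, hβ⟩ ⟨y, hy.1⟩ hy.2
        exact ⟨u.1, ⟨u.2, k1⟩, β'.1, β'.2, j.1, j.2, k2, k3, eqv_up.1 k4⟩) y.1 k.1 y.2 k.2 h
      refine ⟨⟨u, k1.1⟩, k1.2, dn Z, mo_dn k2, k3, fun β j v k5 k6 => ?_⟩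
      obtain ⟨m, k7, k8⟩ := k4 β.1 β.2 j.1 j.2 v.1 ⟨v.2, k5⟩ (eqv_dn.1 k6)
      exact ⟨⟨m, k7.1⟩, k7.2, eqv_up.2 k8⟩
    · obtain ⟨q, k3, l, k4, k5⟩ := lower hκ h1 h2 β.2
        (F := fun u k y => ∃ h h' h'', F (⟨u, h⟩, ⟨k, h'⟩) ⟨y, h''⟩)
        (fun u k x y h ⟨m1, m2, m3, m4⟩ => ⟨m1, m2, h.1, hF _ ⟨y, m3⟩ _ h.2 m4⟩)
        (fun u k y ⟨_, m2, _⟩ => m2) p.2
        (fun u k k' y h ⟨m1, m2, m3, m4⟩ ⟨_, m5, _, m6⟩ =>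
          congrArg Subtype.val (k1 ⟨u, m1⟩ ⟨k, m2⟩ ⟨k', m5⟩ ⟨y, m3⟩ h.2 m4 m6))
        fun u hu v hv y hy => by
          obtain ⟨m, m1, w, m2, k, k', k'', m3, m4, m5, m6⟩ := k2 ⟨u, hu.trans β.2⟩ hu
            ⟨v, hv.trans β.2⟩ hv ⟨y, hy.1⟩ hy.2
          exact ⟨m.1, ⟨m.2, m1⟩, w.1, m2, k.1, k'.1, k''.1, ⟨_, _, _, m3⟩, ⟨_, _, _, m4⟩,
            ⟨_, _, _, m5⟩, m6⟩
      refine ⟨⟨q, k3.1⟩, k3.2, ⟨l, k4⟩, fun a ha k y hy h => ?_⟩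
      obtain ⟨x, k6, k7⟩ := k5 a.1 ha k.1 y.1 ⟨y.2, hy⟩ ⟨_, _, _, h⟩
      exact ⟨⟨x, k6.1⟩, k6.2, k7⟩

theorem ground : GROUND := by
  rintro δ ⟨h1, h2⟩
  have : Big δ.ord.ToType := ⟨by rwa [mk_ord_toType], fun a => by
    rw [mk_ord_toType]; exact mk_Iio_toType_ord_lt a, h2⟩
  have : Nonempty δ.ord.ToType := mk_ne_zero_iff.1 (by rw [mk_ord_toType]; exact h1.ne_zero)
  let _ := WellFoundedLT.toOrderBot δ.ord.ToType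
  obtain ⟨_⟩ := exists_dat (O := δ.ord.ToType)
  obtain ⟨κ, h3, h4⟩ := exists_tree (O := δ.ord.ToType)
  exact ⟨Iio κ, PP κ, inferInstance, inferInstance, leP, ⟨fun _ => le.refl _, le.trans⟩,
    ⟨∅, V.empty _⟩, _, fun _ => le_empty _, gd h3 h4⟩

end Pool.Agent.MP_d6f492_lc
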