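import Pool.Agent.MP_d6f492_lc.Spec

/-! The Hurewicz scheme inside the extension. -/

namespace Pool.Agent.MP_d6f492_lc

open ZFSet Pool.Agent.ZF92
open scoped Classical

namespace Hur

variable {M : Set ZFSet.{0}} [Fact (ZFC M)] {K : Type} [Srt M K] [Sm M K] [LinearOrder K]
  [WellFoundedLT K] {ev : K → K × K → Prop}

omit [WellFoundedLT K] in
theorem dlt (h : Ax M ev) : DfF M fun p : K × K => p.1 < p.2 :=
  (DfF.cd_mem_cd (DfF.fst DfF.id) (DfF.snd DfF.id)).congr fun p => (h.lt p.1 p.2).symm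

theorem wo (h : Ax M ev) : MWO M fun a b : K => a < b :=
  ⟨dlt h, lt_irrefl, fun _ _ _ => lt_trans, lt_trichotomy, fun P _ hP =>
    wellFounded_lt.has_min {x | P x} hP⟩

omit [WellFoundedLT K] in
theorem bound (h : Ax M ev) {R : K → K → Prop} (dR : DfF M fun p : K × K => R p.1 p.2) {β : K}
    (e : ∀ a < β, ∃ c, R a c) : ∃ c0, ∀ a < β, ∃ c < c0, R a c := by
  have : Nonempty K := ⟨β⟩
  obtain ⟨f, df, hf⟩ := exists_choice' dR
  obtain ⟨c0, hc⟩ := h.reg β ⟨f, df⟩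
  exact ⟨c0, fun a ha => ⟨f a, hc a ha, (e a ha).elim (hf a)⟩⟩

/-- recursion with a parameter -/
theorem prec (h : Ax M ev) {P Y : Type} [Srt M P] [Sm M P] [Srt M Y] [Sm M Y] (y0 : Y)
    {s : P → K → Fn M K Y → Y} (ds : DfF M fun q : P × K × Fn M K Y => s q.1 q.2.1 q.2.2) :
    ∃ (f : P → K → Y) (G : P → K → Fn M K Y), DfF M (fun q : P × K => f q.1 q.2) ∧
      DfF M (fun q : P × K => G q.1 q.2) ∧
      (∀ p α z, (G p α).ap z = if z < α then f p z else y0) ∧ ∀ p α, f p α = s p α (G p α) := by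
  have d := dlt h
  have : Nonempty (Fn M P Y) := ⟨⟨fun _ => y0, by fun_prop⟩⟩
  obtain ⟨res, dres, hres⟩ := exists_lam (M := M)
    (f := fun (q : (P × K) × Fn M K (Fn M P Y)) (z : K) =>
      if z < q.1.2 then (q.2.ap z).ap q.1.1 else y0) (by fun_prop)
  obtain ⟨F, dF, hF⟩ := (wo h).exists_rec
    (R := fun α (F : Fn M K (Fn M P Y)) (y : Fn M P Y) => ∀ p, y.ap p = s p α (res ((p, α), F)))
    (by simp only [all_iff]; fun_prop)
    fun α F => ⟨⟨fun p => s p α (res ((p, α), F)), by fun_prop⟩, fun _ => rfl⟩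
  refine ⟨fun p α => (F α).ap p, fun p α => res ((p, α), ⟨F, dF⟩), by fun_prop, by fun_prop,
    fun p α z => hres _ _, fun p α => ?_⟩
  obtain ⟨F', e, k⟩ := hF α
  refine (k p).trans (congrArg (s p α) (Fn.ext fun z => ?_))
  rw [hres, hres]
  split_ifs with hz
  · rw [e z hz]; rfl
  · rfl

variable {C : PS M (Fn M K K × Fn M K K)} {B : PS M (PS M (K × K))} {Q : Type} [Srt M Q] [Sm M Q]
  {le : Q → Q → Prop} {D : Q → K → Fn M K K → Fn M K K → Prop}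

omit [WellFoundedLT K] in
theorem dD (hq : QS C B le D) :
    DfF M fun p : Q × K × Fn M K K × Fn M K K => D p.1 p.2.1 p.2.2.1 p.2.2.2 :=
  hq.dD.comp (g := fun p : Q × K × Fn M K K × Fn M K K => ((p.1, p.2.1), p.2.2)) (by fun_prop)

theorem tower (h : Ax M ev) (hq : QS C B le D)
    (hC : ∀ x y, (∀ β : K, ∃ u v, (u, v) ∈ C ∧ ∀ a < β, x.ap a = u.ap a ∧ y.ap a = v.ap a) →
      (x, y) ∈ C) (q0 : Q) {ch : Q → K → K → Q × K}
    (dch : DfF M fun p : Q × K × K => ch p.1 p.2.1 p.2.2)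
    (hch : ∀ q α a, le (ch q α a).1 q ∧ α < (ch q α a).2 ∧
      ∃ x y, (x, y) ∈ C ∧ D (ch q α a).1 (ch q α a).2 x y) :
    ∃ (r : Fn M K K → K → Q) (φ ψ : Fn M K K → Fn M K K), DfF M φ ∧
      (∀ f g α, (∀ a < α, f.ap a = g.ap a) → r f α = r g α) ∧ (∀ f α, le (r f α) q0) ∧
      ∀ f, (φ f, ψ f) ∈ C ∧
        ∀ α, D (ch (r f α) α (f.ap α)).1 (ch (r f α) α (f.ap α)).2 (φ f) (ψ f) := by
  have d1 := hq.dle
  have d2 := dD hq
  have := hq.ne
  obtain ⟨lb, dlb, hlb⟩ := exists_choice' (M := M)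
    (R := fun (G : Fn M K Q) q => ∀ z, le q (G.ap z)) (by simp only [all_iff]; fun_prop)
  obtain ⟨t, G, dt, dG, hG, ht⟩ := prec h q0
    (s := fun (f : Fn M K K) α G => (ch (lb G) α (f.ap α)).1) (by fun_prop)
  have hr : ∀ f α z, le (lb (G f α)) ((G f α).ap z) := by
    intro f α
    induction α using WellFoundedLT.induction with
    | ind α ih =>
    have k1 : ∀ a < α, ∀ z, le (t f a) ((G f a).ap z) := fun a ha z =>
      hq.trans _ _ _ (ht f a ▸ (hch _ _ _).1) (ih a ha z)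
    by_cases h0 : ∃ a, a < α
    · obtain ⟨q, hq'⟩ := hq.closed α (G f α) fun a a' h1 h2 => by
        have := k1 a' h2 a
        rwa [hG, if_pos h1, ← if_pos (t := t f a) (e := q0) (h1.trans h2), ← hG,
          ← if_pos (t := t f a') (e := q0) h2, ← hG] at this
      refine hlb _ q fun z => ?_
      by_cases hz : z < α
      · exact hq' z hz
      · obtain ⟨a, ha⟩ := h0
        have k2 := k1 a ha a
        have k3 := hq' a ha
        rw [hG, if_neg (lt_irrefl a)] at k2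
        rw [hG, if_pos ha] at k3
        rw [hG, if_neg hz]
        exact hq.trans _ _ _ k3 k2
    · refine hlb _ q0 fun z => ?_
      rw [hG, if_neg fun k => h0 ⟨z, k⟩]
      exact hq.refl _
  have hdec : ∀ f a α, a < α → le (t f α) (t f a) := fun f a α ha => by
    have := hr f α a
    rw [hG, if_pos ha] at this
    exact hq.trans _ _ _ (ht f α ▸ (hch _ _ _).1) this
  have : Nonempty (Fn M K K × Fn M K K) := ⟨⟨fun a => a, DfF.id⟩, ⟨fun a => a, DfF.id⟩⟩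
  obtain ⟨w, dw, hw⟩ := exists_choice' (M := M)
    (R := fun (n : Q × K) (p : Fn M K K × Fn M K K) => (p.1, p.2) ∈ C ∧ D n.1 n.2 p.1 p.2)
    (by fun_prop)
  let n : Fn M K K → K → Q × K := fun f α => ch (lb (G f α)) α (f.ap α)
  have hn : ∀ f α, ((w (n f α)).1, (w (n f α)).2) ∈ C ∧
      D (n f α).1 (n f α).2 (w (n f α)).1 (w (n f α)).2 := fun f α =>
    let ⟨x, y, k⟩ := (hch (lb (G f α)) α (f.ap α)).2.2
    hw _ (x, y) k
  obtain ⟨φ, dφ, hφ⟩ := exists_lam (M := M) (f := fun f a => (w (n f a)).1.ap a)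
    (by simp only [n]; fun_prop)
  obtain ⟨ψ, -, hψ⟩ := exists_lam (M := M) (f := fun f a => (w (n f a)).2.ap a)
    (by simp only [n]; fun_prop)
  have hag : ∀ f α, ∀ a < (n f α).2,
      (w (n f α)).1.ap a = (φ f).ap a ∧ (w (n f α)).2.ap a = (ψ f).ap a := by
    intro f α a ha
    rw [hφ, hψ]
    have k : a < (n f a).2 := (hch _ _ _).2.1
    have e : ∀ α, (n f α).1 = t f α := fun α => (ht f α).symm
    rcases lt_trichotomy a α with h1 | rfl | h1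
    · exact hq.coh _ _ _ _ _ _ _ _ (hn f α).2
        (hq.mono _ _ _ _ _ (by rw [e, e]; exact hdec f a α h1) (hn f a).2) ha k
    · exact ⟨rfl, rfl⟩
    · exact hq.coh _ _ _ _ _ _ _ _
        (hq.mono _ _ _ _ _ (by rw [e, e]; exact hdec f α a h1) (hn f α).2) (hn f a).2 ha k
  refine ⟨fun f α => lb (G f α), φ, ψ, dφ, fun f g α => ?_, fun f α => ?_, fun f =>
    ⟨hC _ _ fun β => ⟨_, _, (hn f β).1, fun a ha => ?_⟩, fun α =>
      hq.congr _ _ _ _ _ _ (hn f α).2 (hag f α)⟩⟩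
  · induction α using WellFoundedLT.induction with
    | ind α ih =>
    intro e
    refine congrArg lb (Fn.ext fun z => ?_)
    rw [hG, hG]
    split_ifs with hz
    · have : lb (G f z) = lb (G g z) := ih z hz fun a ha => e a (ha.trans hz)
      rw [ht, ht, e z hz, this]
    · rfl
  · have := hr f α α
    rwa [hG, if_neg (lt_irrefl α)] at this
  · have := hag f β a (ha.trans (hch _ _ _).2.1)
    exact ⟨this.1.symm, this.2.symm⟩

theorem split (h : Ax M ev) (hq : QS C B le D)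
    (hC : ∀ x y, (∀ β : K, ∃ u v, (u, v) ∈ C ∧ ∀ a < β, x.ap a = u.ap a ∧ y.ap a = v.ap a) →
      (x, y) ∈ C) (hB : ∀ x y z, (x, y) ∈ C → (∀ e, e ∈ z ↔ gr x e) → z ∈ B) (q0 : Q) (β : K)
    {z : PS M (K × K)} (hz : z ∉ B) : ∃ q m x y, le q q0 ∧ β < m ∧ (x, y) ∈ C ∧ D q m x y ∧
      ¬ Ag m (fun e => e ∈ z) (gr x) := by
  have d0 := dlt h
  have d1 := hq.dle
  have d2 := dD hq
  obtain ⟨c, dc, hc⟩ := exists_choice (M := M)
    (R := fun (p : Q × K) (n : Q × K) => le n.1 p.1 ∧ p.2 < n.2 ∧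
      ∃ x y, (x, y) ∈ C ∧ D n.1 n.2 x y) (by fun_prop) fun p => by
      obtain ⟨m, hm⟩ := h.nomax p.2
      obtain ⟨q, k1, k2⟩ := hq.dense p.1 m
      exact ⟨(q, m), k1, hm, k2⟩
  obtain ⟨r, φ, ψ, -, -, h0, k⟩ := tower h hq hC q0 (ch := fun q α _ => c (q, α)) (by fun_prop)
    fun q α _ => hc (q, α)
  let f : Fn M K K := ⟨fun a => a, DfF.id⟩
  obtain ⟨e, he⟩ := not_forall.1 fun k' => hz (hB _ _ z (k f).1 k')
  have k1 := hc (r f (max β (max e.1 e.2)), max β (max e.1 e.2))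
  have k2 := max_lt_iff.1 k1.2.1
  exact ⟨_, _, _, _, hq.trans _ _ _ k1.1 (h0 f _), k2.1, (k f).1, (k f).2 _, fun k' =>
    he (k' _ (max_lt_iff.1 k2.2).1 _ (max_lt_iff.1 k2.2).2)⟩

omit [Fact (ZFC M)] [Sm M K] [WellFoundedLT K] in
theorem ag_congr {m m' : K} {z : K × K → Prop} {x x' : Fn M K K} (k : Ag m z (gr x)) (hm : m' ≤ m)
    (e : ∀ a < m', x.ap a = x'.ap a) : Ag m' z (gr x') := fun a ha b hb => by
  rw [k a (ha.trans_le hm) b (hb.trans_le hm), gr, gr, e a ha]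

theorem children (h : Ax M ev) (hq : QS C B le D)
    (hC : ∀ x y, (∀ β : K, ∃ u v, (u, v) ∈ C ∧ ∀ a < β, x.ap a = u.ap a ∧ y.ap a = v.ap a) →
      (x, y) ∈ C) (hB : ∀ x y z, (x, y) ∈ C → (∀ e, e ∈ z ↔ gr x e) → z ∈ B) :
    ∃ (z : Q → PS M (K × K)) (ch : Q → K → K → Q × K), (∀ q, z q ∉ B) ∧
      DfF M (fun p : Q × K × K => ch p.1 p.2.1 p.2.2) ∧ ∀ q α a,
      (le (ch q α a).1 q ∧ α < (ch q α a).2 ∧
        ∃ x y, (x, y) ∈ C ∧ D (ch q α a).1 (ch q α a).2 x y) ∧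
      ∀ x y, D (ch q α a).1 (ch q α a).2 x y → ¬ Ag (ch q α a).2 (fun e => e ∈ z q) (gr x) ∧
        Ag a (fun e => e ∈ z q) (gr x) ∧ ∀ a' < a, Ag (ch q α a').2 (fun e => e ∈ z q) (gr x) := by
  have d0 := dlt h
  have d1 := hq.dle
  have d2 := dD hq
  obtain ⟨z, dz, hz⟩ := exists_choice (M := M) (R := fun q (z : PS M (K × K)) => z ∉ B ∧
    ∀ β, ∃ q', le q' q ∧ ∃ x y, D q' β x y ∧ Ag β (fun e => e ∈ z) (gr x))
    (by simp only [Ag, gr, all_iff, imp_iff]; fun_prop) hq.out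
  obtain ⟨s, ds, hs⟩ := exists_choice (M := M)
    (R := fun (p : ((Q × K) × K) × Fn M K (Q × K)) (n : Q × K) =>
      (le n.1 p.1.1.1 ∧ p.1.1.2 < n.2 ∧ ∃ x y, (x, y) ∈ C ∧ D n.1 n.2 x y) ∧
      ∀ x y, D n.1 n.2 x y → ¬ Ag n.2 (fun e => e ∈ z p.1.1.1) (gr x) ∧
        Ag p.1.2 (fun e => e ∈ z p.1.1.1) (gr x) ∧
        ∀ a' < p.1.2, Ag (p.2.ap a').2 (fun e => e ∈ z p.1.1.1) (gr x))
    (by simp only [Ag, gr, all_iff, imp_iff]; fun_prop) (by
      rintro ⟨⟨⟨q, α⟩, a⟩, G⟩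
      obtain ⟨b, hb⟩ := h.reg a ⟨fun a' => (G.ap a').2, by fun_prop⟩
      obtain ⟨q1, k1, x0, y0, k2, k3⟩ := (hz q).2 (max a b)
      obtain ⟨q2, m, x, y, l1, l2, l3, l4, l5⟩ := split h hq hC hB q1 (max α (max a b)) (hz q).1
      obtain ⟨l6, l7⟩ := max_lt_iff.1 l2
      refine ⟨(q2, m), ⟨hq.trans _ _ _ l1 k1, l6, x, y, l3, l4⟩, fun x' y' k => ?_⟩
      have k4 : ∀ c < max a b, x0.ap c = x'.ap c := fun c hc =>
        (hq.coh _ _ _ _ _ _ _ _ (hq.mono _ _ _ _ _ l1 k2) k hc (hc.trans l7)).1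
      refine ⟨fun k5 => l5 (ag_congr k5 le_rfl fun c hc =>
        (hq.coh _ _ _ _ _ _ _ _ k l4 hc hc).1), ag_congr k3 (le_max_left _ _) fun c hc =>
          k4 c (lt_max_of_lt_left hc), fun a' ha' => ?_⟩
      have k6 : (G.ap a').2 ≤ max a b := le_max_of_le_right (hb a' ha').le
      exact ag_congr k3 k6 fun c hc => k4 c (hc.trans_le k6))
  obtain ⟨q0⟩ := hq.ne
  obtain ⟨b0, -⟩ := h.lim
  obtain ⟨c, G, dc, -, hG, hc⟩ := prec h (q0, b0)
    (s := fun (p : Q × K) a G => s ((p, a), G)) (by fun_prop)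
  refine ⟨z, fun q α a => c (q, α) a, fun q => (hz q).1, by fun_prop, fun q α a => ?_⟩
  have k := hs (((q, α), a), G (q, α) a)
  rw [← hc] at k
  refine ⟨k.1, fun x y l => ⟨(k.2 x y l).1, (k.2 x y l).2.1, fun a' ha' => ?_⟩⟩
  have := (k.2 x y l).2.2 a' ha'
  rwa [hG, if_pos ha'] at this

end Hur

open Hur in
theorem hur : HUR := by
  intro M _ K _ _ _ _ ev h C B Q _ _ le D hq hC hB
  have d0 := dlt h
  obtain ⟨z, ch, hz, dch, hch⟩ := children h hq hC hB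
  obtain ⟨q0⟩ := hq.ne
  obtain ⟨r, φ, ψ, dφ, hr, -, k⟩ := tower h hq hC q0 dch fun q α a => (hch q α a).1
  have cont : ∀ f (β : K), ∃ γ : K, ∀ g : Fn M K K, (∀ a < γ, f.ap a = g.ap a) →
      ∀ a < β, (φ f).ap a = (φ g).ap a := by
    intro f β
    obtain ⟨γ, hγ⟩ := h.nomax β
    refine ⟨γ, fun g e a ha => ?_⟩
    have k1 := (k g).2 β
    rw [← hr f g β fun a ha => e a (ha.trans hγ), ← e β hγ] at k1
    have k2 := ha.trans (hch (r f β) β (f.ap β)).1.2.1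
    exact (hq.coh _ _ _ _ _ _ _ _ ((k f).2 β) k1 k2 k2).1
  have up : ∀ (x : Fn M K K) (α : K), (∀ a < α, ∃ b : K, ∀ g g' : Fn M K K,
      (∀ c < b, x.ap c = (φ g).ap c) → (∀ c < b, x.ap c = (φ g').ap c) → g.ap a = g'.ap a) →
      ∃ b : K, ∀ g g' : Fn M K K, (∀ c < b, x.ap c = (φ g).ap c) →
        (∀ c < b, x.ap c = (φ g').ap c) → ∀ a < α, g.ap a = g'.ap a := by
    intro x α e
    obtain ⟨b, hb⟩ := bound h (by simp only [all_iff, imp_iff]; fun_prop) e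
    refine ⟨b, fun g g' e1 e2 a ha => ?_⟩
    obtain ⟨b', l1, l2⟩ := hb a ha
    exact l2 g g' (fun c hc => e1 c (hc.trans l1)) fun c hc => e2 c (hc.trans l1)
  have key : ∀ x y, (x, y) ∈ C → ∀ α : K, ∃ b : K, ∀ g g' : Fn M K K,
      (∀ c < b, x.ap c = (φ g).ap c) → (∀ c < b, x.ap c = (φ g').ap c) → g.ap α = g'.ap α := by
    intro x y hx α
    induction α using WellFoundedLT.induction with
    | ind α ih =>
    obtain ⟨b0, hb0⟩ := up x α ih
    by_cases h0 : ∃ g0 : Fn M K K, ∀ c < b0, x.ap c = (φ g0).ap c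
    swap
    · exact ⟨b0, fun g _ e _ => absurd ⟨g, e⟩ h0⟩
    obtain ⟨g0, hg0⟩ := h0
    obtain ⟨e, he⟩ := not_forall.1 fun k' => hz (r g0 α) (hB _ _ _ hx k')
    obtain ⟨b1, hb1⟩ := h.nomax (max e.1 e.2)
    obtain ⟨b2, hb2⟩ := h.reg b1 ⟨fun a => (ch (r g0 α) α a).2, by fun_prop⟩
    have k1 : ∀ g : Fn M K K, (∀ c < max b0 (max b1 b2), x.ap c = (φ g).ap c) →
        ¬ Ag (ch (r g0 α) α (g.ap α)).2 (fun e => e ∈ z (r g0 α)) (gr x) ∧
        ∀ a' < g.ap α, Ag (ch (r g0 α) α a').2 (fun e => e ∈ z (r g0 α)) (gr x) := by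
      intro g e1
      have l1 := (k g).2 α
      rw [← hr g0 g α (hb0 g0 g hg0 fun c hc => e1 c (lt_max_of_lt_left hc))] at l1
      obtain ⟨l2, l3, l4⟩ := (hch _ _ _).2 _ _ l1
      have l5 : g.ap α < b1 := lt_of_not_ge fun l5 => he (by
        have l6 := max_lt_iff.1 hb1
        exact ag_congr l3 l5 (fun c hc => (e1 c
          (lt_max_of_lt_right (lt_max_of_lt_left hc))).symm) _ l6.1 _ l6.2)
      have l6 : ∀ a < b1, ∀ c < (ch (r g0 α) α a).2, x.ap c = (φ g).ap c := fun a ha c hc =>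
        e1 c (lt_max_of_lt_right (lt_max_of_lt_right (hc.trans (hb2 a ha))))
      exact ⟨fun l7 => l2 (ag_congr l7 le_rfl (l6 _ l5)), fun a' ha' =>
        ag_congr (l4 a' ha') le_rfl fun c hc => (l6 _ (ha'.trans l5) c hc).symm⟩
    refine ⟨max b0 (max b1 b2), fun g g' e1 e2 => ?_⟩
    rcases lt_trichotomy (g.ap α) (g'.ap α) with l | l | l
    · exact absurd ((k1 g' e2).2 _ l) (k1 g e1).1
    · exact l
    · exact absurd ((k1 g e1).2 _ l) (k1 g' e2).1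
  refine ⟨φ, dφ, fun f => ⟨_, (k f).1⟩, cont, fun f β => ?_, fun x y hx hg => ?_⟩
  · obtain ⟨b, hb⟩ := up (φ f) β fun a _ => key _ _ (k f).1 a
    exact ⟨b, fun g e => hb f g (fun _ _ => rfl) e⟩
  · obtain ⟨f, df, hf⟩ := exists_choice (M := M) (R := fun (α c : K) => ∃ b : K,
      ∀ g : Fn M K K, (∀ a < b, x.ap a = (φ g).ap a) → g.ap α = c)
      (by simp only [all_iff, imp_iff]; fun_prop) fun α => by
        obtain ⟨b, hb⟩ := key x y hx α
        obtain ⟨g0, hg0⟩ := hg b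
        exact ⟨_, b, fun g e => hb g g0 e hg0⟩
    refine ⟨⟨f, df⟩, Fn.ext fun a => ?_⟩
    obtain ⟨β, hβ⟩ := h.nomax a
    obtain ⟨γ, hγ⟩ := cont ⟨f, df⟩ β
    obtain ⟨b, hb⟩ := bound h (β := γ) (by simp only [all_iff, imp_iff]; fun_prop) fun α _ => hf α
    obtain ⟨g, e⟩ := hg (max b β)
    rw [e a (lt_max_of_lt_right hβ)]
    refine hγ g (fun α hα => ?_) a hβ
    obtain ⟨b', l1, l2⟩ := hb α hα
    exact (l2 g fun c hc => e c (lt_max_of_lt_left (hc.trans l1))).symm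

end Pool.Agent.MP_d6f492_lc
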