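import Pool.Agent.MP_d6f492_lc.Spec

/-! Cluster points and weak compactness inside the extension. -/

namespace Pool.Agent.MP_d6f492_lc

open ZFSet Pool.Agent.ZF92

variable {M : Set ZFSet.{0}} [Fact (ZFC M)] {K : Type} [Srt M K] [Sm M K] [LinearOrder K]
  {ev : K → K × K → Prop}

theorem df_lt (h : Ax M ev) : DfF M fun p : K × K => p.1 < p.2 :=
  (DfF.cd_mem_cd (f := fun p : K × K => p.1) (g := fun p => p.2) (by fun_prop) (by fun_prop)).congr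
    fun _ => (h.lt _ _).symm

theorem df_le (h : Ax M ev) : DfF M fun p : K × K => p.1 ≤ p.2 :=
  ((df_lt h).or (DfF.eq (f := fun p : K × K => p.1) (g := fun p => p.2) (by fun_prop)
    (by fun_prop))).congr fun _ => le_iff_lt_or_eq

theorem mwo [WellFoundedLT K] (h : Ax M ev) : MWO M fun a b : K => a < b :=
  ⟨df_lt h, lt_irrefl, fun _ _ _ => lt_trans, lt_trichotomy, fun P _ hP =>
    let ⟨x, h1, h2⟩ := (wellFounded_lt (α := K)).has_min {x | P x} hP; ⟨x, h1, h2⟩⟩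

theorem ne_K (h : Ax M ev) : Nonempty K := let ⟨b, _⟩ := h.lim; ⟨b⟩

/-- Bounding of definable witnesses. -/
theorem bound (h : Ax M ev) {R : K → K → Prop} (hR : DfF M fun p : K × K => R p.1 p.2) (b : K)
    (H : ∀ a < b, ∃ c, R a c) : ∃ c0, ∀ a < b, ∃ c < c0, R a c := by
  have := ne_K h
  obtain ⟨f, hf, e⟩ := exists_choice' hR
  obtain ⟨c0, hc⟩ := h.reg b ⟨f, hf⟩
  exact ⟨c0, fun a ha => let ⟨c, k⟩ := H a ha; ⟨f a, hc a ha, e a c k⟩⟩

theorem df_Ag (h : Ax M ev) {X : Type} [Srt M X] {b : X → K} {z w : X → K × K → Prop}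
    (hb : DfF M b) (hz : DfF M fun p : X × K × K => z p.1 p.2)
    (hw : DfF M fun p : X × K × K => w p.1 p.2) : DfF M fun x => Ag (b x) (z x) (w x) := by
  have := df_lt h
  simp only [Ag, all_iff, imp_iff]
  fun_prop

theorem Ag.symm {β : K} {z w : K × K → Prop} (h : Ag β z w) : Ag β w z :=
  fun a ha b hb => (h a ha b hb).symm

theorem Ag.trans {β : K} {z w u : K × K → Prop} (h : Ag β z w) (h' : Ag β w u) : Ag β z u :=
  fun a ha b hb => (h a ha b hb).trans (h' a ha b hb)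

theorem Ag.mono {β β' : K} {z w : K × K → Prop} (h : Ag β z w) (e : β' ≤ β) : Ag β' z w :=
  fun a ha b hb => h a (ha.trans_le e) b (hb.trans_le e)

theorem clu : CLU := by
  intro M _ K _ _ _ _ ev h x dx
  have d1 := df_le h
  have d2 := h.dev
  have d3 : DfF M fun p : (K × K) × K => Ag p.1.1 (ev p.1.2) (x p.2) :=
    df_Ag h (by fun_prop) (by fun_prop) (by fun_prop)
  obtain ⟨A, hA⟩ : ∃ A : K × K → K → Prop, ∀ b j s, A (b, j) s ↔ Ag b (ev j) (x s) :=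
    ⟨fun p s => Ag p.1 (ev p.2) (x s), fun _ _ _ => Iff.rfl⟩
  have d4 : DfF M fun p : (K × K) × K => A p.1 p.2 := d3.congr fun _ => hA _ _ _
  have hT : ∀ p : K × K, p ∈ PS.of M (fun p : K × K => ∀ t, ∃ s, t ≤ s ∧ A p s) ↔
      ∀ t, ∃ s, t ≤ s ∧ A p s := fun p =>
    PS.mem_of (by simp only [all_iff]; fun_prop)
  obtain ⟨z, hz⟩ := h.tree (PS.of M fun p : K × K => ∀ t, ∃ s, t ≤ s ∧ A p s)
    (fun β => by
      obtain ⟨β', hβ⟩ := h.small β
      by_contra c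
      obtain ⟨c0, hc⟩ := bound h (R := fun j t => ∀ s, t ≤ s → ¬ A (β, j) s)
        (by simp only [all_iff, imp_iff]; fun_prop) β' fun j _ => by
          by_contra c'
          refine c ⟨j, (hT _).2 fun t => ?_⟩
          by_contra c''
          exact c' ⟨t, fun s hs k => c'' ⟨s, hs, k⟩⟩
      obtain ⟨j, hj, k⟩ := hβ (PS.of M (x c0))
      obtain ⟨t, ht, k'⟩ := hc j hj
      exact k' c0 ht.le ((hA _ _ _).2 fun a ha b hb =>
        (k a ha b hb).symm.trans (PS.mem_of (by fun_prop))))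
    fun β β' j j' e k k' => (hT _).2 fun t =>
      let ⟨s, hs, q⟩ := (hT _).1 k t
      ⟨s, hs, (hA _ _ _).2 (k'.trans (((hA _ _ _).1 q).mono e))⟩
  refine ⟨z, fun β t => ?_⟩
  obtain ⟨β', hβ⟩ := h.small β
  obtain ⟨j, -, k⟩ := hβ z
  obtain ⟨s, hs, q⟩ := (hT _).1 (hz β j k) t
  exact ⟨s, hs, k.trans ((hA _ _ _).1 q)⟩

omit [Fact (ZFC M)] [LinearOrder K] in
theorem cd_mem_un (a : K) : cd M a ∈ un M K := mem_un.2 ⟨a, rfl⟩

omit [LinearOrder K] in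
theorem pair_mem_cd_fn {F : Fn M K K} {u v : ZFSet.{0}} :
    pair u v ∈ cd M F ↔ ∃ a, u = cd M a ∧ v = cd M (F.ap a) := by
  simp only [mem_cd_fn, pair_inj]

omit [LinearOrder K] in
theorem isFunc_cd (F : Fn M K K) : IsFunc (un M K) (un M K) (cd M F) := by
  refine ⟨fun z hz => ?_, fun z hz => ?_⟩
  · obtain ⟨a, rfl⟩ := mem_cd_fn.1 hz
    exact pair_mem_prod.2 ⟨cd_mem_un _, cd_mem_un _⟩
  · obtain ⟨a, rfl⟩ := mem_un.1 hz
    refine ⟨_, pair_mem_cd_fn.2 ⟨a, rfl, rfl⟩, fun w hw => ?_⟩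
    obtain ⟨b, e, rfl⟩ := pair_mem_cd_fn.1 hw
    rw [cd_inj.1 e]

theorem along_cd (h : Ax M ev) {F : Fn M K K} {r : ZFSet.{0} → ZFSet.{0} → Prop}
    (H : ∀ a b, a < b → r (cd M (F.ap a)) (cd M (F.ap b))) : Along (cd M F) r := by
  intro u v x y h1 h2 e
  obtain ⟨a, rfl, rfl⟩ := pair_mem_cd_fn.1 h1
  obtain ⟨b, rfl, rfl⟩ := pair_mem_cd_fn.1 h2
  exact H a b ((h.lt _ _).1 e)

/-- Bounded transitive sets are codes. -/
theorem ex_cd [WellFoundedLT K] (h : Ax M ev) {z : ZFSet.{0}} {c : K} (h1 : z ⊆ cd M c)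
    (h2 : ∀ y ∈ z, y ⊆ z) : ∃ a ≤ c, z = cd M a := by
  have k : cd M c ∉ z := fun k => mem_irrefl _ (h1 k)
  obtain ⟨a, ha, m⟩ := (wellFounded_lt (α := K)).has_min {a | cd M a ∉ z} ⟨c, k⟩
  refine ⟨a, not_lt.1 (m c k), ZFSet.ext fun y => ⟨fun hy => ?_, fun hy => ?_⟩⟩
  · obtain ⟨b, rfl⟩ := h.trans c y (h1 hy)
    rcases lt_trichotomy b a with q | rfl | q
    · exact (h.lt _ _).2 q
    · exact absurd hy ha
    · exact absurd (h2 _ hy ((h.lt _ _).2 q)) ha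
  · obtain ⟨b, rfl⟩ := h.trans a y hy
    by_contra q
    exact m b q ((h.lt _ _).1 hy)

theorem cd_sub (h : Ax M ev) {a c : K} (e : a < c) : cd M a ⊆ cd M c := fun y hy => by
  obtain ⟨b, rfl⟩ := h.trans a y hy
  exact (h.lt _ _).2 (((h.lt _ _).1 hy).trans e)

theorem nat_sub {n : ℕ} : ∀ y ∈ nat n, y ⊆ nat n := fun y hy w hw => by
  obtain ⟨m, hm, rfl⟩ := mem_nat.1 hy
  obtain ⟨k, hk, rfl⟩ := mem_nat.1 hw
  exact nat_mem_nat.2 (hk.trans hm)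

theorem omega_mem [WellFoundedLT K] (h : Ax M ev) : omega ∈ un M K := by
  obtain ⟨b, ⟨a0, h0⟩, hb⟩ := h.lim
  have key : ∀ n, ∃ a < b, nat n = cd M a := by
    intro n
    induction n with
    | zero =>
      obtain ⟨a, ha, e⟩ := ex_cd h (z := nat 0) (c := a0) (empty_subset _) nat_sub
      exact ⟨a, ha.trans_lt h0, e⟩
    | succ n ih =>
      obtain ⟨a, ha, e⟩ := ih
      obtain ⟨c, h1, h2⟩ := hb a ha
      obtain ⟨a', ha', e'⟩ := ex_cd h (z := nat (n + 1)) (c := c) (fun y hy => by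
        rw [nat, mem_insert_iff, e] at hy
        rcases hy with rfl | hy
        exacts [(h.lt _ _).2 h1, cd_sub h h1 hy]) nat_sub
      exact ⟨a', ha'.trans_lt h2, e'⟩
  obtain ⟨a, -, e⟩ := ex_cd h (z := omega) (c := b) (fun y hy => by
    obtain ⟨n, rfl⟩ := mem_omega.1 hy
    obtain ⟨a, ha, e⟩ := key n
    rw [e]
    exact (h.lt _ _).2 ha) fun y hy w hw => by
    obtain ⟨n, rfl⟩ := mem_omega.1 hy
    obtain ⟨k, -, rfl⟩ := mem_nat.1 hw
    exact mem_omega.2 ⟨k, rfl⟩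
  exact mem_un.2 ⟨a, e⟩

omit [Sm M K] [LinearOrder K] in
theorem df_pair_mem {c : ZFSet.{0}} (hc : c ∈ M) :
    DfF M fun p : K × K => pair (cd M p.1) (cd M p.2) ∈ c :=
  DfF.cd_mem_set (f := fun p : K × K => p) DfF.id hc

theorem not_inj (h : Ax M ev) (b : K) : ¬ Inj M (un M K) (cd M b) := by
  rintro ⟨g, hg, ⟨g1, g2⟩, g3⟩
  obtain ⟨G, hG⟩ : ∃ G : K → K → Prop, ∀ a c, G a c ↔ pair (cd M a) (cd M c) ∈ g :=
    ⟨_, fun _ _ => Iff.rfl⟩
  have d1 : DfF M fun p : K × K => G p.1 p.2 := (df_pair_mem hg).congr fun _ => hG _ _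
  obtain ⟨c0, hc⟩ := bound h (R := fun a c => ∀ c', G c' a → c' = c)
    (by simp only [all_iff, imp_iff]; fun_prop) b fun a _ => by
      by_cases k : ∃ c, G c a
      · obtain ⟨c, k⟩ := k
        exact ⟨c, fun c' k' => cd_inj.1 (g3 _ _ _ ((hG _ _).1 k') ((hG _ _).1 k))⟩
      · exact ⟨b, fun c' k' => absurd ⟨c', k'⟩ k⟩
  obtain ⟨y, hy, -⟩ := g2 _ (cd_mem_un c0)
  have hy' := (pair_mem_prod.1 (g1 hy)).2
  obtain ⟨a, rfl⟩ := h.trans b y hy'
  obtain ⟨c, h1, h2⟩ := hc a ((h.lt _ _).1 hy')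
  exact h1.ne' (h2 c0 ((hG _ _).2 hy))

theorem homog [WellFoundedLT K] (h : Ax M ev) {col : K → K → Prop}
    (dc : DfF M fun p : K × K => col p.1 p.2) :
    ∃ (F : Fn M K K) (i : Prop), ∀ a b, a < b → F.ap a < F.ap b ∧ (col (F.ap a) (F.ap b) ↔ i) := by
  have := ne_K h
  have d1 := df_lt h
  obtain ⟨z, hz⟩ := clu M K ev h (fun t e => col e.1 t) (by fun_prop)
  obtain ⟨i, hi⟩ : ∃ i : Prop, ∀ β : K, ∃ s, β ≤ s ∧ Ag β (fun e => e ∈ z) (fun e => col e.1 s) ∧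
      ((s, s) ∈ z ↔ i) := by
    by_contra c
    obtain ⟨β0, h0⟩ := not_forall.1 fun k => c ⟨True, k⟩
    obtain ⟨β1, h1⟩ := not_forall.1 fun k => c ⟨False, k⟩
    obtain ⟨s, hs, k⟩ := hz (max β0 β1) (max β0 β1)
    by_cases q : (s, s) ∈ z
    · exact h0 ⟨s, (le_max_left _ _).trans hs, k.mono (le_max_left _ _), iff_true_intro q⟩
    · exact h1 ⟨s, (le_max_right _ _).trans hs, k.mono (le_max_right _ _), iff_false_intro q⟩
  obtain ⟨f, df, hf⟩ := (mwo h).exists_rec (R := fun a (F : Fn M K K) y =>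
      (∀ a', a' < a → F.ap a' < y ∧ (col (F.ap a') y ↔ (F.ap a', F.ap a') ∈ z)) ∧ ((y, y) ∈ z ↔ i))
    (by simp only [all_iff, imp_iff]; fun_prop) fun a F => by
      obtain ⟨c, hc⟩ := h.reg a F
      obtain ⟨s, h1, h2, h3⟩ := hi c
      exact ⟨s, fun a' ha => ⟨(hc a' ha).trans_le h1, (h2 _ (hc a' ha) _ (hc a' ha)).symm⟩, h3⟩
  refine ⟨⟨f, df⟩, i, fun a b e => ?_⟩
  obtain ⟨F, h1, h2, -⟩ := hf b
  obtain ⟨_, -, -, h3⟩ := hf a
  have k := h2 a e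
  rw [h1 a e] at k
  exact ⟨k.1, k.2.trans h3⟩

theorem wc : WC := by
  intro M _ K _ _ _ _ ev h
  refine ⟨⟨fun y hy w hw => ?_, fun {y z w} h1 h2 h3 => ?_⟩, omega_mem h, fun β hβ => ?_,
    fun c hc => ?_⟩
  · obtain ⟨a, rfl⟩ := mem_un.1 hy
    exact mem_un.2 (h.trans a w hw)
  · obtain ⟨a, rfl⟩ := mem_un.1 h3
    obtain ⟨b, rfl⟩ := h.trans a z h2
    exact cd_sub h ((h.lt _ _).1 h2) h1
  · obtain ⟨b, rfl⟩ := mem_un.1 hβ
    exact not_inj h b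
  · obtain ⟨F, i, hF⟩ := homog h (col := fun a t => pair (cd M a) (cd M t) ∈ c) (df_pair_mem hc)
    refine ⟨cd M F, cd_mem F, isFunc_cd F, along_cd h fun a b e => (h.lt _ _).2 (hF a b e).1, ?_⟩
    by_cases k : i
    · exact Or.inl (along_cd h fun a b e => (hF a b e).2.2 k)
    · exact Or.inr (along_cd h fun a b e q => k ((hF a b e).2.1 q))

end Pool.Agent.MP_d6f492_lc
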