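import Pool.Agent.MP_d6f492_lc.Spec

/-! The passage from the ground forcing to the generic extension. -/

namespace Pool.Agent.MP_d6f492_lc

namespace Mdl

open ZFSet Pool.Agent.ZF92 Pool.Agent.Forcing92 Function
open scoped Classical

set_option linter.unusedSectionVars false

universe u v

variable {P K : Type} [LinearOrder K] [WellFoundedLT K]

/-- Check names of ordinals. -/
noncomputable def ck (t : P) : K → Name P :=
  (wellFounded_lt (α := K)).fix fun a f => ⟨Set.Iio a, fun i => f i.1 i.2, fun _ => t⟩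

theorem ck_eq (t : P) (a : K) : ck t a = ⟨Set.Iio a, fun i => ck t i.1, fun _ => t⟩ := by
  rw [ck, WellFounded.fix_eq]

theorem ck_fEq {le : P → P → Prop} [Pre le] {t : P} (ht : ∀ p, le p t) {a b : K} {p : P}
    (h : fEq le (ck t a) (ck t b) p) : a = b := by
  induction a using WellFoundedLT.induction generalizing b p with
  | ind a ih =>
  rw [ck_eq t a, ck_eq t b] at h
  refine le_antisymm (not_lt.1 fun hlt => ?_) (not_lt.1 fun hlt => ?_)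
  · obtain ⟨r, -, h1⟩ := h.1 ⟨b, hlt⟩ p (lrefl p)
    obtain ⟨j, -, he⟩ := h1 (ht r)
    exact absurd (ih b hlt he) (ne_of_gt j.2)
  · obtain ⟨r, -, h1⟩ := h.2 ⟨a, hlt⟩ p (lrefl p)
    obtain ⟨i, -, he⟩ := h1 (ht r)
    exact absurd (ih i i.2 he) (ne_of_lt i.2)

/-- Types of parameters with names. -/
class Nm (t : P) (A : Type u) where
  nm : A → Name P
  inj : Injective nm
  In : Set (Name P) → A → Prop
  iff : ∀ {le : P → P → Prop} [Pre le] {N : Set (Name P)} {G : Set P},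
    Gen le (R0 le t) N G → ∀ a, nm a ∈ N ↔ In N a

instance trivPre : Pre (fun _ _ : P => True) := ⟨fun _ => trivial, fun _ _ => trivial⟩

noncomputable instance nmK (t : P) : Nm t K where
  nm := ck t
  inj _ _ e := ck_fEq (le := fun _ _ => True) (fun _ => trivial) (p := t)
    (by rw [e]; exact fEq_refl _ _)
  In N a := ck t a ∈ N
  iff _ _ := Iff.rfl

noncomputable instance nmP (t : P) : Nm t P where
  nm := chk t
  inj _ _ e := chk_inj (le := fun _ _ => True) (fun _ => trivial) e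
  In N a := chk t a ∈ N
  iff _ _ := Iff.rfl

instance nmN (t : P) : Nm t (Name P) where
  nm := id
  inj := injective_id
  In N a := a ∈ N
  iff _ _ := Iff.rfl

instance nmU (t : P) : Nm t Unit where
  nm _ := emp
  inj _ _ _ := rfl
  In _ _ := True
  iff h _ := iff_true_intro h.emp_mem

instance nmProd (t : P) {A : Type u} {B : Type v} [Nm t A] [Nm t B] : Nm t (A × B) where
  nm p := pairN t (Nm.nm t p.1) (Nm.nm t p.2)
  inj _ _ e := Prod.ext (Nm.inj (upairN_inj (upairN_inj e).2).1)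
    (Nm.inj (upairN_inj (upairN_inj e).2).2)
  In N p := Nm.In t N p.1 ∧ Nm.In t N p.2
  iff h _ := h.pairN_mem_iff.trans (and_congr (Nm.iff h _) (Nm.iff h _))

variable (le : P → P → Prop) [Pre le] (t : P)

/-- The property holds after countably many further tasks. -/
def Ae (Φ : Set (Name P) → Set P → Prop) : Prop :=
  ∃ (J : Type) (_ : Countable J) (R : J → (ℕ → Name P) → Name P → P → Prop),
    ∀ N G, Gen le (R0 le t) N G → Gen le R N G → Φ N G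

/-- The condition `q` forces the element `e` into `τ`. -/
def Zn {A : Type} [Nm t A] (τ : Name P) (e : A) (q : P) : Prop := fMem le (Nm.nm t e) τ q

variable {le t}

theorem Ae.and {Φ Ψ : Set (Name P) → Set P → Prop} (h : Ae le t Φ) (h' : Ae le t Ψ) :
    Ae le t fun N G => Φ N G ∧ Ψ N G := by
  obtain ⟨J, _, R, h⟩ := h
  obtain ⟨J', _, R', h'⟩ := h'
  exact ⟨J ⊕ J', inferInstance, Sum.elim R R', fun N G h0 h1 =>
    ⟨h N G h0 ⟨h1.emp_mem, h1.up, h1.dir, fun j => h1.gs (.inl j)⟩,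
      h' N G h0 ⟨h1.emp_mem, h1.up, h1.dir, fun j => h1.gs (.inr j)⟩⟩⟩

theorem Ae.mono {Φ Ψ : Set (Name P) → Set P → Prop} (h : Ae le t Φ)
    (e : ∀ N G, Gen le (R0 le t) N G → Φ N G → Ψ N G) : Ae le t Ψ := by
  obtain ⟨J, _, R, h⟩ := h
  exact ⟨J, inferInstance, R, fun N G h0 h1 => e N G h0 (h N G h0 h1)⟩

section

variable {A : Type u} {B : Type v} [Nm t A] [Nm t B]

theorem prim (R : A → B → P → Prop) : Ae le t fun N G => ∀ a, Nm.In t N a → ∃ p ∈ G,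
    (∃ b, Nm.In t N b ∧ R a b p) ∨ ∀ q, le q p → ∀ b, ¬ R a b q := by
  refine ⟨Unit, inferInstance, fun _ w x q => ∃ a b, w 0 = Nm.nm t a ∧ x = Nm.nm t b ∧ R a b q,
    fun N G h0 h a ha => ?_⟩
  obtain ⟨p, hp, ⟨_, hx, a', b, e, rfl, h1⟩ | h1⟩ := h.gs () _ (h.env1 ((Nm.iff h0 a).2 ha))
  · obtain rfl := Nm.inj (t := t) e
    exact ⟨p, hp, Or.inl ⟨b, (Nm.iff h0 b).1 hx, h1⟩⟩
  · exact ⟨p, hp, Or.inr fun q hq b hb => h1 q hq _ ⟨a, b, rfl, rfl, hb⟩⟩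

theorem den (R : A → B → P → Prop) : Ae le t fun N G => ∀ a, Nm.In t N a → ∀ p ∈ G,
    (∀ q, le q p → ∃ r, le r q ∧ ∃ b, R a b r) → ∃ r ∈ G, ∃ b, Nm.In t N b ∧ R a b r :=
  (prim R).mono fun _ _ h0 h a ha p hp hd => by
    obtain ⟨r, hr, h1 | h1⟩ := h a ha
    · exact ⟨r, hr, h1⟩
    · obtain ⟨q, -, q1, q2⟩ := h0.dir hr hp
      obtain ⟨s, hs, b, hb⟩ := hd q q2
      exact absurd hb (h1 s (ltrans hs q1) b)

theorem neg (R : A → B → P → Prop) : Ae le t fun N G => ∀ a, Nm.In t N a →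
    (∀ r ∈ G, ∀ b, Nm.In t N b → ¬ R a b r) → ∃ p ∈ G, ∀ q, le q p → ∀ b, ¬ R a b q :=
  (prim R).mono fun _ _ _ h a ha hn => by
    obtain ⟨r, hr, ⟨b, hb, h1⟩ | h1⟩ := h a ha
    · exact absurd h1 (hn r hr b hb)
    · exact ⟨r, hr, h1⟩

theorem op (f : A → B) : Ae le t fun N _ => ∀ a, Nm.In t N a → Nm.In t N (f a) :=
  (prim fun a b _ => b = f a).mono fun _ _ _ h a ha => by
    obtain ⟨r, -, ⟨b, hb, rfl⟩ | h1⟩ := h a ha
    · exact hb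
    · exact absurd rfl (h1 r (lrefl r) _)

end

theorem mo_zn {A : Type} [Nm t A] (τ : Name P) : Mo le (Zn le t (A := A) τ) :=
  fun _ _ _ hq h => fMem_mono hq h

theorem vi_ck {N : Set (Name P)} {G : Set P} (h : Gen le (R0 le t) N G) (ht : ∀ p, le p t) :
    VI N G (ck t : K → Name P) := fun _ _ ha hb e =>
  let ⟨_, _, h1⟩ := (h.val_eq_iff ha hb).1 e; ck_fEq ht h1

theorem n2_fEq (ht : ∀ p, le p t) {e e' : K × K} {p : P}
    (h : fEq le (Nm.nm t e) (Nm.nm t e') p) : e = e' := by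
  obtain ⟨N, G, hp, h0, h1⟩ := exists_gen_zfc le t (J := Bool)
    (fun b _ x _ => x = Nm.nm t (cond b e e')) p
  have h2 : ∀ b, Nm.nm t (cond b e e') ∈ N := fun b =>
    h1.op b (fin'_emp h0.emp_mem) fun _ _ => Iff.rfl
  exact h0.vi_prod ht (vi_ck h0 ht) (vi_ck h0 ht) e e' (h2 true) (h2 false)
    ((h0.val_eq_iff (h2 true) (h2 false)).2 ⟨p, hp, h⟩)

theorem eqv_mono {β : K} {Z W : K × K → P → Prop} {p q : P} (h : Eqv le β Z W p) (hq : le q p) :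
    Eqv le β Z W q := fun a ha b hb u hu => h a ha b hb u (ltrans hu hq)

theorem eqv_relN (ht : ∀ p, le p t) {β : K} {Z W : K × K → P → Prop} (hZ : Mo le Z) {y : P}
    (h : Eqv le β (Zn le t (relN (Nm.nm t) Z)) W y) : Eqv le β Z W y := by
  intro a ha b hb u hu
  refine ⟨fun h1 => (h a ha b hb u hu).1 (fMem_mk (A := fun s : {s : (K × K) × P // Z s.1 s.2} =>
    Nm.nm t s.1.1) (c := fun s => s.1.2) ⟨((a, b), u), h1⟩ (lrefl u)), fun h1 => ?_⟩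
  obtain ⟨v, hv, h2⟩ := (h a ha b hb u hu).2 h1
  obtain ⟨r, hr, ⟨⟨e, s⟩, h3⟩, h4, h5⟩ := h2 v (lrefl v)
  obtain rfl : e = (a, b) := n2_fEq ht h5
  exact ⟨r, ltrans hr hv, hZ _ _ _ h4 h3⟩

noncomputable instance subOrd {N : Set (Name P)} {nm : K → Name P} : LinearOrder (Sub N nm) :=
  LinearOrder.lift' Sub.a fun _ _ => Sub.ext

instance subWf {N : Set (Name P)} {nm : K → Name P} : WellFoundedLT (Sub N nm) :=
  ⟨InvImage.wf Sub.a wellFounded_lt⟩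

/-- The value of a relation. -/
def vl {N : Set (Name P)} {A B : Type} {f : A → Name P} {g : B → Name P} (G : Set P)
    (Z : A × B → P → Prop) (e : Sub N f × Sub N g) : Prop := ∃ p ∈ G, Z (e.1.a, e.2.a) p

/-- The relation is decided by the filter. -/
def Dec (t : P) (N : Set (Name P)) (G : Set P) (Z : K × K → P → Prop) : Prop :=
  ∀ a b : Sub N (ck t : K → Name P), ¬ vl G Z (a, b) → ∃ p ∈ G, ∀ q, le q p → ¬ Z (a.a, b.a) q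

theorem ag_of_eqv {N : Set (Name P)} {G : Set P} (h0 : Gen le (R0 le t) N G)
    {Z W : K × K → P → Prop} (hZ : Mo le Z) (hW : Mo le W) (dZ : Dec (le := le) t N G Z)
    (dW : Dec (le := le) t N G W) {β : Sub N (ck t : K → Name P)} {g : P} (hg : g ∈ G)
    (h : Eqv le β.a Z W g) : Ag β (vl G Z) (vl G W) := by
  intro a ha b hb
  constructor
  · rintro ⟨p, hp, h1⟩
    by_contra hn
    obtain ⟨q, hq, h2⟩ := dW a b hn
    obtain ⟨s, -, s1, s2, s3⟩ := h0.dir3 hg hp hq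
    obtain ⟨v, hv, h3⟩ := (h a.a ha b.a hb s s1).1 (hZ _ _ _ s2 h1)
    exact h2 v (ltrans hv s3) h3
  · rintro ⟨p, hp, h1⟩
    by_contra hn
    obtain ⟨q, hq, h2⟩ := dZ a b hn
    obtain ⟨s, -, s1, s2, s3⟩ := h0.dir3 hg hp hq
    obtain ⟨v, hv, h3⟩ := (h a.a ha b.a hb s s1).2 (hW _ _ _ s2 h1)
    exact h2 v (ltrans hv s3) h3

theorem ae_mem : Ae le t fun N G => ∀ x ∈ N, ∀ y ∈ N, (¬ ∃ p ∈ G, fMem le x y p) →
    ∃ p ∈ G, ∀ q, le q p → ¬ fMem le x y q :=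
  (neg fun (a : Name P × Name P) (_ : Unit) q => fMem le a.1 a.2 q).mono
    fun _ _ _ h x hx y hy hn => by
      obtain ⟨p, hp, h1⟩ := h (x, y) ⟨hx, hy⟩ fun r hr _ _ h2 => hn ⟨r, hr, h2⟩
      exact ⟨p, hp, fun q hq => h1 q hq ()⟩

variable {Ev : K → K × K → P → Prop}

theorem ae_dec (Ev : K → K × K → P → Prop) : Ae le t fun N G =>
    ∀ j : Sub N (ck t : K → Name P), Dec (le := le) t N G (Ev j.a) :=
  (neg fun (a : K × K × K) (_ : Unit) q => Ev a.1 a.2 q).mono fun _ _ _ h j a b hn => by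
    obtain ⟨p, hp, h1⟩ := h (j.a, a.a, b.a) ⟨j.mem, a.mem, b.mem⟩ fun r hr _ _ h2 => hn ⟨r, hr, h2⟩
    exact ⟨p, hp, fun q hq => h1 q hq ()⟩

theorem ae_key (hG : Gd le Ev) : Ae le t fun N G => ∀ β j : Sub N (ck t : K → Name P), ∀ τ ∈ N,
    Ag β (vl G (Zn le t τ)) (vl G (Ev j.a)) ↔ ∃ g ∈ G, Eqv le β.a (Zn le t τ) (Ev j.a) g := by
  refine ((ae_mem.and (ae_dec Ev)).and (neg fun (a : K × K × Name P) (e : K × K) q =>
    e.1 < a.1 ∧ e.2 < a.1 ∧ ((Zn le t a.2.2 e q ∧ ∀ v, le v q → ¬ Ev a.2.1 e v) ∨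
      (Ev a.2.1 e q ∧ ∀ v, le v q → ¬ Zn le t a.2.2 e v)))).mono
    fun N G h0 ⟨⟨h1, h2⟩, h3⟩ β j τ hτ => ⟨fun h => ?_, fun ⟨g, hg, h⟩ =>
      ag_of_eqv h0 (mo_zn τ) (hG.mono _) (fun a b hn => h1 _ ((Nm.iff h0 (a.a, b.a)).2
        ⟨a.mem, b.mem⟩) τ hτ hn) (h2 j) hg h⟩
  obtain ⟨p, hp, h4⟩ := h3 (β.a, j.a, τ) ⟨β.mem, j.mem, hτ⟩ (by
    rintro r hr ⟨a, b⟩ ⟨ha, hb⟩ ⟨h5, h6, ⟨h7, h8⟩ | ⟨h7, h8⟩⟩
    · obtain ⟨q, hq, h9⟩ := (h ⟨a, ha⟩ h5 ⟨b, hb⟩ h6).1 ⟨r, hr, h7⟩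
      obtain ⟨s, -, s1, s2⟩ := h0.dir hr hq
      exact h8 s s1 (hG.mono _ _ _ _ s2 h9)
    · obtain ⟨q, hq, h9⟩ := (h ⟨a, ha⟩ h5 ⟨b, hb⟩ h6).2 ⟨r, hr, h7⟩
      obtain ⟨s, -, s1, s2⟩ := h0.dir hr hq
      exact h8 s s1 (mo_zn τ _ _ _ s2 h9))
  refine ⟨p, hp, fun a ha b hb u hu => ⟨fun h5 => ?_, fun h5 => ?_⟩⟩ <;> by_contra hn
  · exact h4 u hu (a, b) ⟨ha, hb, Or.inl ⟨h5, fun v hv h6 => hn ⟨v, hv, h6⟩⟩⟩
  · exact h4 u hu (a, b) ⟨ha, hb, Or.inr ⟨h5, fun v hv h6 => hn ⟨v, hv, h6⟩⟩⟩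

theorem ae_small (hG : Gd le Ev) : Ae le t fun N G => ∀ β : Sub N (ck t : K → Name P),
    ∃ β' : Sub N (ck t : K → Name P), ∀ τ ∈ N, ∃ j < β', ∃ g ∈ G,
      Eqv le β.a (Zn le t τ) (Ev j.a) g := by
  choose f hf using hG.small
  refine ((op f).and (den fun (a : K × Name P) (j : K) q =>
    j < f a.1 ∧ Eqv le a.1 (Zn le t a.2) (Ev j) q)).mono fun N G h0 ⟨h1, h2⟩ β =>
      ⟨⟨f β.a, h1 _ β.mem⟩, fun τ hτ => ?_⟩
  obtain ⟨p, hp⟩ := h0.nonempty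
  obtain ⟨r, hr, j, hj, h3, h4⟩ := h2 (β.a, τ) ⟨β.mem, hτ⟩ p hp fun q _ => hf β.a _ (mo_zn τ) q
  exact ⟨⟨j, hj⟩, h3, r, hr, h4⟩

/-- The name is forced to be total. -/
def Tot (le : P → P → Prop) (t : P) (K : Type) [LinearOrder K] [WellFoundedLT K] (τ : Name P)
    (p : P) : Prop := ∀ (a : K) y, le y p → ∃ u, le u y ∧ ∃ b : K, Zn le t τ (a, b) u

/-- The name is forced to be functional. -/
def Fun (le : P → P → Prop) (t : P) (K B : Type) [Nm t K] [Nm t B] (τ : Name P)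
    (p : P) : Prop := ∀ (a : K) (b b' : B) y, le y p → Zn le t τ (a, b) y → Zn le t τ (a, b') y →
      b = b'

theorem ae_tot : Ae le t fun N G => ∀ τ ∈ N,
    (∀ a : Sub N (ck t : K → Name P), ∃ b : Sub N (ck t : K → Name P), vl G (Zn le t τ) (a, b)) →
      ∃ p ∈ G, Tot le t K τ p := by
  refine (neg fun (τ : Name P) (a : K) q => ∀ u, le u q → ∀ b : K, ¬ Zn le t τ (a, b) u).mono
    fun N G h0 h τ hτ h1 => ?_
  obtain ⟨p, hp, h2⟩ := h τ hτ fun r hr a ha h2 => by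
    obtain ⟨b, q, hq, h3⟩ := h1 ⟨a, ha⟩
    obtain ⟨s, -, s1, s2⟩ := h0.dir hr hq
    exact h2 s s1 b.a (mo_zn τ _ _ _ s2 h3)
  refine ⟨p, hp, fun a y hy => ?_⟩
  by_contra hn
  exact h2 y hy a fun u hu b h3 => hn ⟨u, hu, b, h3⟩

theorem ae_fun (B : Type) [Nm t B] : Ae le t fun N G => ∀ τ ∈ N,
    (∀ (a : Sub N (ck t : K → Name P)) (b b' : Sub N (Nm.nm t : B → Name P)),
      vl G (Zn le t τ) (a, b) → vl G (Zn le t τ) (a, b') → b = b') → ∃ p ∈ G, Fun le t K B τ p := by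
  refine (neg fun (τ : Name P) (a : K × B × B) q => Zn le t τ (a.1, a.2.1) q ∧
    Zn le t τ (a.1, a.2.2) q ∧ a.2.1 ≠ a.2.2).mono fun N G h0 h τ hτ h1 => ?_
  obtain ⟨p, hp, h2⟩ := h τ hτ fun r hr a ha h2 => h2.2.2 (congrArg Sub.a
    (h1 ⟨_, ha.1⟩ ⟨_, (Nm.iff h0 _).2 ha.2.1⟩ ⟨_, (Nm.iff h0 _).2 ha.2.2⟩ ⟨r, hr, h2.1⟩
      ⟨r, hr, h2.2.1⟩))
  refine ⟨p, hp, fun a b b' y hy h3 h4 => ?_⟩
  by_contra hn
  exact h2 y hy (a, b, b') ⟨h3, h4, hn⟩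

theorem ae_reg (hG : Gd le Ev) : Ae le t fun N G => ∀ τ ∈ N,
    (∀ a : Sub N (ck t : K → Name P), ∃ b : Sub N (ck t : K → Name P), vl G (Zn le t τ) (a, b)) →
      ∀ β : Sub N (ck t : K → Name P), ∃ c : Sub N (ck t : K → Name P), ∀ a < β, ∃ b < c,
        vl G (Zn le t τ) (a, b) := by
  refine (((ae_tot (K := K)).and (den fun (a : K × Name P) (c : K) q => ∀ x < a.1, ∀ y, le y q →
    ∃ u, le u y ∧ ∃ b < c, Zn le t a.2 (x, b) u)).and (den fun (a : K × K × Name P) (b : K) q =>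
      b < a.2.1 ∧ Zn le t a.2.2 (a.1, b) q)).mono fun N G h0 ⟨⟨h1, h2⟩, h3⟩ τ hτ h β => ?_
  obtain ⟨p, hp, h4⟩ := h1 τ hτ h
  obtain ⟨r, hr, c, hc, h5⟩ := h2 (β.a, τ) ⟨β.mem, hτ⟩ p hp fun q hq =>
    hG.reg β.a _ q (mo_zn τ) fun a _ y hy => h4 a y (ltrans hy hq)
  refine ⟨⟨c, hc⟩, fun a ha => ?_⟩
  obtain ⟨s, hs, b, hb, h6, h7⟩ := h3 (a.a, c, τ) ⟨a.mem, hc, hτ⟩ r hr (h5 a.a ha)
  exact ⟨⟨b, hb⟩, h6, s, hs, h7⟩

theorem ae_tree (ht : ∀ p, le p t) (hG : Gd le Ev) : Ae le t fun N G => ∀ θ ∈ N,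
    (∀ a : Sub N (ck t : K → Name P), ∃ b : Sub N (ck t : K → Name P), vl G (Zn le t θ) (a, b)) →
    (∀ β β' j j' : Sub N (ck t : K → Name P), β' ≤ β → vl G (Zn le t θ) (β, j) →
      Ag β' (vl G (Ev j'.a)) (vl G (Ev j.a)) → vl G (Zn le t θ) (β', j')) →
    ∃ τ ∈ N, ∀ β j : Sub N (ck t : K → Name P), Ag β (vl G (Zn le t τ)) (vl G (Ev j.a)) →
      vl G (Zn le t θ) (β, j) := by
  refine (((((ae_tot (K := K)).and (ae_key hG)).and (ae_dec Ev)).and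
    (neg fun (θ : Name P) (a : K × K × K × K) q => a.2.1 ≤ a.1 ∧ Zn le t θ (a.1, a.2.2.1) q ∧
      Eqv le a.2.1 (Ev a.2.2.2) (Ev a.2.2.1) q ∧ ∀ u, le u q → ¬ Zn le t θ (a.2.1, a.2.2.2) u)).and
    (den fun (θ τ : Name P) q => ∀ β j y, le y q → Eqv le β (Zn le t τ) (Ev j) y →
      ∃ u, le u y ∧ Zn le t θ (β, j) u)).mono
    fun N G h0 ⟨⟨⟨⟨h1, h2⟩, h3⟩, h4⟩, h5⟩ θ hθ k1 k2 => ?_
  obtain ⟨p, hp, h6⟩ := h1 θ hθ k1
  obtain ⟨p', hp', h7⟩ := h4 θ hθ (by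
    rintro r hr ⟨β, β', j, j'⟩ ⟨m1, m2, m3, m4⟩ ⟨e1, e2, e3, e4⟩
    obtain ⟨q, hq, e5⟩ := k2 ⟨β, m1⟩ ⟨β', m2⟩ ⟨j, m3⟩ ⟨j', m4⟩ e1 ⟨r, hr, e2⟩
      (ag_of_eqv h0 (hG.mono _) (hG.mono _) (h3 _) (h3 _) hr e3)
    obtain ⟨s, -, s1, s2⟩ := h0.dir hr hq
    exact e4 s s1 (mo_zn θ _ _ _ s2 e5))
  obtain ⟨s, hs, s1, s2⟩ := h0.dir hp hp'
  obtain ⟨r, hr, τ, hτ, h8⟩ := h5 θ hθ s hs fun q hq => by
    obtain ⟨r, hr, Z, hZ, h8⟩ := hG.tree _ q (mo_zn θ)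
      (fun β y hy => h6 β y (ltrans hy (ltrans hq s1))) fun β β' j j' y e1 hy e2 e3 => by
        by_contra hn
        exact h7 y (ltrans hy (ltrans hq s2)) (β, β', j, j')
          ⟨e1, e2, e3, fun u hu e4 => hn ⟨u, hu, e4⟩⟩
    exact ⟨r, hr, relN (Nm.nm t) Z, fun β j y hy e => h8 β j y hy (eqv_relN ht hZ e)⟩
  refine ⟨τ, hτ, fun β j h9 => ?_⟩
  obtain ⟨g, hg, e⟩ := (h2 β j τ hτ).1 h9
  obtain ⟨v, hv, v1, v2⟩ := h0.dir hr hg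
  exact ⟨v, hv, fMem_dense fun y hy => h8 _ _ y (ltrans hy v1) (eqv_mono e (ltrans hy v2))⟩

/-- The condition forces that the set is not in `τ`. -/
def OutN (le : P → P → Prop) (t : P) (τ : Name P) (Z : K × K → P → Prop) (y : P) : Prop :=
  ∀ u, le u y → ¬ fMem le (relN (Nm.nm t) Z) τ u

/-- The condition forces that no member of `σ` extends the pair of nodes. -/
def XN (le : P → P → Prop) (t : P) (Ev : K → K × K → P → Prop) (σ : Name P) (s : K × K × K)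
    (q : P) : Prop := ¬ ∃ m, le m q ∧ ∃ w : Name P × Name P, fMem le (pairN t w.1 w.2) σ m ∧
      Eqv le s.1 (Zn le t w.1) (Ev s.2.1) m ∧ Eqv le s.1 (Zn le t w.2) (Ev s.2.2) m

/-- What the root of the quotient forces. -/
def Good (le : P → P → Prop) (t : P) (Ev : K → K × K → P → Prop) (Sl : K × K → P → Prop)
    (σ ξ η : Name P) (p : P) : Prop :=
  fMem le (pairN t ξ η) σ p ∧ Tot le t K ξ p ∧ Tot le t K η p ∧ Fun le t K K ξ p ∧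
    Fun le t K K η p ∧ ∀ β y, le y p → ∃ u, le u y ∧ ∃ β' j, β ≤ β' ∧ Sl (β', j) u ∧
      Eqv le β' (Zn le t ξ) (Ev j) u

/-- The order of the quotient. -/
def QLe (le : P → P → Prop) (G : Set P) (am : P → P → P) (k' k : P) : Prop :=
  ∃ g ∈ G, le (am g k') (am g k)

section

variable {Out : (K × K → P → Prop) → P → Prop} {X : K × K × K → P → Prop}
  {Sl : K × K → P → Prop} {am : P → P → P} (hq : Quo le Ev Out X Sl am)
  {N : Set (Name P)} {G : Set P}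
include hq

theorem quo_mono {s g k k' : P} (hs : le s g) (h : le (am g k') (am g k)) :
    le (am s k') (am s k) := by
  have := hq.down (am s k') g k (ltrans (hq.mono g s k' hs) h)
  rwa [hq.left] at this

theorem quo_split {m y k : P} (h : le m (am y k)) :
    le (am m y) y ∧ am (am m y) m = m ∧ le m (am (am m y) k) :=
  ⟨hq.up m y k h, by rw [hq.left, hq.self], by rw [hq.left]; exact hq.down m y k h⟩

theorem qle_trans (h0 : Gen le (R0 le t) N G) {a b c : P} (h : QLe le G am a b)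
    (h' : QLe le G am b c) : QLe le G am a c := by
  obtain ⟨g, hg, h⟩ := h
  obtain ⟨g', hg', h'⟩ := h'
  obtain ⟨s, hs, s1, s2⟩ := h0.dir hg hg'
  exact ⟨s, hs, ltrans (quo_mono hq s1 h) (quo_mono hq s2 h')⟩

/-- Below an element of the quotient. -/
theorem qle_below (h0 : Gen le (R0 le t) N G) {a b g : P} (h : QLe le G am a b) (hg : g ∈ G) :
    ∃ s ∈ G, le (am s a) (am g b) := by
  obtain ⟨g', hg', h⟩ := h
  obtain ⟨s, hs, s1, s2⟩ := h0.dir hg hg'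
  exact ⟨s, hs, ltrans (quo_mono hq s2 h) (hq.mono _ _ _ s1)⟩

theorem ag_am (hG : Gd le Ev) (h0 : Gen le (R0 le t) N G) {β j : Sub N (ck t : K → Name P)}
    (hd : Dec (le := le) t N G (Ev j.a)) {ξ : Name P} {g k : P} (hg : g ∈ G)
    (h : Eqv le β.a (Zn le t ξ) (Ev j.a) (am g k)) :
    Ag β (vl G fun e g => Zn le t ξ e (am g k)) (vl G (Ev j.a)) := by
  intro a ha b hb
  constructor
  · rintro ⟨p, hp, h1⟩
    by_contra hn
    obtain ⟨q, hq', h2⟩ := hd a b hn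
    obtain ⟨s, -, s1, s2, s3⟩ := h0.dir3 hg hp hq'
    obtain ⟨v, hv, h3⟩ := (h a.a ha b.a hb _ (hq.mono _ _ k s1)).1
      (mo_zn ξ _ _ _ (hq.mono _ _ k s2) h1)
    exact h2 _ (ltrans (hq.up v s k hv) s3) ((hq.ev _ _ _ _).2 h3)
  · rintro ⟨p, hp, h1⟩
    obtain ⟨s, hs, s1, s2⟩ := h0.dir hg hp
    exact ⟨s, hs, fMem_dense fun u hu => (h a.a ha b.a hb u (ltrans hu (hq.mono _ _ k s1))).2
      (hG.mono _ _ _ _ hu ((hq.ev _ _ _ _).2 (hG.mono _ _ _ _ s2 h1)))⟩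

end

variable {Sl : Name P × Name P → K × K → P → Prop} {am : Name P × Name P → P → P → P}
  (hq : ∀ c, Quo le Ev (OutN le t c.1) (XN le t Ev c.2) (Sl c) (am c))
include hq

theorem ae_cover (hG : Gd le Ev) : Ae le t fun N G => ∀ c, Nm.In t N c → ∀ ζ ∈ N,
    relN (Nm.nm t) (Zn le t (A := K × K) ζ) ∈ N ∧
    ((¬ ∃ g ∈ G, fMem le (relN (Nm.nm t) (Zn le t (A := K × K) ζ)) c.1 g) →
      ∀ β : Sub N (ck t : K → Name P), ∃ β' j : Sub N (ck t : K → Name P), β ≤ β' ∧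
        vl G (Sl c) (β', j) ∧ Ag β' (vl G (Zn le t ζ)) (vl G (Ev j.a))) := by
  refine (((ae_mem.and (ae_key hG)).and
    (op fun ζ : Name P => relN (Nm.nm t) (Zn le t (A := K × K) ζ))).and
    (den fun (a : (Name P × Name P) × Name P × K) (b : K × K) q => a.2.2 ≤ b.1 ∧ Sl a.1 b q ∧
      Eqv le b.1 (Zn le t a.2.1) (Ev b.2) q)).mono
    fun N G h0 ⟨⟨⟨h1, h2⟩, h3⟩, h4⟩ c hc ζ hζ => ⟨h3 ζ hζ, fun hn β => ?_⟩
  obtain ⟨p, hp, h5⟩ := h1 _ (h3 ζ hζ) _ hc.1 hn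
  obtain ⟨r, hr, ⟨β', j⟩, ⟨m1, m2⟩, e1, e2, e3⟩ := h4 (c, ζ, β.a) ⟨hc, hζ, β.mem⟩ p hp
    fun q hq' => by
      obtain ⟨u, hu, β', j, e⟩ := (hq c).cover _ q (mo_zn ζ)
        (fun u hu => h5 u (ltrans hu hq')) β.a
      exact ⟨u, hu, (β', j), e⟩
  exact ⟨⟨β', m1⟩, ⟨j, m2⟩, e1, ⟨r, hr, e2⟩, (h2 ⟨β', m1⟩ ⟨j, m2⟩ ζ hζ).2 ⟨r, hr, e3⟩⟩

theorem ae_good (hG : Gd le Ev) : Ae le t fun N G => ∀ c, Nm.In t N c → ∀ ξ ∈ N, ∀ η ∈ N,
    (∃ g ∈ G, fMem le (pairN t ξ η) c.2 g) →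
    (∀ a : Sub N (ck t : K → Name P), ∃! b : Sub N (ck t : K → Name P), vl G (Zn le t ξ) (a, b)) →
    (∀ a : Sub N (ck t : K → Name P), ∃! b : Sub N (ck t : K → Name P), vl G (Zn le t η) (a, b)) →
    (∀ β : Sub N (ck t : K → Name P), ∃ β' j : Sub N (ck t : K → Name P), β ≤ β' ∧
      vl G (Sl c) (β', j) ∧ Ag β' (vl G (Zn le t ξ)) (vl G (Ev j.a))) →
    ∃ p ∈ G, chk t p ∈ N ∧ Good le t Ev (Sl c) c.2 ξ η p := by
  refine (((((ae_tot (K := K)).and (ae_fun (K := K) K)).and (ae_key hG)).and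
    (neg fun (a : (Name P × Name P) × Name P) (β : K) q => ∀ u, le u q → ¬ ∃ β' j, β ≤ β' ∧
      Sl a.1 (β', j) u ∧ Eqv le β' (Zn le t a.2) (Ev j) u)).and
    (den fun (a : (Name P × Name P) × Name P × Name P) (k : P) q => k = q ∧
      Good le t Ev (Sl a.1) a.1.2 a.2.1 a.2.2 q)).mono
    fun N G h0 ⟨⟨⟨⟨h1, h2⟩, h3⟩, h4⟩, h5⟩ c hc ξ hξ η hη ⟨p0, m0, e0⟩ k1 k2 k3 => ?_
  obtain ⟨p1, m1, e1⟩ := h1 ξ hξ fun a => (k1 a).exists
  obtain ⟨p2, m2, e2⟩ := h1 η hη fun a => (k2 a).exists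
  obtain ⟨p3, m3, e3⟩ := h2 ξ hξ fun a b b' => (k1 a).unique
  obtain ⟨p4, m4, e4⟩ := h2 η hη fun a b b' => (k2 a).unique
  obtain ⟨p5, m5, e5⟩ := h4 (c, ξ) ⟨hc, hξ⟩ fun r hr β hβ h6 => by
    obtain ⟨β', j, f1, ⟨g, hg, f2⟩, f3⟩ := k3 ⟨β, hβ⟩
    obtain ⟨g', hg', f4⟩ := (h3 β' j ξ hξ).1 f3
    obtain ⟨s, -, s1, s2, s3⟩ := h0.dir3 hr hg hg'
    exact h6 s s1 ⟨β'.a, j.a, f1, (hq c).slm _ _ _ s2 f2, eqv_mono f4 s3⟩
  obtain ⟨a, ha, a0, a1, a2⟩ := h0.dir3 m0 m1 m2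
  obtain ⟨b, hb, b3, b4, b5⟩ := h0.dir3 m3 m4 m5
  obtain ⟨s, hs, s1, s2⟩ := h0.dir ha hb
  obtain ⟨r, hr, _, hk, rfl, h6⟩ := h5 (c, ξ, η) ⟨hc, hξ, hη⟩ s hs fun q h7 => by
    have q1 := ltrans h7 s1
    have q2 := ltrans h7 s2
    refine ⟨q, lrefl q, q, rfl, fMem_mono (ltrans q1 a0) e0,
      fun x y hy => e1 x y (ltrans hy (ltrans q1 a1)),
      fun x y hy => e2 x y (ltrans hy (ltrans q1 a2)),
      fun x z z' y hy => e3 x z z' y (ltrans hy (ltrans q2 b3)),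
      fun x z z' y hy => e4 x z z' y (ltrans hy (ltrans q2 b4)), fun β y hy => ?_⟩
    by_contra hn
    exact e5 y (ltrans hy (ltrans q2 b5)) β fun u hu h8 => hn ⟨u, hu, h8⟩
  exact ⟨_, hr, hk, h6⟩

theorem ae_dense (hG : Gd le Ev) : Ae le t fun N G => ∀ c, Nm.In t N c → ∀ ξ ∈ N, ∀ η ∈ N, ∀ p,
    Good le t Ev (Sl c) c.2 ξ η p → ∀ k, chk t k ∈ N → (∃ g ∈ G, le (am c g k) p) →
    ∀ β : Sub N (ck t : K → Name P), ∃ k', chk t k' ∈ N ∧ QLe le G (am c) k' k ∧ ∃ u ∈ N, ∃ v ∈ N,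
      (∃ g ∈ G, fMem le (pairN t u v) c.2 g) ∧ ∀ a < β,
      (∃ b : Sub N (ck t : K → Name P), vl G (Zn le t u) (a, b) ∧
        vl G (fun e g => Zn le t ξ e (am c g k')) (a, b)) ∧
      ∃ b : Sub N (ck t : K → Name P), vl G (Zn le t v) (a, b) ∧
        vl G (fun e g => Zn le t η e (am c g k')) (a, b) := by
  refine (((((ae_key hG).and (ae_dec Ev)).and
    (den fun (a : (Name P × Name P) × Name P × Name P × P × K) (w : P × K × K × K) q =>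
      le (am a.1 q w.1) (am a.1 q a.2.2.2.1) ∧ a.2.2.2.2 ≤ w.2.1 ∧
      (∀ x < a.2.2.2.2, ∀ y, le y (am a.1 q w.1) → ∃ u, le u y ∧ ∃ b < w.2.1,
        Zn le t a.2.1 (x, b) u) ∧
      (∀ x < a.2.2.2.2, ∀ y, le y (am a.1 q w.1) → ∃ u, le u y ∧ ∃ b < w.2.1,
        Zn le t a.2.2.1 (x, b) u) ∧
      Eqv le w.2.1 (Zn le t a.2.1) (Ev w.2.2.1) (am a.1 q w.1) ∧
      Eqv le w.2.1 (Zn le t a.2.2.1) (Ev w.2.2.2) (am a.1 q w.1))).and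
    (den fun (a : Name P × K × K × K) (w : Name P × Name P) q => fMem le (pairN t w.1 w.2) a.1 q ∧
      Eqv le a.2.1 (Zn le t w.1) (Ev a.2.2.1) q ∧ Eqv le a.2.1 (Zn le t w.2) (Ev a.2.2.2) q)).and
    (den fun (a : K × K × K) (b : K) q => b < a.2.1 ∧ Ev a.2.2 (a.1, b) q)).mono
    fun N G h0 ⟨⟨⟨⟨h1, h2⟩, h3⟩, h4⟩, h5⟩ c hc ξ hξ η hη p hp k hk ⟨g0, m0, e0⟩ β => ?_
  have hQ := hq c
  obtain ⟨g, hg, ⟨k', b1, j, j'⟩, ⟨m1, m2, m3, m4⟩, e1, e2, e3, e4, e5, e6⟩ :=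
    h3 (c, ξ, η, k, β.a) ⟨hc, hξ, hη, hk, β.mem⟩ g0 m0 fun y hy => by
      have f0 := ltrans (hQ.mono _ _ k hy) e0
      obtain ⟨q1, l1, c1, f1⟩ := hG.reg β.a _ _ (mo_zn ξ) fun a _ z hz => hp.2.1 a z (ltrans hz f0)
      obtain ⟨q2, l2, c2, f2⟩ := hG.reg β.a _ q1 (mo_zn η) fun a _ z hz =>
        hp.2.2.1 a z (ltrans hz (ltrans l1 f0))
      obtain ⟨_, hs⟩ := hG.small (max β.a (max c1 c2))
      obtain ⟨q3, l3, j, -, f3⟩ := hs _ (mo_zn ξ) q2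
      obtain ⟨m, l4, j', -, f4⟩ := hs _ (mo_zn η) q3
      obtain ⟨g1, g2, g3⟩ := quo_split hQ (ltrans l4 (ltrans l3 (ltrans l2 l1)))
      refine ⟨_, g1, (m, max β.a (max c1 c2), j, j'), ?_⟩
      simp only [g2]
      refine ⟨g3, le_max_left _ _, fun x hx z hz => ?_, fun x hx z hz => ?_, eqv_mono f3 l4, f4⟩
      · obtain ⟨u, hu, b, hb, f5⟩ := f1 x hx z (ltrans hz (ltrans l4 (ltrans l3 l2)))
        exact ⟨u, hu, b, lt_max_of_lt_right (lt_max_of_lt_left hb), f5⟩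
      · obtain ⟨u, hu, b, hb, f5⟩ := f2 x hx z (ltrans hz (ltrans l4 l3))
        exact ⟨u, hu, b, lt_max_of_lt_right (lt_max_of_lt_right hb), f5⟩
  obtain ⟨s, hs, s1, s2⟩ := h0.dir hg m0
  obtain ⟨r, hr, ⟨u, v⟩, ⟨hu, hv⟩, f1, f2, f3⟩ := h4 (c.2, b1, j, j') ⟨hc.2, m2, m3, m4⟩ s hs
    fun y hy => by
      by_contra hn
      obtain ⟨m, hm, f1⟩ := hQ.refl (b1, j, j') y hn
      have f2 := hQ.mono _ _ k' (ltrans hm (ltrans hy s1))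
      exact f1 k' ⟨_, lrefl _, (ξ, η), fMem_mono (ltrans (quo_mono hQ (ltrans hm (ltrans hy s1)) e1)
        (ltrans (hQ.mono _ _ k (ltrans hm (ltrans hy s2))) e0)) hp.1, eqv_mono e5 f2,
        eqv_mono e6 f2⟩
  have key : ∀ (ξ u : Name P) (j : K) (m3 : ck t j ∈ N), u ∈ N → (∀ x < β.a, ∀ y,
      le y (am c g k') → ∃ u, le u y ∧ ∃ b < b1, Zn le t ξ (x, b) u) →
      Eqv le b1 (Zn le t ξ) (Ev j) (am c g k') → Eqv le b1 (Zn le t u) (Ev j) r → ∀ a < β,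
      ∃ b : Sub N (ck t : K → Name P), vl G (Zn le t u) (a, b) ∧
        vl G (fun e g => Zn le t ξ e (am c g k')) (a, b) := by
    intro ξ u j m3 hu e3 e5 f2 a ha
    have ha' : a.a < b1 := lt_of_lt_of_le ha e2
    obtain ⟨w, hw, b, hb, f4, f5⟩ := h5 (a.a, b1, j) ⟨a.mem, m2, m3⟩ g hg fun y hy => by
      obtain ⟨z, hz, b, hb, f4⟩ := e3 a.a ha _ (hQ.mono _ _ k' hy)
      obtain ⟨x, hx, f5⟩ := (e5 _ ha' b hb z (ltrans hz (hQ.mono _ _ k' hy))).1 f4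
      exact ⟨_, hQ.up x y k' (ltrans hx hz), b, hb, (hQ.ev _ _ _ _).2 f5⟩
    exact ⟨⟨b, hb⟩, ((h1 ⟨b1, m2⟩ ⟨j, m3⟩ u hu).2 ⟨r, hr, f2⟩ a ha' ⟨b, hb⟩ f4).2 ⟨w, hw, f5⟩,
      (ag_am hQ hG h0 (β := ⟨b1, m2⟩) (h2 ⟨j, m3⟩) hg e5 a ha' ⟨b, hb⟩ f4).2 ⟨w, hw, f5⟩⟩
  exact ⟨k', m1, ⟨g, hg, e1⟩, u, hu, v, hv, ⟨r, hr, f1⟩, fun a ha =>
    ⟨key ξ u j m3 hu e3 e5 f2 a ha, key η v j' m4 hv e4 e6 f3 a ha⟩⟩

theorem ae_out (ht : ∀ p, le p t) (hG : Gd le Ev) : Ae le t fun N G => ∀ c, Nm.In t N c →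
    ∀ ξ ∈ N, ∀ η p, Good le t Ev (Sl c) c.2 ξ η p → ∀ k, chk t k ∈ N →
    (∃ g ∈ G, le (am c g k) p) → ∃ Z : K × K → P → Prop, relN (Nm.nm t) Z ∈ N ∧
      (¬ ∃ g ∈ G, fMem le (relN (Nm.nm t) Z) c.1 g) ∧ ∀ β : Sub N (ck t : K → Name P),
      ∃ k1, chk t k1 ∈ N ∧ QLe le G (am c) k1 k ∧ ∀ k', QLe le G (am c) k' k1 →
        Ag β (vl G (Zn le t (relN (Nm.nm t) Z))) (vl G fun e g => Zn le t ξ e (am c g k')) := by
  refine (((((ae_key hG).and (ae_dec Ev)).and (ae_small hG)).and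
    (den fun (a : (Name P × Name P) × Name P × P) (ζ : Name P) q => ∃ Z, Mo le Z ∧
      ζ = relN (Nm.nm t) Z ∧ OutN le t a.1.1 Z q ∧ ∀ β j v, le v q → Eqv le β Z (Ev j) v →
        ∃ m, le m (am a.1 v a.2.2) ∧ Eqv le β (Zn le t a.2.1) (Ev j) m)).and
    (den fun (a : (Name P × Name P) × Name P × P × K × K) (k1 : P) q =>
      le (am a.1 q k1) (am a.1 q a.2.2.1) ∧
      Eqv le a.2.2.2.1 (Zn le t a.2.1) (Ev a.2.2.2.2) (am a.1 q k1))).mono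
    fun N G h0 ⟨⟨⟨⟨h1, h2⟩, h3⟩, h4⟩, h5⟩ c hc ξ hξ η p hp k hk ⟨g0, m0, e0⟩ => ?_
  have hQ := hq c
  obtain ⟨u, hu, _, hζ, Z, hZ, rfl, e1, e2⟩ := h4 (c, ξ, k) ⟨hc, hξ, hk⟩ g0 m0 fun y hy => by
    obtain ⟨u, hu, Z, hZ, e1, e2⟩ := hQ.avoid _ p (mo_zn ξ) hp.2.2.2.2.2 y k
      (ltrans (hQ.mono _ _ k hy) e0)
    exact ⟨u, hu, _, Z, hZ, rfl, e1, e2⟩
  refine ⟨Z, hζ, fun ⟨g, hg, e3⟩ => ?_, fun β => ?_⟩
  · obtain ⟨s, -, s1, s2⟩ := h0.dir hu hg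
    exact e1 s s1 (fMem_mono s2 e3)
  obtain ⟨_, h6⟩ := h3 β
  obtain ⟨j, -, v, hv, e3⟩ := h6 _ hζ
  obtain ⟨s, hs, s1, s2⟩ := h0.dir hu hv
  obtain ⟨g, hg, k1, m1, e4, e5⟩ := h5 (c, ξ, k, β.a, j.a) ⟨hc, hξ, hk, β.mem, j.mem⟩ s hs
    fun y hy => by
      obtain ⟨m, hm, e4⟩ := e2 β.a j.a y (ltrans hy s1) (eqv_mono (eqv_relN ht hZ e3) (ltrans hy s2))
      obtain ⟨g1, g2, g3⟩ := quo_split hQ hm
      refine ⟨_, g1, m, ?_⟩
      simp only [g2]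
      exact ⟨g3, e4⟩
  refine ⟨k1, m1, ⟨g, hg, e4⟩, fun k' hk' a ha b hb => ?_⟩
  obtain ⟨w, hw, e6⟩ := qle_below hQ h0 hk' hg
  exact ((h1 β j _ hζ).2 ⟨v, hv, e3⟩ a ha b hb).trans
    (ag_am hQ hG h0 (h2 j) hw (eqv_mono e5 e6) a ha b hb).symm

theorem ae_closed : Ae le t fun N G => ∀ c, Nm.In t N c → ∀ φ ∈ N,
    ∀ (β : Sub N (ck t : K → Name P)) (F : Sub N (ck t : K → Name P) → Sub N (chk t : P → Name P)),
    (∀ a k, vl G (Zn le t φ) (a, k) ↔ k = F a) →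
    (∀ a a', a ≤ a' → a' < β → QLe le G (am c) (F a').a (F a).a) →
    ∃ l, chk t l ∈ N ∧ ∀ a < β, QLe le G (am c) l (F a).a := by
  refine ((((ae_fun (K := K) P).and
    (neg fun (a : (Name P × Name P) × Name P × K) (x : K × K) q => x.1 < a.2.2 ∧ x.2 < a.2.2 ∧
      ¬ ∃ m, le m q ∧ ∃ z < a.2.2, ∃ k k' k'' : P, Zn le t a.2.1 (x.1, k) m ∧
        Zn le t a.2.1 (x.2, k') m ∧ Zn le t a.2.1 (z, k'') m ∧
        le (am a.1 m k'') (am a.1 m k) ∧ le (am a.1 m k'') (am a.1 m k'))).and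
    (den fun (a : (Name P × Name P) × Name P × K) (l : P) q => ∀ x < a.2.2, ∀ k y, le y q →
      Zn le t a.2.1 (x, k) y → ∃ u, le u y ∧ le (am a.1 u l) (am a.1 u k))).and
    (den fun (a : (Name P × Name P) × P × P) (_ : Unit) q =>
      le (am a.1 q a.2.1) (am a.1 q a.2.2))).mono
    fun N G h0 ⟨⟨⟨h1, h2⟩, h3⟩, h4⟩ c hc φ hφ β F k1 k2 => ?_
  have hQ := hq c
  obtain ⟨p, hp, e1⟩ := h1 φ hφ fun a b b' e e' => ((k1 a b).1 e).trans ((k1 a b').1 e').symm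
  obtain ⟨p', hp', e2⟩ := h2 (c, φ, β.a) ⟨hc, hφ, β.mem⟩ (by
    rintro r hr ⟨a, a'⟩ ⟨ma, ma'⟩ ⟨l1, l2, hn⟩
    have l3 : max (⟨a, ma⟩ : Sub N (ck t)) ⟨a', ma'⟩ < β := max_lt l1 l2
    obtain ⟨g1, m1, f1⟩ := (k1 ⟨a, ma⟩ _).2 rfl
    obtain ⟨g2, m2, f2⟩ := (k1 ⟨a', ma'⟩ _).2 rfl
    obtain ⟨g3, m3, f3⟩ := (k1 (max ⟨a, ma⟩ ⟨a', ma'⟩) _).2 rfl
    obtain ⟨g4, m4, f4⟩ := k2 _ _ (le_max_left _ _) l3
    obtain ⟨g5, m5, f5⟩ := k2 _ _ (le_max_right _ _) l3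
    obtain ⟨x, hx, x1, x2, x3⟩ := h0.dir3 m1 m2 m3
    obtain ⟨y, hy, y1, y2, y3⟩ := h0.dir3 hr m4 m5
    obtain ⟨s, -, s1, s2⟩ := h0.dir hx hy
    exact hn ⟨s, ltrans s2 y1, _, l3, _, _, _, mo_zn φ _ _ _ (ltrans s1 x1) f1,
      mo_zn φ _ _ _ (ltrans s1 x2) f2, mo_zn φ _ _ _ (ltrans s1 x3) f3,
      quo_mono hQ (ltrans s2 y2) f4, quo_mono hQ (ltrans s2 y3) f5⟩)
  obtain ⟨s, hs, s1, s2⟩ := h0.dir hp hp'
  obtain ⟨r, hr, l, hl, e3⟩ := h3 (c, φ, β.a) ⟨hc, hφ, β.mem⟩ s hs fun q h5 =>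
    hQ.lb β.a _ q (mo_zn φ) (fun a k k' y hy => e1 a k k' y (ltrans hy (ltrans h5 s1)))
      fun a ha a' ha' y hy => by
        by_contra hn
        exact e2 y (ltrans hy (ltrans h5 s2)) (a, a') ⟨ha, ha', hn⟩
  refine ⟨l, hl, fun a ha => ?_⟩
  obtain ⟨g, hg, f1⟩ := (k1 a _).2 rfl
  obtain ⟨x, hx, x1, x2⟩ := h0.dir hr hg
  obtain ⟨w, hw, -, -, f2⟩ := h4 (c, l, (F a).a) ⟨hc, hl, (F a).mem⟩ x hx fun y hy => by
    obtain ⟨u, hu, f2⟩ := e3 a.a ha _ y (ltrans hy x1) (mo_zn φ _ _ _ (ltrans hy x2) f1)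
    exact ⟨u, hu, (), f2⟩
  exact ⟨w, hw, f2⟩

omit hq

section

variable {N : Set (Name P)} {G : Set P} [Fact (ZFC (val N G '' N))]
  (h0 : Gen le (R0 le t) N G) (ht : ∀ p, le p t)
include h0

theorem mem_iff {X : Type u} [Srt (val N G '' N) X] {A : Type} {nm : A → Name P} {j : X → A}
    (hj : Emb N G nm j) {s : PS (val N G '' N) X} {τ : Name P} (hτ : τ ∈ N)
    (e : val N G τ = cd (val N G '' N) s) (x : X) : x ∈ s ↔ ∃ p ∈ G, fMem le (nm (j x)) τ p := by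
  rw [← h0.val_mem_iff (hj x).1 hτ, e, ← (hj x).2, cd_mem_cd_ps]

variable [Srt (val N G '' N) (Sub N (ck t : K → Name P))]
  [Sm (val N G '' N) (Sub N (ck t : K → Name P))]
  (hE : Emb N G (ck t) (Sub.a : Sub N (ck t : K → Name P) → K))
include ht hE

theorem ps_eq {z : PS (val N G '' N) (Sub N (ck t : K → Name P) × Sub N (ck t : K → Name P))}
    {τ : Name P} (hτ : τ ∈ N) (e : val N G τ = cd (val N G '' N) z) :
    (fun e => e ∈ z) = vl G (Zn le t τ) :=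
  funext fun x => propext (mem_iff h0 (h0.emb_prod ht hE hE) hτ e x)

theorem gr_eq {x : Fn (val N G '' N) (Sub N (ck t : K → Name P)) (Sub N (ck t : K → Name P))}
    {τ : Name P} (hτ : τ ∈ N) (e : val N G τ = cd (val N G '' N) x) : gr x = vl G (Zn le t τ) :=
  (funext fun _ => propext Fn.mem_gr.symm).trans (ps_eq h0 ht hE (z := x.gr) hτ e)

theorem exists_ps_name {τ : Name P} (hτ : τ ∈ N) :
    ∃ z : PS (val N G '' N) (Sub N (ck t : K → Name P) × Sub N (ck t : K → Name P)),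
      (fun e => e ∈ z) = vl G (Zn le t τ) :=
  ⟨_, funext fun x => propext ((PS.mem_of (DfF.cd_mem_set DfF.id (Set.mem_image_of_mem _ hτ))).trans
    (by rw [(h0.emb_prod ht hE hE x).2]; exact h0.val_mem_iff (h0.emb_prod ht hE hE x).1 hτ))⟩

theorem val_relN {Z : K × K → P → Prop}
    {z : PS (val N G '' N) (Sub N (ck t : K → Name P) × Sub N (ck t : K → Name P))}
    (h : ∀ e, e ∈ z ↔ cd (val N G '' N) e ∈ val N G (relN (Nm.nm t) Z)) :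
    val N G (relN (Nm.nm t) Z) = cd (val N G '' N) z := by
  ext w
  rw [mem_cd_ps]
  constructor
  · intro hw
    obtain ⟨s, h1, -, rfl⟩ := mem_val.1 hw
    have h2 := (Nm.iff h0 s.1.1).1 h1
    have h3 := (h0.emb_prod ht hE hE (⟨_, h2.1⟩, ⟨_, h2.2⟩)).2
    exact ⟨_, (h _).2 (h3 ▸ hw), h3.symm⟩
  · rintro ⟨e, he, rfl⟩
    exact (h e).1 he

end

theorem df_D {M : Set ZFSet.{0}} [Fact (ZFC M)] {L Q : Type} [Srt M L] [Sm M L] [Srt M Q]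
    (lt : L → L → Prop) (F F' : Q → L × L → Prop) (h1 : DfF M fun p : L × L => lt p.1 p.2)
    (h2 : DfF M fun p : Q × L × L => F p.1 p.2) (h3 : DfF M fun p : Q × L × L => F' p.1 p.2) :
    DfF M fun p : (Q × L) × Fn M L L × Fn M L L => ∀ a, lt a p.1.2 →
      F p.1.1 (a, p.2.1.ap a) ∧ F' p.1.1 (a, p.2.2.ap a) := by
  simp only [all_iff, imp_iff]; fun_prop

theorem ck_mem {N : Set (Name P)} {G : Set P} (h0 : Gen le (R0 le t) N G) (ht : ∀ p, le p t)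
    {a b : K} (ha : ck t a ∈ N) : val N G (ck t a) ∈ val N G (ck t b) ↔ a < b := by
  rw [ck_eq t b, mem_val]
  exact ⟨fun ⟨i, hi, _, e⟩ => vi_ck h0 ht _ _ hi ha e ▸ i.2,
    fun hab => ⟨⟨a, hab⟩, ha, h0.top_mem ht, rfl⟩⟩

include hq in
theorem ae_qs (ht : ∀ p, le p t) (hG : Gd le Ev) : Ae le t fun N G =>
    ∀ [Fact (ZFC (val N G '' N))] [Srt (val N G '' N) (Sub N (ck t : K → Name P))]
      [Sm (val N G '' N) (Sub N (ck t : K → Name P))],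
      Emb N G (ck t) (Sub.a : Sub N (ck t : K → Name P) → K) → ∀ c, Nm.In t N c →
      ∀ (C : PS (val N G '' N)
        (Fn (val N G '' N) (Sub N (ck t : K → Name P)) (Sub N (ck t : K → Name P)) ×
          Fn (val N G '' N) (Sub N (ck t : K → Name P)) (Sub N (ck t : K → Name P))))
        (B : PS (val N G '' N) (PS (val N G '' N)
          (Sub N (ck t : K → Name P) × Sub N (ck t : K → Name P)))),
      val N G c.1 = cd (val N G '' N) B → val N G c.2 = cd (val N G '' N) C → ∀ x y, (x, y) ∈ C →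
      (∀ β : Sub N (ck t : K → Name P), ∃ β' j : Sub N (ck t : K → Name P), β ≤ β' ∧
        vl G (Sl c) (β', j) ∧ Ag β' (gr x) (vl G (Ev j.a))) →
      ∃ (Q : Type) (_ : Srt (val N G '' N) Q) (_ : Sm (val N G '' N) Q) (le : Q → Q → Prop)
        (D : Q → Sub N (ck t : K → Name P) → _ → _ → Prop), QS C B le D := by
  refine ((((((((ae_good hq hG).and (ae_dense hq hG)).and (ae_out hq ht hG)).and
    (ae_closed hq)).and (op fun _ : Unit => relN (chk t : P → Name P) fun _ _ => True)).and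
    (op fun a : (Name P × Name P) × P => relN (chk t) fun k g => le (am a.1 g k) a.2)).and
    (op fun c : Name P × Name P => relN (prodN t (chk t) (chk t))
      fun k g => le (am c g k.1) (am c g k.2))).and
    (op fun a : (Name P × Name P) × Name P => relN (prodN t (chk t) (prodN t (ck t) (ck t)))
      fun (k : P × K × K) g => Zn le t a.2 k.2 (am a.1 g k.1))).mono ?_
  intro N G h0 ⟨⟨⟨⟨⟨⟨⟨h1, h2⟩, h3⟩, h4⟩, o1⟩, o2⟩, o3⟩, o4⟩ _ _ _ hE c hc C B eB eC x y hxy hs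
  have hQ := hq c
  obtain ⟨ξ, hξ, eξ⟩ := cd_mem (M := val N G '' N) x
  obtain ⟨η, hη, eη⟩ := cd_mem (M := val N G '' N) y
  have hC : ∀ {u v}, u ∈ N → v ∈ N → ((∃ g ∈ G, fMem le (pairN t u v) c.2 g) ↔
      pair (val N G u) (val N G v) ∈ cd (val N G '' N) C) := fun hu hv => by
    rw [← h0.val_mem_iff (h0.pairN_mem_iff.2 ⟨hu, hv⟩) hc.2, h0.val_pairN ht hu hv, eC]
  obtain ⟨p, hp, mp, hgood⟩ := h1 c hc ξ hξ η hη
    ((hC hξ hη).2 (by rw [eξ, eη, ← cd_prod (x, y), cd_mem_cd_ps]; exact hxy))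
    (fun a => by rw [← gr_eq h0 ht hE hξ eξ]; exact existsUnique_eq' (a' := x.ap a))
    (fun a => by rw [← gr_eq h0 ht hE hη eη]; exact existsUnique_eq' (a' := y.ap a))
    (by rw [← gr_eq h0 ht hE hξ eξ]; exact hs)
  have vP := h0.vi_chk ht P
  have vK := vi_ck (K := K) h0 ht
  obtain ⟨SP, SmP, hP⟩ := h0.exists_srt vP (o1 () trivial)
  let I : Sub N (chk t : P → Name P) → Prop := fun k => ∃ g ∈ G, le (am c g k.a) p
  let SQ : Srt (val N G '' N) {k // I k} := Srt.sub I (hP.df vP (o2 (c, p) ⟨hc, mp⟩))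
  have SmQ : Sm (val N G '' N) {k // I k} :=
    sm_of_subset (un_mem (X := Sub N (chk t : P → Name P))) fun k => mem_un.2 ⟨k.1, rfl⟩
  have hI : Emb N G (chk t : P → Name P) (fun k : {k // I k} => k.1.a) := fun k => hP k.1
  have down : ∀ (k : {k // I k}) (k' : Sub N (chk t : P → Name P)), QLe le G (am c) k'.a k.1.a →
      I k' := fun k k' h => by
    obtain ⟨g, hg, e⟩ := k.2
    obtain ⟨s, hs, e'⟩ := qle_below hQ h0 h hg
    exact ⟨s, hs, ltrans e' e⟩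
  have coh : ∀ {ξ}, Fun le t K K ξ p → ∀ (k : {k // I k}) (a b b' : Sub N (ck t : K → Name P)),
      vl G (fun e g => Zn le t ξ e (am c g k.1.a)) (a, b) →
      vl G (fun e g => Zn le t ξ e (am c g k.1.a)) (a, b') → b = b' := by
    rintro ξ hf k a b b' ⟨g, hg, e⟩ ⟨g', hg', e'⟩
    obtain ⟨g0, m0, e0⟩ := k.2
    obtain ⟨s, -, s1, s2, s3⟩ := h0.dir3 hg hg' m0
    exact Sub.ext (hf _ _ _ _ (ltrans (hQ.mono _ _ _ s3) e0)
      (mo_zn ξ _ _ _ (hQ.mono _ _ _ s1) e) (mo_zn ξ _ _ _ (hQ.mono _ _ _ s2) e'))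
  have mono : ∀ {ξ k k'}, QLe le G (am c) k' k → ∀ e : Sub N (ck t : K → Name P) ×
      Sub N (ck t : K → Name P), vl G (fun e g => Zn le t ξ e (am c g k)) e →
      vl G (fun e g => Zn le t ξ e (am c g k')) e := by
    rintro ξ k k' h e ⟨g, hg, h5⟩
    obtain ⟨s, hs, h6⟩ := qle_below hQ h0 h hg
    exact ⟨s, hs, mo_zn ξ _ _ _ h6 h5⟩
  have dense : ∀ (k : {k // I k}) (β : Sub N (ck t : K → Name P)), ∃ k' : {k // I k},
      QLe le G (am c) k'.1.a k.1.a ∧ ∃ u v, (u, v) ∈ C ∧ ∀ a < β,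
        vl G (fun e g => Zn le t ξ e (am c g k'.1.a)) (a, u.ap a) ∧
        vl G (fun e g => Zn le t η e (am c g k'.1.a)) (a, v.ap a) := fun k β => by
    obtain ⟨k', m', e1, u, hu, v, hv, e2, e3⟩ := h2 c hc ξ hξ η hη p hgood k.1.a k.1.mem k.2 β
    obtain ⟨⟨u', v'⟩, huv, e4⟩ := mem_cd_ps.1 ((hC hu hv).1 e2)
    obtain ⟨e5, e6⟩ := pair_inj.1 e4
    rw [← gr_eq h0 ht hE hu e5, ← gr_eq h0 ht hE hv e6] at e3
    refine ⟨⟨⟨k', m'⟩, down k _ e1⟩, e1, u', v', huv, fun a ha => ?_⟩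
    obtain ⟨⟨b, (g1 : u'.ap a = b), f1⟩, b', (g2 : v'.ap a = b'), f2⟩ := e3 a ha
    exact ⟨g1 ▸ f1, g2 ▸ f2⟩
  have refl : ∀ k, QLe le G (am c) k k := fun k => ⟨p, hp, lrefl _⟩
  let q0 : {k // I k} := ⟨⟨p, mp⟩, p, hp, by rw [hQ.self]; exact lrefl p⟩
  have hE3 := h0.emb_prod ht hI (h0.emb_prod ht hE hE)
  have v3 := h0.vi_prod ht vP (h0.vi_prod ht vK vK)
  refine ⟨{k // I k}, SQ, SmQ, fun k' k => QLe le G (am c) k'.1.a k.1.a, fun k β u v => ∀ a < β,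
    vl G (fun e g => Zn le t ξ e (am c g k.1.a)) (a, u.ap a) ∧
    vl G (fun e g => Zn le t η e (am c g k.1.a)) (a, v.ap a), ⟨q0⟩,
    (h0.emb_prod ht hI hI).df (h0.vi_prod ht vP vP) (o3 c hc),
    df_D (· < ·) (fun k : {k // I k} => vl G fun e g => Zn le t ξ e (am c g k.1.a))
      (fun k : {k // I k} => vl G fun e g => Zn le t η e (am c g k.1.a)) ((DfF.cd_mem_cd DfF.id.fst DfF.id.snd).congr fun e => by
      rw [(hE e.1).2, (hE e.2).2, ck_mem h0 ht e.1.mem]; rfl)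
      (hE3.df v3 (o4 (c, ξ) ⟨hc, hξ⟩)) (hE3.df v3 (o4 (c, η) ⟨hc, hη⟩)),
    fun k => refl _, fun _ _ _ => qle_trans hQ h0,
    fun _ _ _ _ _ h h' a ha => ⟨mono h _ (h' a ha).1, mono h _ (h' a ha).2⟩,
    fun _ _ _ _ _ _ h e a ha => (e a ha).1 ▸ (e a ha).2 ▸ h a ha,
    fun k _ _ _ _ _ _ a h h' l l' => ⟨coh hgood.2.2.2.1 k a _ _ (h a l).1 (h' a l').1,
      coh hgood.2.2.2.2.1 k a _ _ (h a l).2 (h' a l').2⟩, dense, fun k => ?_, fun β F hF => ?_⟩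
  · obtain ⟨Z, hZ, e1, e2⟩ := h3 c hc ξ hξ η p hgood k.1.a k.1.mem k.2
    obtain ⟨z, ez⟩ := exists_ps_name h0 ht hE hZ
    refine ⟨z, fun hz => e1 ((h0.val_mem_iff hZ hc.1).1 ?_), fun β => ?_⟩
    · rw [eB, val_relN h0 ht hE (z := z) fun e => ?_]
      · exact cd_mem_cd_ps.2 hz
      · rw [(h0.emb_prod ht hE hE e).2, h0.val_mem_iff (h0.emb_prod ht hE hE e).1 hZ]
        exact iff_of_eq (congrFun ez e)
    obtain ⟨k1, m1, e3, e4⟩ := e2 β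
    obtain ⟨k', e5, u, v, -, e6⟩ := dense ⟨⟨k1, m1⟩, down k _ e3⟩ β
    refine ⟨k', qle_trans hQ h0 e5 e3, u, v, e6, fun a ha b hb => ?_⟩
    rw [ez]
    exact (e4 _ e5 a ha b hb).trans ⟨fun h => coh hgood.2.2.2.1 k' a _ _ (e6 a ha).1 h,
      fun (h : u.ap a = b) => h ▸ (e6 a ha).1⟩
  · obtain ⟨φ, hφ, eφ⟩ := cd_mem (M := val N G '' N) F
    obtain ⟨l, hl, e1⟩ := h4 c hc φ hφ β (fun a => (F.ap a).1) (fun a k => by
      have h5 := h0.emb_prod ht hE hP (a, k)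
      refine (h0.val_mem_iff h5.1 hφ).symm.trans ?_
      rw [← h5.2, eφ, mem_cd_fn]
      refine ⟨fun ⟨a', e⟩ => ?_, fun e => ⟨a, e ▸ rfl⟩⟩
      obtain ⟨e1, e2⟩ := pair_inj.1 e
      obtain rfl := cd_inj.1 e1
      exact (cd_inj (M := val N G '' N)).1 e2) fun a a' h h' =>
        h.eq_or_lt.elim (fun e => e ▸ refl _) fun h => hF a a' h h'
    by_cases hβ : ∃ a, a < β
    · obtain ⟨a, ha⟩ := hβ
      exact ⟨⟨⟨l, hl⟩, down (F.ap a) _ (e1 a ha)⟩, e1⟩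
    · exact ⟨q0, fun a ha => absurd ⟨a, ha⟩ hβ⟩

end Mdl

open Mdl ZFSet Pool.Agent.ZF92 Pool.Agent.Forcing92 in
theorem model : MODEL := by
  intro K P _ _ le _ t Ev ht hG
  choose Sl am hq using fun c : Name P × Name P => hG.dich (OutN le t c.1) (XN le t Ev c.2)
    (fun _ _ _ h h' ⟨m, hm, e⟩ => h' ⟨m, ltrans hm h, e⟩)
    fun _ _ _ h h' u hu => h' u (ltrans hu h)
  choose f hf using hG.nomax
  obtain ⟨b0, ⟨a0, l0⟩, hl⟩ := hG.lim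
  choose! f' hf' using hl
  obtain ⟨J, _, R, hR⟩ := (((((((((((ae_key (t := t) hG).and (ae_small hG)).and (ae_reg hG)).and
    (ae_tree ht hG)).and (ae_cover hq hG)).and (ae_qs hq ht hG)).and (op f)).and (op f')).and
    (op fun _ : Unit => (a0, b0, relN (ck t : K → Name P) fun _ _ => True))).and
    (op fun _ : Unit => relN (prodN t (ck t) (prodN t (ck t) (ck t)))
      fun (e : K × K × K) g => Ev e.1 e.2 g)).and
    (op fun c => relN (prodN t (ck t) (ck t)) (Sl c)))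
  obtain ⟨N, G, -, h0, h1⟩ := exists_gen_zfc le t R t
  obtain ⟨⟨⟨⟨⟨⟨⟨⟨⟨⟨k1, k2⟩, k3⟩, k4⟩, k5⟩, k6⟩, o1⟩, o2⟩, o3⟩, o4⟩, o5⟩ := hR N G h0 h1
  obtain ⟨ma, mb, mu⟩ := o3 () trivial
  have : Fact (ZFC (val N G '' N)) := ⟨h0.zfc ht⟩
  have vK := vi_ck (K := K) h0 ht
  obtain ⟨S, Sm', hE⟩ := h0.exists_srt vK mu
  have hE2 := h0.emb_prod ht hE hE
  have v2 := h0.vi_prod ht vK vK
  refine ⟨_, this, _, S, Sm', inferInstance, inferInstance, fun j => vl G (Ev j.a),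
    fun a b => ?_, fun a z hz => ?_, fun a => ⟨⟨_, o1 _ a.mem⟩, hf _⟩,
    ⟨⟨b0, mb⟩, ⟨⟨a0, ma⟩, l0⟩, fun a ha => ⟨⟨_, o2 _ a.mem⟩, hf' _ ha⟩⟩,
    (h0.emb_prod ht hE hE2).df (h0.vi_prod ht vK v2) (o4 () trivial), fun β => ?_,
    fun β x => ?_, fun T t1 t2 => ?_, fun C B => ?_⟩
  · rw [(hE a).2, (hE b).2, ck_mem h0 ht a.mem]; rfl
  · rw [(hE a).2, ck_eq, mem_val] at hz
    obtain ⟨i, hi, -, rfl⟩ := hz
    exact ⟨⟨_, hi⟩, (hE ⟨_, hi⟩).2.symm⟩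
  · obtain ⟨β', h⟩ := k2 β
    refine ⟨β', fun z => ?_⟩
    obtain ⟨τ, hτ, e⟩ := cd_mem (M := val N G '' N) z
    obtain ⟨j, hj, h⟩ := h τ hτ
    exact ⟨j, hj, ps_eq h0 ht hE hτ e ▸ (k1 β j τ hτ).2 h⟩
  · obtain ⟨τ, hτ, e⟩ := cd_mem (M := val N G '' N) x
    have h := k3 τ hτ
    rw [← gr_eq h0 ht hE hτ e] at h
    obtain ⟨c, hc⟩ := h (fun a => ⟨x.ap a, rfl⟩) β
    exact ⟨c, fun a ha => let ⟨_, hb, e⟩ := hc a ha; (e : x.ap a = _).symm ▸ hb⟩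
  · obtain ⟨θ, hθ, e⟩ := cd_mem (M := val N G '' N) T
    have h := k4 θ hθ
    rw [← ps_eq h0 ht hE hθ e] at h
    obtain ⟨τ, hτ, h⟩ := h t1 t2
    obtain ⟨z, ez⟩ := exists_ps_name h0 ht hE hτ
    exact ⟨z, ez ▸ h⟩
  · obtain ⟨τ, hτ, eB⟩ := cd_mem (M := val N G '' N) B
    obtain ⟨σ, hσ, eC⟩ := cd_mem (M := val N G '' N) C
    have hS := fun x => PS.mem_of (hE2.df v2 (o5 (τ, σ) ⟨hτ, hσ⟩)) (x := x)
    refine ⟨_, fun z hz β => ?_, fun x y hxy h => k6 hE (τ, σ) ⟨hτ, hσ⟩ C B eB eC x y hxy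
      fun β => let ⟨β', j, e1, e2, e3⟩ := h β; ⟨β', j, e1, (hS _).1 e2, e3⟩⟩
    obtain ⟨ζ, hζ, e⟩ := cd_mem (M := val N G '' N) z
    obtain ⟨h2, h3⟩ := k5 (τ, σ) ⟨hτ, hσ⟩ ζ hζ
    obtain ⟨β', j, e1, e2, e3⟩ := h3 (fun h4 => hz (by
      have h5 := (h0.val_mem_iff h2 hτ).2 h4
      rw [eB, val_relN h0 ht hE (z := z) fun e' => ?_] at h5
      · exact cd_mem_cd_ps.1 h5
      · rw [(hE2 e').2]
        exact (mem_iff h0 hE2 hζ e e').trans (mem_val_relN (R := Zn le t ζ) v2 (hE2 e').1).symm)) β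
    exact ⟨β', j, e1, (hS _).2 e2, ps_eq h0 ht hE hζ e ▸ e3⟩

end Pool.Agent.MP_d6f492_lc
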