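import Pool.Agent.MP_d6f492_lc.Ref

/-! The coding coordinate and the quotient above a closure point. -/

namespace Pool.Agent.MP_d6f492_lc

open Cardinal Set Function Bit Dat

variable {O : Type} [LinearOrder O] [Dat O] [WellFoundedLT O] {κ c d i : O} {x y p q : Cd O}
  {Z : O × O → Cd O → Prop}

theorem Le_am' (c : O) (r p : Cd O) : Le c r (am c r p) :=
  fun _ hd => step_same fun _ e => (mem_am_lt (e ▸ hd)).symm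

theorem am_le_hi (c : O) (r k : Cd O) : le (am c r k) (hi c k) := fun f => by
  rcases lt_or_ge f c with h | h
  · exact step_empty fun b hb => (h.trans_le hb.2).ne'
  · exact step_same fun b hb => (mem_am_ge (hb ▸ h)).trans (and_iff_left (hb ▸ h)).symm

theorem Eqv.ld {β : O} {W : O × O → Cd O → Prop} (h : Eqv (Ld d) β Z W y) (hx : Ld d x y) :
    Eqv (Ld d) β Z W x := h.mono Ld.trans hx

theorem Eqv.tr {β : O} {W Y : O × O → Cd O → Prop} (h : Eqv (Ld d) β Z W y)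
    (h' : Eqv (Ld d) β W Y y) : Eqv (Ld d) β Z Y y := h.trans Ld.trans h'

theorem cover_step (hκ : Lev κ) (hp : V (th κ) p) {β : O} (hβ : β < κ)
    (H : ∀ ξ, WF (a i ξ) → ∀ y, Ld (th κ) y p → ∃ u, Ld (th κ) u y ∧ ∃ β0 < κ, ∃ j0 k,
      n β0 j0 k ∈ cn ξ ∧ V i (cn k) ∧ le u (cn k) ∧ Eqv (Ld (th κ)) β0 Z (Ev le j0) u) :
    ∃ q, ∃ b < κ, Ld (th κ) q p ∧ β < b ∧
      (∀ ξ, a i ξ ∈ p → ∀ y, Ld (th κ) y q → ∃ u, Ld (th κ) u y ∧ ∃ β0 < b, ∃ j0 k,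
        n β0 j0 k ∈ cn ξ ∧ V i (cn k) ∧ le u (cn k) ∧ Eqv (Ld (th κ)) β0 Z (Ev le j0) u) ∧
      ∀ u < β, ∀ v < β, ∀ y, Ld (th κ) y q → ∃ m, V (th κ) m ∧
        (Z (u, v) m ∨ ∀ x, Ld (th κ) x m → ¬ Z (u, v) x) ∧
        ∃ c ≤ b, Le c m y ∧ ∀ z, Le c z m → le z q → le z m := by
  obtain ⟨q, h1, c, h2, b, h3, h4⟩ := tailb hκ (J := p ⊕ Iio β × Iio β)
    (by simpa [cn0] using hκ.reg.add (hp.small hκ) (hκ.reg.mul (hκ.reg.iio hβ) (hκ.reg.iio hβ)))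
    (Sum.elim (fun t β0 m => ∀ ξ, t.1 = a i ξ → ∃ j0 k, n β0 j0 k ∈ cn ξ ∧ V i (cn k) ∧
        le m (cn k) ∧ Eqv (Ld (th κ)) β0 Z (Ev le j0) m)
      fun t _ m => Z (t.1, t.2) m ∨ ∀ x, Ld (th κ) x m → ¬ Z (t.1, t.2) x) hp (by
    rintro (t | t) y hy
    · by_cases h : ∃ ξ, t.1 = a i ξ
      · obtain ⟨ξ, e⟩ := h
        obtain ⟨u, k1, β0, k2, k3⟩ := H ξ (e ▸ hp.1.1 _ t.2) y hy
        exact ⟨u, k1, β0, k2, fun ξ' e' => (a.inj (e.symm.trans e')).2 ▸ k3⟩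
      · exact ⟨y, hy.1.ld, β, hβ, fun ξ e => absurd ⟨ξ, e⟩ h⟩
    · obtain ⟨m, k1, k2⟩ := decide_ld (Z (t.1, t.2)) hy.1
      exact ⟨m, k1, β, hβ, k2⟩)
  obtain ⟨b', k1, k2⟩ := hκ.reg.succ (max_lt hβ (max_lt h2 h3))
  simp only [max_lt_iff] at k2
  refine ⟨q, b', k1, h1, k2.1, fun ξ hξ y hy => ?_, fun u hu v hv y hy => ?_⟩
  · obtain ⟨m, β0, k3, k4, k5, k6, k7⟩ := h4 (.inl ⟨_, hξ⟩) y hy
    obtain ⟨j0, k, m1, m2, m3, m4⟩ := k5 ξ rfl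
    have m5 : Ld (th κ) (am c m y) y := Tst.am ⟨k4.1.1, k6⟩ hy.1 (h2.trans (lt_th κ)).le
    have m6 := k7 _ (Le_am c m y) (m5.trans hy).2
    exact ⟨_, m5, β0, k3.trans k2.2.2, j0, k, m1, m2, m6.trans m3, m4.ld ⟨m5.1, m6⟩⟩
  · obtain ⟨m, _, -, k4, k5, k6⟩ := h4 (.inr (⟨u, hu⟩, ⟨v, hv⟩)) y hy
    exact ⟨m, k4.1, k5, c, k2.2.1.le, k6⟩

/-- A point that lies in all the promised open sets is covered by a new slot. -/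
theorem cover (hA : At κ i) (hZ : Mo (Ld (th κ)) Z) (hp : V (th κ) p) {β : O} (hβ : β < κ)
    (H : ∀ ξ, WF (a i ξ) → ∀ y, Ld (th κ) y p → ∃ u, Ld (th κ) u y ∧ ∃ β0 < κ, ∃ j0 k,
      n β0 j0 k ∈ cn ξ ∧ V i (cn k) ∧ le u (cn k) ∧ Eqv (Ld (th κ)) β0 Z (Ev le j0) u) :
    ∃ q, Ld (th κ) q p ∧ ∃ β' < κ, ∃ j < κ, β ≤ β' ∧ Slot (th κ) i β' j q ∧
      Eqv (Ld (th κ)) β' Z (Ev le j) q := by
  have hκ := hA.1
  choose q b h1 h2 h3 h4 h5 using fun t : {t : Cd O × O // Ld (th κ) t.1 p ∧ t.2 < κ} =>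
    cover_step (i := i) (Z := Z) hκ t.2.1.1 t.2.2 fun ξ h y hy => H ξ h y (hy.trans t.2.1)
  let st := fun t : {t : Cd O × O // Ld (th κ) t.1 p ∧ t.2 < κ} =>
    (⟨(q t, b t), (h2 t).trans t.2.1, h1 t⟩ : {t : Cd O × O // Ld (th κ) t.1 p ∧ t.2 < κ})
  let S := fun m : ℕ => st^[m] ⟨(p, β), hp.ld, hβ⟩
  have hS : ∀ m, S (m + 1) = st (S m) := fun m => iterate_succ_apply' st m _
  have k1 : ∀ m m', m ≤ m' → le (S m').1.1 (S m).1.1 := by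
    intro m m' h
    induction h with
    | refl => exact le.refl _
    | step _ ih => exact le.trans (by rw [hS]; exact (h2 _).2) ih
  have k2 : ∀ m, le (⋃ m, (S m).1.1) (S m).1.1 := fun m => by
    rw [← sUnion_range]
    refine sUnion_le ?_ ⟨m, rfl⟩
    rintro _ ⟨u, rfl⟩ _ ⟨v, rfl⟩
    exact ⟨_, ⟨max u v, rfl⟩, k1 _ _ (le_max_left _ _), k1 _ _ (le_max_right _ _)⟩
  have k3 : V (th κ) (⋃ m, (S m).1.1) :=
    V.iUnion (fun m => (S m).2.1.1) fun L hL => Or.inl (by simpa using hL.reg.big)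
  obtain ⟨P, hP⟩ : ∃ P, P = ⋃ m, (S m).1.1 := ⟨_, rfl⟩
  rw [← hP] at k2 k3
  have k4 : ∀ m, le P (q (S m)) := fun m => by simpa only [hS] using k2 (m + 1)
  obtain ⟨B0, k5, k6⟩ := hκ.reg.seq fun m => (S m).2.2
  obtain ⟨B, k7, k8⟩ := (wellFounded_lt (α := O)).has_min {c | ∀ m, (S m).1.2 ≤ c}
    ⟨B0, fun m => (k6 m).le⟩
  have k9 : B < κ := (not_lt.1 (k8 B0 fun m => (k6 m).le)).trans_lt k5
  have m1 : ∀ m, b (S m) ≤ B := fun m => by simpa only [hS] using k7 (m + 1)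
  have m2 : ∀ u < B, ∃ m, u < (S m).1.2 := fun u hu => by
    by_contra hn
    push Not at hn
    exact k8 u hn hu
  obtain ⟨j, m3, m4⟩ := name (q := P) hZ le_rfl (k9.trans (lt_th κ)).le fun u hu v hv y hy => by
    obtain ⟨m, hm⟩ := m2 _ (max_lt hu hv)
    obtain ⟨w, n1, n2, c, n3, n4, n5⟩ := h5 (S m) u ((le_max_left _ _).trans_lt hm) v
      ((le_max_right _ _).trans_lt hm) y (hy.trans' (k4 m))
    exact ⟨w, n1, n2, c, n3.trans (m1 m), n4, fun z n6 n7 => n5 z n6 (n7.trans (k4 m))⟩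
  have m5 : j < κ := m3.trans (hκ.g0 _ (hκ.g0 _ k9))
  have m6 : V (th κ) (P ∪ {s i B j []}) :=
    k3.union (V.single ⟨κ, hA, k9, m5, by simp⟩ hA.2.2)
  have m7 : Le i (P ∪ {s i B j []}) P := fun e he => step_same fun t ht =>
    or_iff_left fun h => he.ne (ht.symm.trans (congrArg co h))
  have m8 : le (P ∪ {s i B j []}) P := fun e => by
    refine step_iff.2 ⟨fun ξ h => Or.inl h,
      fun β j z hz ⟨l, n1, n2⟩ => ⟨z, ⟨hz.1, Le.refl _ _⟩, l, Or.inl n1, n2⟩, ?_⟩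
    rintro β' j' ξ z hξ hz ⟨l, n1 | n1, n2⟩
    · exact ⟨z, ⟨hz.1, Le.refl _ _⟩, Or.inl ⟨l, n1, n2⟩⟩
    obtain ⟨rfl, rfl, rfl, rfl⟩ := s.inj n1
    obtain ⟨m, hm⟩ := mem_iUnion.1 (hP ▸ hξ)
    have n3 := (hz.trans' m7).am k3 hA.2.2.le
    obtain ⟨u, n4, β0, n5, j0, k, n6, n7, n8, n9⟩ := h4 (S m) ξ hm _ (n3.trans' (k4 m))
    obtain ⟨γ, r1, -, -, -, r2⟩ := k3.1.1 _ hξ
    obtain rfl := r1.uniq hA
    have r3 := n5.le.trans (m1 m)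
    exact ⟨u, (n4.tst e).trans' (Le_am e z P), Or.inr ⟨β0, j0, k, n6, r3, n7, n8.at e,
      (n9.symm.tr ((m4.less r3).ld (n4.trans n3))).of_ld n4.1 hκ.g0
        (r2 _ _ _ n6) m5 hA.2.1 (lt_th _).le (Le.refl _ _)⟩⟩
  exact ⟨_, ⟨m6, m8.trans (k2 0)⟩, B, k9, j, m5, k7 0, ⟨_, m6, le.refl _, [], Or.inr rfl, by
    simp [Act]⟩, m4.ld ⟨m6, m8⟩⟩

/-- A point that lies in slots of all heights lies in every open set that can be promised. -/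
theorem promise (hA : At κ i) {ξ : O} (hξ : WF (a i ξ)) (hy : Ld (th κ) y p)
    (H : ∀ β < κ, ∀ y, Ld (th κ) y p → ∃ u, Ld (th κ) u y ∧ ∃ β' < κ, ∃ j < κ, β ≤ β' ∧
      Slot (th κ) i β' j u ∧ Eqv (Ld (th κ)) β' Z (Ev le j) u) :
    ∃ u, Ld (th κ) u y ∧ ∃ β0 j0 k, n β0 j0 k ∈ cn ξ ∧ le u (cn k) ∧
      Eqv (Ld (th κ)) β0 Z (Ev le j0) u := by
  have hκ := hA.1
  have h1 : Ld (th κ) (y ∪ {a i ξ}) y := ⟨hy.1.union (V.single hξ hA.2.2),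
    le_sub subset_union_left fun _ _ _ _ _ h _ => h.elim id fun h => nomatch h⟩
  have h2 : ∀ t : y, ∃ b < κ, ∀ β j l, t.1 = s i β j l → β = b := fun t => by
    by_cases h : ∃ β j l, t.1 = s i β j l
    · obtain ⟨β, j, l, e⟩ := h
      obtain ⟨γ, k1, k2, -⟩ := e ▸ hy.1.1.1 _ t.2
      exact ⟨β, k1.uniq hA ▸ k2, fun _ _ _ e' => (s.inj (e'.symm.trans e)).2.1⟩
    · obtain ⟨b, hb, -⟩ := hκ.reg.list (l := []) (by simp)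
      exact ⟨b, hb, fun β j l e => absurd ⟨β, j, l, e⟩ h⟩
  choose f h2 h3 using h2
  obtain ⟨b, h4, h5⟩ := hκ.reg.bd (hy.1.small hκ) h2
  obtain ⟨u, h6, β', -, j, h7, h8, h9, k1⟩ := H b h4 _ (h1.trans hy)
  obtain ⟨v, k2, ⟨l, k3 | k3, -⟩ | ⟨β0, j0, k, k3, k4, k5, k6, k7⟩⟩ := h9.alw h6 (Or.inr rfl)
  · exact absurd (h3 ⟨_, k3⟩ _ _ _ rfl ▸ h5 ⟨_, k3⟩) h8.not_gt
  · cases k3
  obtain ⟨γ, r1, -, -, -, r2⟩ := hξ
  obtain rfl := r1.uniq hA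
  exact ⟨v, k2.trans (h6.trans h1), β0, j0, k, k3, k6.top k5.2, ((k1.less k4).ld k2).tr
    (k7.to_ld hκ.g0 (r2 _ _ _ k3) h7 hA.2.1 hA.2.2.le (Le.refl _ _)).symm⟩

/-- Lower bounds of short named chains in the quotient above `c`. -/
theorem lower (hκ : Lev κ) (hc : κ ≤ c) (hd : c ≤ d) {β : O} (hβ : β < κ)
    {F : O → Cd O → Cd O → Prop} (hF : ∀ u k x y, Ld d x y → F u k y → F u k x)
    (hV : ∀ u k y, F u k y → V d k) (hp : V d p)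
    (h1 : ∀ u k k' y, Ld d y p → F u k y → F u k' y → k = k')
    (h2 : ∀ u < β, ∀ v < β, ∀ y, Ld d y p → ∃ m, Ld d m y ∧ ∃ w < β, ∃ k k' k'', F u k m ∧
      F v k' m ∧ F w k'' m ∧ le (am c m k'') (am c m k) ∧ le (am c m k'') (am c m k')) :
    ∃ q, Ld d q p ∧ ∃ l, V d l ∧ ∀ u < β, ∀ k y, Ld d y q → F u k y →
      ∃ x, Ld d x y ∧ le (am c x l) (am c x k) := by
  obtain ⟨q, h3, h4⟩ := tail (cut_th β) (J := Iio β × Iio β) (fun L hL h =>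
      hL.reg.prod (hL.reg.iio ((lt_th β).trans h)) (hL.reg.iio ((lt_th β).trans h)))
    (fun t m => ∃ w < β, ∃ k k' k'', F t.1 k m ∧ F t.2 k' m ∧ F w k'' m ∧
      le (am c m k'') (am c m k) ∧ le (am c m k'') (am c m k')) hp fun t => h2 _ t.1.2 _ t.2.2
  have h5 := hκ.th β hβ
  have h6 : th β ≤ c := h5.le.trans hc
  let Ix : O → O → Cd O → Prop := fun u r k => u < β ∧ r < g0 (th β) ∧ (∀ b ∈ cn r, b.co < th β) ∧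
    (∃ x, Ld d x q ∧ le x (cn r)) ∧ ∀ x, Ld d x q → le x (cn r) → F u k x
  have hI : ∀ {w k m y}, w < β → F w k m → Val m → Ld d y q → Le (th β) m y →
      (∀ z, Le (th β) z m → le z q → le z m) → Ix w (code (lo (th β) m)) k := by
    intro w k m y k1 k2 k3 k4 k5 k6
    have k7 := k3.lo (th β)
    refine ⟨k1, k7.code, k7.cn.symm ▸ k7.2, ⟨_, (Tst.am ⟨k3, k5⟩ k4.1 (h6.trans hd)).trans k4,
      k7.cn.symm ▸ (Le_am _ m y).to_lo⟩, fun x k8 k9 => hF _ _ _ _ ⟨k8.1, k6 x ?_ k8.2⟩ k2⟩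
    exact ((k7.cn ▸ k9).at _).of_lo
  let L : Cd O := ⋃ t : Iio β × Iio (g0 (th β)), {b | ∃ k, Ix t.1 t.2 k ∧ b ∈ cond t.2.1 '' hi c k}
  have hL : ∀ {u r k b}, Ix u r k → b ∈ hi c k → cond r b ∈ L := fun {u r k b} h hb =>
    mem_iUnion.2 ⟨(⟨u, h.1⟩, ⟨r, h.2.1⟩), k, h, b, hb, rfl⟩
  have hL' : ∀ b ∈ L, c ≤ b.co := fun b hb => by
    obtain ⟨t, k, -, b, h, rfl⟩ := mem_iUnion.1 hb
    exact cond_co _ b ▸ h.2
  have hV' : V d L := V.iUnion (fun t => by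
    by_cases h : ∃ k, Ix t.1 t.2 k
    · obtain ⟨k, -, -, -, ⟨x, k1, k2⟩, k3⟩ := h
      refine ((hV _ _ _ (k3 x k1 k2)).cond (cut_th β) t.2.2).sub ?_
      rintro _ ⟨k', k4, b, hb, rfl⟩
      exact ⟨b, ⟨h1 _ _ _ x (k1.trans h3) (k4.2.2.2.2 x k1 k2) (k3 x k1 k2) ▸ hb.1,
        h6.trans hb.2⟩, rfl⟩
    · exact (V.empty d).sub fun b ⟨k, hk, _⟩ => h ⟨k, hk⟩) fun M hM => by
    rcases lt_or_ge M κ with h | h
    · exact Or.inr ⟨∅, (V.empty d).1, fun t b hb => (hb.2.trans (hκ.th M h)).not_ge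
        (hc.trans (hL' b (mem_iUnion.2 ⟨t, hb.1⟩)))⟩
    · exact Or.inl ((hκ.reg.prod (hκ.reg.iio hβ) (hκ.reg.iio (hκ.g0 _ h5))).trans_le (cn0_mono h))
  have key : ∀ e x u r k, Ix u r k → Le c x q → le x (cn r) → Le e x L → Le e x (hi c k) := by
    intro e
    induction e using WellFoundedLT.induction with
    | ind e ih =>
    intro x u r k k1 k2 k3 k4 f hf
    rcases lt_or_ge f c with k5 | k5
    · exact step_empty fun b hb => (k5.trans_le hb.2).ne'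
    have k0 := (k4 f hf).phi
    refine step_iff.2 ⟨fun ξ h => k0.pr ξ (hL k1 h), fun β' j z hz ⟨l, k6, k7⟩ => k0.sl β' j z hz
      ⟨r :: l, hL k1 k6, List.forall_mem_cons.2 ⟨hz.2.trans (k3.at f), k7⟩⟩,
      fun β' j ξ z hξ hz k6 => ?_⟩
    obtain ⟨w, hw, ⟨l, k7, k8⟩ | k7⟩ := k0.nw β' j ξ z (hL k1 hξ) hz k6
    swap
    · exact ⟨w, hw, Or.inr k7⟩
    obtain ⟨⟨u', r'⟩, k', m1, b, m2, m3⟩ := mem_iUnion.1 k7
    obtain ⟨l', rfl, rfl⟩ := cond_eq_s m3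
    obtain ⟨m4, m5⟩ := List.forall_mem_cons.1 k8
    have m6 := hw.trans hz
    have m7 : Le c w q := (m6.2.mono k5).trans k2
    have m8 : Ld d (am c w q) q := Tst.am ⟨hw.1, m7⟩ h3.1 hd
    obtain ⟨m, n1, ⟨w'', n2, i1, i2, k'', n3, n4, n5, n6, n7⟩, n8, n9⟩ := h4 (⟨u, k1.1⟩, u') _ m8
    have r1 : Ld d (am (th β) m (am c w q)) (am c w q) := Tst.am ⟨n1.1.1, n8⟩ m8.1 (h6.trans hd)
    have r2 := r1.trans m8
    have r3 : Ld d _ m := ⟨r1.1, n9 _ (Le_am _ _ _) r2.2⟩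
    have r4 : Le (th β) (am (th β) m (am c w q)) w := (r1.2.at _).trans ((Le_am c w q).mono h6)
    obtain rfl := h1 _ _ _ _ (r2.trans h3) (hF _ _ _ _ r3 n3) (k1.2.2.2.2 _ r2
      ((r4.trans ((m6.2.mono (h6.trans k5)).trans (k3.at _))).top k1.2.2.1))
    obtain rfl := h1 _ _ _ _ (r2.trans h3) (hF _ _ _ _ r3 n4) (m1.2.2.2.2 _ r2
      ((r4.trans (m4.mono (h6.trans k5))).top m1.2.2.1))
    have r5 : le (am (th β) m w) w := (n8.trans ((Le_am c w q).mono h6)).am_le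
    have r6 : Le c (am (th β) m w) q := (r5.at c).trans m7
    have r7 : Tst (Le f) (am (th β) m w) w := ⟨n1.1.1.am hw.1 _, r5.at f⟩
    have r8 : Le f (am (th β) m w) (am c m k'') := Le.meet ((Le_am' c _ q).trans ((n9 _
      (((Le_am c _ q).mono h6).trans (Le_am _ m w)) r6.am_le).at c))
      (ih f hf _ _ _ _ (hI n2 n5 n1.1.1 m8 n8 n9) r6
        ((n1.1.1.lo _).cn.symm ▸ (Le_am _ m w).to_lo) ((r7.trans m6).2.trans (k4.mono hf.le)))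
    obtain ⟨y5, t1, t2⟩ := (n7 f).phi.sl β' j _ ⟨r7.1, r8⟩
      ⟨l', Or.inr m2, Act.mono m5 r7.2⟩
    obtain ⟨y6, t3, t4⟩ := (n6 f).phi.nw β' j ξ y5 (Or.inr hξ) (t1.trans' r8) t2
    exact ⟨y6, t3.trans (t1.trans (r7.trans hw)), t4.imp_left fun ⟨l, t5, t6⟩ =>
      ⟨l, ⟨(mem_am_ge k5).1 t5, k5⟩, t6⟩⟩
  refine ⟨q, h3, L, hV', fun u hu k y hy hk => ?_⟩
  obtain ⟨m, n1, ⟨-, -, i1, -, -, n3, -⟩, n8, n9⟩ := h4 (⟨u, hu⟩, ⟨u, hu⟩) y hy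
  have r1 : Ld d (am (th β) m y) y := Tst.am ⟨n1.1.1, n8⟩ hy.1 (h6.trans hd)
  have r2 := r1.trans hy
  obtain rfl := h1 _ _ _ _ (r2.trans h3) (hF _ _ _ _ ⟨r1.1, n9 _ (Le_am _ _ _) r2.2⟩ n3)
    (hF _ _ _ _ r1 hk)
  refine ⟨_, r1, le_of_all fun e => (Le_am c _ L).meet (key e _ _ _ _ (hI hu n3 n1.1.1 hy n8 n9)
    ((Le_am c _ L).trans (r2.2.at c)) ((n1.1.1.lo _).cn.symm ▸
      (((Le_am c _ L).mono h6).trans (Le_am _ m y)).to_lo) fun f _ => ?_)⟩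
  rcases lt_or_ge f c with h | h
  · exact step_empty fun b hb => (h.trans_le (hL' b hb)).ne'
  · exact step_same fun b hb => mem_am_ge (hb ▸ h)

omit [WellFoundedLT O] in
theorem fam_bd (hκ : Lev κ) (hc : Reg c) (h : κ < c) {Y : Set (Cd O)} (h1 : #Y ≤ cn0 κ)
    (h2 : ∀ x ∈ Y, V (th κ) x ∧ V c x) : ∃ b < c, ∀ x ∈ Y, V b x := by
  obtain ⟨b, h3, h4⟩ := Bd.shrink (t := ⋃ x : Y, x.1) (fun b hb =>
    let ⟨x, hx⟩ := mem_iUnion.1 hb; (h2 _ x.2).2.bd b hx) hc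
    ((hκ.reg.union_le h1 fun x => ((h2 _ x.2).1.small hκ).le).trans_lt (hc.iio h))
  exact ⟨b, h3, fun x hx => ⟨(h2 x hx).1.1, fun t ht => (h4 t (mem_iUnion.2 ⟨⟨x, hx⟩, ht⟩)).co⟩⟩

omit [WellFoundedLT O] in
theorem exists_sys (hκ : Lev κ) (hc : Reg c) (hg : Cl g0 c) (h : κ < c) (hd : c ≤ th κ)
    {A : O → O → Set (Cd O)} (h1 : ∀ β j, #(A β j) ≤ cn0 κ) (h2 : ∀ β j, ∀ x ∈ A β j, V c x) :
    ∃ ξ < c, #(cn ξ) ≤ cn0 κ ∧ (∀ β j k, n β j k ∈ cn ξ → β < κ ∧ j < κ ∧ cn k ∈ A β j) ∧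
      ∀ β < κ, ∀ j < κ, ∀ x ∈ A β j, ∃ k, cn k = x ∧ n β j k ∈ cn ξ := by
  let t : Cd O := ⋃ z : Iio κ × Iio κ, (fun x => n z.1.1 z.2.1 (code x)) '' A z.1 z.2
  have h3 : #t ≤ cn0 κ :=
    hκ.reg.union_le (hκ.reg.prod_le le_rfl le_rfl) fun z => mk_image_le.trans (h1 _ _)
  have h4 : Bd t c := fun b hb => by
    obtain ⟨z, x, hx, rfl⟩ := mem_iUnion.1 hb
    exact lt_n.2 ⟨z.1.2.trans h, z.2.2.trans h, (h2 _ _ x hx).bd.code hc hg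
      ((((h2 _ _ x hx).mono hd).small hκ).trans (hc.iio h))⟩
  refine ⟨code t, h4.code hc hg (h3.trans_lt (hc.iio h)), ?_⟩
  rw [cn_code h4]
  refine ⟨h3, fun β j k hk => ?_, fun β hβ j hj x hx =>
    ⟨_, (h2 _ _ x hx).cn, mem_iUnion.2 ⟨(⟨β, hβ⟩, ⟨j, hj⟩), x, hx, rfl⟩⟩⟩
  obtain ⟨z, x, hx, e⟩ := mem_iUnion.1 hk
  obtain ⟨rfl, rfl, rfl⟩ := n.inj e
  exact ⟨z.1.2, z.2.2, (h2 _ _ x hx).cn.symm ▸ hx⟩

/-- The closure point and the coding coordinate. -/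
theorem quot [OrderBot O] (hκ : Lev κ) (Out : (O × O → Cd O → Prop) → Cd O → Prop)
    (hO : ∀ Z x y, Ld (th κ) x y → Out Z y → Out Z x) {ι : Type} (hι : #ι ≤ cn0 κ)
    (X : ι → Cd O → Prop) (hX : Mo (Ld (th κ)) X) : ∃ c i, κ ≤ c ∧ c ≤ th κ ∧
    (∀ t y, V (th κ) y → X t y → ∃ m, Ld (th κ) m y ∧ ∀ k, V (th κ) k → X t (am c m k)) ∧
    (∀ Z y, Mo (Ld (th κ)) Z → V (th κ) y → Out Z y → ∀ β < κ, ∃ u, Ld (th κ) u y ∧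
      ∃ β' < κ, ∃ j < κ, β ≤ β' ∧ Slot (th κ) i β' j u ∧ Eqv (Ld (th κ)) β' Z (Ev le j) u) ∧
    ∀ W p, (∀ β < κ, ∀ y, Ld (th κ) y p → ∃ u, Ld (th κ) u y ∧ ∃ β' < κ, ∃ j < κ, β ≤ β' ∧
        Slot (th κ) i β' j u ∧ Eqv (Ld (th κ)) β' W (Ev le j) u) →
      ∀ y k, V (th κ) y → V (th κ) k → le (am c y k) p → ∃ u, Ld (th κ) u y ∧ ∃ Z,
        Mo (Ld (th κ)) Z ∧ Out Z u ∧ ∀ β < κ, ∀ j < κ, ∀ v, Ld (th κ) v u →
          Eqv (Ld (th κ)) β Z (Ev le j) v →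
          ∃ m, Ld (th κ) m (am c v k) ∧ Eqv (Ld (th κ)) β W (Ev le j) m := by
  have hr := (th_mh κ).reg
  choose Y h1 h2 h3 using fun ξ : O => cc hκ {y | V (th κ) y ∧ ∃ Z, Mo (Ld (th κ)) Z ∧ Out Z y ∧
    ∀ β j k, n β j k ∈ cn ξ → ∀ m, Ld (th κ) m y → le m (cn k) →
      ¬ Eqv (Ld (th κ)) β Z (Ev le j) m} fun _ h => h.1
  choose Y' h4 h5 h6 using fun t : ι => cc hκ {y | V (th κ) y ∧ X t y} fun _ h => h.1
  choose f h7 h8 using fun ξ => fam_bd hκ hr (lt_th κ) (h2 ξ) fun x hx => ⟨(h1 ξ hx).1, (h1 ξ hx).1⟩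
  obtain ⟨b, h9, k1⟩ := fam_bd hκ hr (lt_th κ) (hκ.reg.union_le hι h5) fun x hx =>
    let ⟨t, ht⟩ := mem_iUnion.1 hx; ⟨(h4 t ht).1, (h4 t ht).1⟩
  obtain ⟨c, k2, k3, k4, k5⟩ := (th_mh κ).refl (fun x => max (g0 x) (f x))
    (fun x hx => max_lt (th_cl κ x hx) (h7 x)) (max κ b) (max_lt (lt_th κ) h9)
  obtain ⟨k6, k7⟩ := max_lt_iff.1 k3
  have k8 : Cl g0 c := fun x hx => (max_lt_iff.1 (k5 x hx)).1
  let Fam : O → Prop := fun ξ => ξ < c ∧ #(cn ξ) ≤ cn0 κ ∧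
    (∀ β j k, n β j k ∈ cn ξ → β < κ ∧ j < κ ∧ V c (cn k)) ∧ ∀ Z y, Mo (Ld (th κ)) Z →
      V (th κ) y → Out Z y → ∃ m, Ld (th κ) m y ∧ ∃ β j k, n β j k ∈ cn ξ ∧ le m (cn k) ∧
        Eqv (Ld (th κ)) β Z (Ev le j) m
  have k9 : Bd {t | ∃ ξ, Fam ξ ∧ t = n ξ ξ ξ} c := by
    rintro _ ⟨ξ, h, rfl⟩
    exact lt_n.2 ⟨h.1, h.1, h.1⟩
  obtain ⟨i, m1, m2, m3⟩ := bk_spec (le_max_right c (code {t | ∃ ξ, Fam ξ ∧ t = n ξ ξ ξ}))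
  have m4 : c < i := (le_max_left _ _).trans_lt m1
  have hA : At κ i := ⟨hκ, (k6.trans m4).le,
    m2.trans (th_cl κ _ (max_lt k2 ((code_lt k9).trans (th_cl κ c k2))))⟩
  have m5 : ∀ ξ, WF (a i ξ) ↔ Fam ξ := fun ξ => by
    simp only [WF, m3, cn_code k9]
    refine ⟨?_, fun h => ⟨κ, hA, h.1.trans m4, ⟨ξ, h, rfl⟩, h.2.1,
      fun u v k hk => (h.2.2.1 u v k hk).2.1⟩⟩
    rintro ⟨-, -, -, ⟨ξ', h, e⟩, -⟩
    exact (n.inj e).1 ▸ h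
  refine ⟨c, i, k6.le, k2.le, fun t y hy h => ?_, fun Z y hZ hy h β hβ => cover hA hZ hy hβ
    fun ξ hξ z hz => ?_, fun W p H y k hy hk h => ?_⟩
  · obtain ⟨x, hx, m, n1, n2⟩ := h6 t y ⟨hy, h⟩
    exact ⟨m, n1, fun k hk => hX t x _ ⟨hk.am n1.1.1 k2.le, (n2.at c).am_le'
      ((k1 x (mem_iUnion.2 ⟨t, hx⟩)).mono k7.le).2 k⟩ (h4 t hx).2⟩
  · obtain ⟨-, -, n1, n2⟩ := (m5 ξ).1 hξ
    obtain ⟨m, n3, β0, j0, k, n4, n5⟩ := n2 Z z hZ hz.1 (hO Z z y hz h)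
    exact ⟨m, n3, β0, (n1 _ _ _ n4).1, j0, k, n4, (n1 _ _ _ n4).2.2.mono m4.le, n5⟩
  choose A n1 n2 n3 using fun β j : O => cc hκ {q | V c q ∧ ∀ m, Ld (th κ) m q → le m (hi c k) →
    ¬ Eqv (Ld (th κ)) β W (Ev le j) m} fun _ h => h.1.mono k2.le
  obtain ⟨ξ, n4, -, n5, n6⟩ := exists_sys hκ k4 k8 k6 k2.le n2 fun β j x hx => (n1 β j hx).1
  have n7 : ∀ x ∈ Y ξ, V c x := fun x hx => (h8 ξ x hx).mono (max_lt_iff.1 (k5 ξ n4)).2.le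
  obtain ⟨ζ, r1, r2, r3, r4⟩ := exists_sys hκ k4 k8 k6 k2.le
    (A := fun β j => A β j ∪ {x ∈ Y ξ | β = ⊥})
    (fun β j => (mk_union_le _ _).trans (hκ.reg.add_le (n2 β j)
      ((mk_le_mk_of_subset fun _ h => h.1).trans (h2 ξ))))
    fun β j x hx => hx.elim (fun h => (n1 β j h).1) fun h => n7 x h.1
  have r5 : Fam ζ := ⟨r1, r2, fun β j k h => ⟨(r3 β j k h).1, (r3 β j k h).2.1,
    (r3 β j k h).2.2.elim (fun h => (n1 β j h).1) fun h => n7 _ h.1⟩, fun Z z hZ hz h => by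
      by_cases h' : ∀ β j k, n β j k ∈ cn ξ → ∀ m, Ld (th κ) m z → le m (cn k) →
        ¬ Eqv (Ld (th κ)) β Z (Ev le j) m
      · obtain ⟨x, hx, m, r6, r7⟩ := h3 ξ z ⟨hz, Z, hZ, h, h'⟩
        obtain ⟨k', r8, r9⟩ := r4 ⊥ hκ.reg.bot ⊥ hκ.reg.bot x (Or.inr ⟨hx, rfl⟩)
        exact ⟨m, r6, ⊥, ⊥, k', r9, r8 ▸ r7, fun _ h => absurd h not_lt_bot⟩
      · push Not at h'
        obtain ⟨β, j, k', r6, m, r7, r8, r9⟩ := h'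
        obtain ⟨t1, t2, t3⟩ := n5 β j k' r6
        obtain ⟨k'', t4, t5⟩ := r4 β t1 j t2 _ (Or.inl t3)
        exact ⟨m, r7, β, j, k'', t5, t4 ▸ r8, r9⟩⟩
  obtain ⟨m, r6, β0, j0, k', r7, r8, r9⟩ := promise hA ((m5 ζ).2 r5) ⟨hk.am hy.1 k2.le, h⟩ H
  have t1 := ((r3 _ _ _ r7).2.2.resolve_left fun h =>
    (n1 _ _ h).2 m ⟨r6.1, r8⟩ (r6.2.trans (am_le_hi c y k)) r9).1
  obtain ⟨-, Z, t2, t3, t4⟩ := h1 ξ t1
  have t5 : Ld (th κ) (am c m y) y := Tst.am ⟨r6.1.1, (r6.2.at c).trans (Le_am c y k)⟩ hy k2.le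
  have t6 : Ld (th κ) (am c m y) (cn k') := ⟨t5.1, (r8.at c).am_le' (n7 _ t1).2 y⟩
  refine ⟨_, t5, Z, t2, hO Z _ _ t6 t3, fun β hβ j hj v hv t7 => ?_⟩
  by_contra hn
  obtain ⟨x, hx, w, t8, t9⟩ := n3 β j (lo c v) ⟨hv.1.1.lo c, fun w u1 u2 u3 => hn ⟨w,
    ⟨u1.1, le_of_all fun e => (u1.2.at c).of_lo.meet (u2.at e)⟩, u3⟩⟩
  obtain ⟨k'', u1, u2⟩ := n6 β hβ j hj x hx
  have u3 : Ld (th κ) (am c w v) v := Tst.am ⟨t8.1.1, (t8.2.at c).of_lo⟩ hv.1 k2.le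
  exact t4 β j k'' u2 _ (u3.trans (hv.trans t6)) (u1 ▸ (t9.at c).am_le' (n1 β j hx).1.2 v)
    (t7.ld u3)

end Pool.Agent.MP_d6f492_lc
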