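import Pool.Agent.MP_d6f492_lc.Tail

/-! The tree property is forced at some level. -/

namespace Pool.Agent.MP_d6f492_lc

open Cardinal Set Function Bit Dat

variable {O : Type} [LinearOrder O]

/-- Moving a bit to the block of `γ`. -/
def pf (γ : O) (e : O → O) : Bit O → Bit O
  | s c β j l => s (max γ (e c)) β j l
  | a c x => a (max γ (e c)) (e x)
  | b => b

/-- The ordinals of a condition. -/
def os (q : Cd O) : Set O := ⋃ b : q, {x | x ∈ b.1.ords}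

theorem os_le {γ : O} (h : Reg γ) {q : Cd O} (hq : #q ≤ cn0 γ) : #(os q) ≤ cn0 γ :=
  h.union_le hq fun b => (b.1.ords.finite_toSet.lt_aleph0.trans h.big).le

variable [Dat O] {γ κ c d k1 k2 : O} {e e' : O → O} {x y p q : Cd O}

def rep (γ : O) (e : O → O) (k1 k2 : O) : Cd O := cn k1 ∪ pf γ e '' cn k2

theorem exists_rep (hγ : Lev γ) (hq : V (th γ) q) (he : ∀ x ∈ os q, ∃ y < γ, e y = x) :
    ∃ k1 < γ, ∃ k2 < γ, q = rep γ e k1 k2 := by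
  choose! i h1 h2 using he
  let pb : Bit O → Bit O := Bit.rec (fun c β j l => s (i c) β j l) (fun c x => a (i c) (i x)) n
  have h3 : ∀ b ∈ hi γ q, (pb b).lt γ ∧ pf γ e (pb b) = b := by
    rintro b ⟨hb, h4⟩
    have h5 : ∀ x ∈ b.ords, x ∈ os q := fun x hx => mem_iUnion.2 ⟨⟨b, hb⟩, hx⟩
    have h6 := hq.1.1 b hb
    cases b with
    | s c β j l =>
      obtain ⟨γ', k1, k2⟩ := h6
      obtain rfl := k1.uniq ⟨hγ, h4, hq.2 _ hb⟩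
      have h7 := h5 c (by simp [ords])
      exact ⟨lt_s.2 ⟨h1 c h7, k2⟩, by simp only [pb, pf, h2 c h7, max_eq_right k1.2.1]⟩
    | a c ξ =>
      have h7 := h5 c (by simp [ords])
      have h8 := h5 ξ (by simp [ords])
      exact ⟨lt_a.2 ⟨h1 c h7, h1 ξ h8⟩, by
        simp only [pb, pf, h2 c h7, h2 ξ h8, max_eq_right (show γ ≤ c from h4)]⟩
    | n => exact h6.elim
  have h4 : Bd (pb '' hi γ q) γ := by rintro _ ⟨b, hb, rfl⟩; exact (h3 b hb).1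
  have h5 := hq.small hγ
  refine ⟨_, (hq.1.lo γ).bd.code hγ.reg hγ.g0 ((mk_le_mk_of_subset fun _ h => h.1).trans_lt h5), _,
    h4.code hγ.reg hγ.g0 ((mk_image_le.trans (mk_le_mk_of_subset fun _ h => h.1)).trans_lt h5), ?_⟩
  rw [rep, (hq.1.lo γ).cn, cn_code h4, image_image, image_congr fun b hb => (h3 b hb).2, image_id']
  exact Set.ext fun b => ⟨fun h => (lt_or_ge b.co γ).imp (fun h' => ⟨h, h'⟩) fun h' => ⟨h, h'⟩,
    fun h => h.elim And.left And.left⟩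

theorem rep_lo {b : Bit O} (h : b ∈ rep κ e k1 k2) (hb : WF b) (hc : b.co < κ) : b ∈ cn k1 := by
  refine h.elim id ?_
  rintro ⟨b, -, rfl⟩
  cases b with
  | s => exact absurd hc (le_max_left _ _).not_gt
  | a => exact absurd hc (le_max_left _ _).not_gt
  | n => exact hb.elim

theorem rep_s {β j : O} {l : List O} (hγ : Lev γ) (h1 : k1 < γ) (h2 : k2 < γ)
    (h : s c β j l ∈ rep κ e k1 k2) (hc : γ ≤ c) :
    ∃ u < γ, c = max κ (e u) ∧ β < γ ∧ j < γ ∧ (∀ k ∈ l, k < γ) ∧ s u β j l ∈ cn k2 := by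
  rcases h with h | ⟨b, hb, h⟩
  · exact absurd (cn_lt hγ.g0 h1 _ h).co hc.not_gt
  · have h3 := cn_lt hγ.g0 h2 _ hb
    cases b with
    | s u β' j' l' =>
      obtain ⟨rfl, rfl, rfl, rfl⟩ := s.inj h
      obtain ⟨h4, h5, h6, h7⟩ := lt_s.1 h3
      exact ⟨u, h4, rfl, h5, h6, h7, hb⟩
    | a => cases h
    | n => cases h

theorem rep_a {ξ : O} (hγ : Lev γ) (h1 : k1 < γ) (h2 : k2 < γ)
    (h : a c ξ ∈ rep κ e k1 k2) (hc : γ ≤ c) :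
    ∃ u < γ, ∃ v < γ, c = max κ (e u) ∧ ξ = e v ∧ a u v ∈ cn k2 := by
  rcases h with h | ⟨b, hb, h⟩
  · exact absurd (cn_lt hγ.g0 h1 _ h).co hc.not_gt
  · have h3 := cn_lt hγ.g0 h2 _ hb
    cases b with
    | s => cases h
    | a u v =>
      obtain ⟨rfl, rfl⟩ := a.inj h
      exact ⟨u, (lt_a.1 h3).1, v, (lt_a.1 h3).2, rfl, rfl, hb⟩
    | n => cases h

variable [WellFoundedLT O]

/-- A slot is active below `y`. -/
def Slot (d c β j : O) (y : Cd O) : Prop := ∃ x, V d x ∧ le y x ∧ Has le c β j x y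

theorem Slot.mono {β j : O} (h : Slot d c β j y) (hx : le x y) : Slot d c β j x :=
  h.imp fun _ h => ⟨h.1, hx.trans h.2.1, h.2.2.mono' hx⟩

theorem Alw.mono {ξ β j : O} (h : Alw (Le c) c ξ β j y) (hx : Tst (Le c) x y) :
    Alw (Le c) c ξ β j x :=
  let ⟨β0, j0, k, h1, h2, h3, h4, h5⟩ := h
  ⟨β0, j0, k, h1, h2, h3, hx.2.trans h4, h5.mono Tst.trans hx⟩

theorem Slot.alw {ξ β j : O} (h : Slot d c β j y) (hy : Ld d y q) (hξ : a c ξ ∈ q) :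
    ∃ v, Ld d v y ∧ (Has (Le c) c β j q v ∨ Alw (Le c) c ξ β j v) := by
  obtain ⟨x, -, h1, h2⟩ := h
  obtain ⟨u, h3, h4⟩ := h1.slot hy.1 hy.1.ld h2
  obtain ⟨v, h5, h6⟩ := (hy.2 c).phi.nw β j ξ u hξ (h3.tst c) (h4.at c)
  have h7 := h5.am h3.1 (hy.1.2 _ ((hy.2 c).phi.pr ξ hξ)).le
  exact ⟨_, h7.trans h3, h6.imp (fun h => h.mono (Le_am c v u))
    fun h => h.mono ⟨h7.1.1, Le_am c v u⟩⟩

/-- The master condition. -/
def mas (γ κ : O) (e e' : O → O) : Cd O := {b | WF b ∧ b.co < th κ ∧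
  ((∃ u < γ, ∃ v < γ, b = a (max κ (e' u)) (e' v)) ∨ ∃ u < γ, ∃ β < γ, ∃ j < γ, ∃ k < g0 (th γ),
    b = s (max κ (e' u)) β j [k] ∧ V (th γ) (cn k) ∧ Slot (th γ) (max γ (e u)) β j (cn k))}

theorem mas_co {b : Bit O} (h : b ∈ mas γ κ e e') : κ ≤ b.co := by
  obtain ⟨-, -, ⟨u, -, v, -, rfl⟩ | ⟨u, -, β, -, j, -, k, -, rfl, -⟩⟩ := h <;> exact le_max_left _ _

theorem mas_val (hκ : Lev κ) (h : γ < κ) : V (th κ) (mas γ κ e e') := by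
  refine ⟨⟨fun _ h => h.1, fun L hL => ?_⟩, fun _ h => h.2.1⟩
  rcases lt_or_ge L κ with h1 | h1
  · rw [show lo (th L) (mas γ κ e e') = ∅ from eq_empty_of_forall_notMem fun b hb =>
      (hb.2.trans (hκ.th L h1)).not_ge (mas_co hb.1)]
    simpa using aleph0_pos.trans hL.reg.big
  have h2 : γ < g0 (th γ) := (lt_th γ).trans (lt_g0 _)
  refine lt_of_le_of_lt ((mk_le_mk_of_subset ?_).trans (mk_image_le (f := pf κ e')))
    ((bits_lt hκ.reg hκ.g0 (hκ.g0 _ (hκ.th γ h))).trans_le (cn0_mono h1))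
  rintro _ ⟨⟨-, -, ⟨u, hu, v, hv, rfl⟩ | ⟨u, hu, β, hβ, j, hj, k, hk, rfl, -⟩⟩, -⟩
  · exact ⟨a u v, lt_a.2 ⟨hu.trans h2, hv.trans h2⟩, rfl⟩
  · exact ⟨s u β j [k], lt_s.2 ⟨hu.trans h2, hβ.trans h2, hj.trans h2, by simpa using hk⟩, rfl⟩

theorem master (hγ : Lev γ) (hκ : Lev κ) (hγκ : γ < κ)
    (hE : ∀ u < γ, ∀ v < γ, max γ (e u) = max γ (e v) ↔ max κ (e' u) = max κ (e' v))
    (hS : ∀ u < γ, ∀ v < γ, ∀ β < γ, ∀ j < γ, ∀ k, n β j k ∈ cn (e v) → V (max γ (e u)) (cn k) →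
      V (th γ) (cn k) → #(cn (e v)) ≤ cn0 γ → ∃ k1 < γ, ∃ k2 < γ, ∃ k', cn k = rep γ e k1 k2 ∧
      n β j k' ∈ cn (e' v) ∧ V (max κ (e' u)) (cn k') ∧ cn k' = rep κ e' k1 k2)
    (h1 : k1 < γ) (h2 : k2 < γ) (h3 : V (th γ) (rep γ e k1 k2)) (h4 : V (th κ) (rep κ e' k1 k2))
    (h5 : Le c x (mas γ κ e e')) (h6 : le x (rep γ e k1 k2)) : Le c x (rep κ e' k1 k2) := by
  induction c using WellFoundedLT.induction generalizing x k1 k2 with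
  | ind c ih =>
  intro d hd
  have hth := hκ.th γ hγκ
  rcases lt_or_ge d γ with h7 | h7
  · exact (h6 d).right fun b hb => ⟨fun h => Or.inl (rep_lo h (h4.1.1 b h) (hb ▸ h7.trans hγκ)),
      fun h => Or.inl (rep_lo h (h3.1.1 b h) (hb ▸ h7))⟩
  have k0 := (h5 d hd).phi
  have hpr : ∀ ξ, a d ξ ∈ rep κ e' k1 k2 → a d ξ ∈ mas γ κ e e' := fun ξ h => by
    obtain ⟨u, hu, v, hv, e1, e2, -⟩ := rep_a hγ h1 h2 h h7
    exact ⟨h4.1.1 _ h, h4.2 _ h, Or.inl ⟨u, hu, v, hv, e1 ▸ e2 ▸ rfl⟩⟩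
  refine step_iff.2 ⟨fun ξ h => k0.pr ξ (hpr ξ h), fun β j z hz ⟨l, h8, h9⟩ => ?_,
    fun β j ξ z hξ hz h8 => ?_⟩
  · obtain ⟨u, hu, rfl, hβ, hj, hl, k3⟩ := rep_s hγ h1 h2 h8 h7
    have k4 : th γ ≤ max κ (e' u) := le_max_of_le_left hth.le
    have k5 := hz.1.lo (th γ)
    have k6 : max κ (e' u) < th κ := h4.2 _ h8
    refine k0.sl β j z hz ⟨[code (lo (th γ) z)], ⟨⟨κ, ⟨hκ, le_max_left _ _, k6⟩,
      hβ.trans hγκ, hj.trans hγκ, by simpa using k5.code.trans (hκ.g0 _ hth)⟩, k6,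
      Or.inr ⟨u, hu, β, hβ, j, hj, _, k5.code, rfl, k5.cn.symm ▸ k5, k5.cn.symm ▸ ⟨_, h3,
        ((hz.2.mono k4).trans (h6.at _)).lo_le h3.2, l, Or.inr ⟨_, k3, rfl⟩, fun k hk =>
          ((Le_lo _ z).trans ((h9 k hk).mono k4)).cn hγ.g0 (hl k hk) (lt_th γ).le⟩⟩⟩,
      List.forall_mem_singleton.2 (k5.cn.symm ▸ (le_lo _ z).at _)⟩
  obtain ⟨u, hu, v, hv, rfl, rfl, k3⟩ := rep_a hγ h1 h2 hξ h7
  have k4 : th γ ≤ max κ (e' u) := le_max_of_le_left hth.le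
  obtain ⟨w, hw, ⟨l, k5, k6⟩ | k5⟩ := k0.nw β j _ z (hpr _ hξ) hz h8
  swap
  · exact ⟨w, hw, Or.inr k5⟩
  obtain ⟨-, -, ⟨_, -, _, -, k7⟩ | ⟨u', hu', β', hβ, j', hj, k, -, k7, k8, k9⟩⟩ := k5
  · cases k7
  rw [← (hE u hu u' hu').2 (s.inj k7).1] at k9
  obtain ⟨-, rfl, rfl, rfl⟩ := s.inj k7
  have m1 := hw.trans hz
  have m2 : a (max γ (e u)) (e v) ∈ rep γ e k1 k2 := Or.inr ⟨_, k3, rfl⟩
  have m3 := h3.2 _ m2
  obtain ⟨t, m4, m5⟩ := (k9.mono (((k6 k (by simp)).mono k4).lo_le k8.2)).alw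
    ⟨hw.1.lo _, ((m1.2.mono k4).trans (h6.at _)).lo_le h3.2⟩ m2
  have m6 : Tst (Le (max κ (e' u))) (am (th γ) t w) w :=
    ⟨m4.1.1.am hw.1 _, (m4.2.at _).of_lo.am_le.at _⟩
  have m7 := Le_am (th γ) t w
  refine ⟨_, m6.trans hw, m5.imp (fun ⟨l', n1, n2⟩ => ?_) fun ⟨β0, j0, k0', n1, n2, n3, n4, n5⟩ => ?_⟩
  · obtain ⟨u'', hu'', n3, -, -, n4, n5⟩ := rep_s hγ h1 h2 n1 (le_max_left _ _)
    exact ⟨l', (hE u hu u'' hu'').1 n3 ▸ Or.inr ⟨_, n5, rfl⟩, fun k hk =>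
      (((m7.mono m3.le).trans (n2 k hk)).cn hγ.g0 (n4 k hk) (le_max_left _ _)).at _⟩
  · obtain ⟨γ', n6, -, -, n7, n8⟩ := h3.1.1 _ m2
    obtain rfl := n6.uniq ⟨hγ, le_max_left _ _, m3⟩
    have n9 := n8 _ _ _ n1
    obtain ⟨i1, r1, i2, r2, k', r3, r4, r5, r6⟩ := hS u hu v hv β0 (n2.trans_lt hβ) j0 n9 _ n1 n3
      (n3.mono m3.le) n7
    refine ⟨β0, j0, k', r4, n2, r5, r6 ▸ ih _ hd r1 r2 (r3 ▸ n3.mono m3.le)
      (r6 ▸ r5.mono (h4.2 _ hξ).le) ((m6.trans m1).2.trans (h5.mono hd.le))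
      (r3 ▸ ((m7.mono m3.le).trans n4).top n3.2), ?_⟩
    exact (n5.to_ld hγ.g0 n9 hj (le_max_left _ _) m3.le (Le.refl _ _)).of_ld m4.1 hγ.g0 n9 hj h7
      (lt_th _).le (m7.mono (lt_th _).le)

/-- The tree property is forced by the iteration up to the end of the block of `κ`. -/
def Tree (κ : O) : Prop := ∀ (T : O × O → Cd O → Prop) (p : Cd O), Mo (Ld (th κ)) T → V (th κ) p →
  (∀ β < κ, ∀ y, Ld (th κ) y p → ∃ u, Ld (th κ) u y ∧ ∃ j < κ, T (β, j) u) →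
  (∀ β < κ, ∀ β' ≤ β, ∀ j < κ, ∀ j' < κ, ∀ y, Ld (th κ) y p → T (β, j) y →
    Eqv (Ld (th κ)) β' (Ev le j') (Ev le j) y → ∃ u, Ld (th κ) u y ∧ T (β', j') u) →
  ∃ q, Ld (th κ) q p ∧ ∃ Z, Mo (Ld (th κ)) Z ∧ ∀ β < κ, ∀ j < κ, ∀ y, Ld (th κ) y q →
    Eqv (Ld (th κ)) β Z (Ev le j) y → ∃ u, Ld (th κ) u y ∧ T (β, j) u

/-- A counterexample together with the data that are coded. -/
structure Cex (γ : O) (T : O × O → Cd O → Prop) (p : Cd O) (Y : O → O → Set (Cd O))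
    (e : O → O) : Prop where
  mo : Mo (Ld (th γ)) T
  val : V (th γ) p
  t1 : ∀ β < γ, ∀ y, Ld (th γ) y p → ∃ u, Ld (th γ) u y ∧ ∃ j < γ, T (β, j) u
  t2 : ∀ β < γ, ∀ β' ≤ β, ∀ j < γ, ∀ j' < γ, ∀ y, Ld (th γ) y p → T (β, j) y →
    Eqv (Ld (th γ)) β' (Ev le j') (Ev le j) y → ∃ u, Ld (th γ) u y ∧ T (β', j') u
  t3 : ∀ q, Ld (th γ) q p → ∀ Z, Mo (Ld (th γ)) Z → ∃ β < γ, ∃ j < γ, ∃ y, Ld (th γ) y q ∧
    Eqv (Ld (th γ)) β Z (Ev le j) y ∧ ∃ x ∈ Y β j, le y x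
  neg : ∀ β j, ∀ x ∈ Y β j, V (th γ) x ∧ ∀ u, Ld (th γ) u x → ¬ T (β, j) u
  rp : ∃ k1 < γ, ∃ k2 < γ, p = rep γ e k1 k2
  rY : ∀ β < γ, ∀ j < γ, ∀ x ∈ Y β j, ∃ k1 < γ, ∃ k2 < γ, x = rep γ e k1 k2
  rS : ∀ v < γ, ∀ β j k, n β j k ∈ cn (e v) → V (th γ) (cn k) → #(cn (e v)) ≤ cn0 γ →
    ∃ k1 < γ, ∃ k2 < γ, cn k = rep γ e k1 k2

theorem exists_cex (hγ : Lev γ) (h : ¬ Tree γ) : ∃ T p Y e, Cex γ T p Y e := by
  simp only [Tree, not_forall, not_exists, not_and] at h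
  obtain ⟨T, p, h1, h2, h3, h4, h5⟩ := h
  choose Y k1 k2 k3 using fun β j : O => cc hγ
    {y | V (th γ) y ∧ ∀ u, Ld (th γ) u y → ¬ T (β, j) u} fun _ h => h.1
  let F : Set O → Set O := fun S => (insert γ (os p) ∪ ⋃ i : Iio γ × Iio γ, ⋃ x : Y i.1 i.2, os x.1) ∪
    ⋃ ξ : {ξ ∈ S | #(cn ξ) ≤ cn0 γ}, ⋃ b : cn ξ.1,
      {x | ∃ β j k, b.1 = n β j k ∧ V (th γ) (cn k) ∧ x ∈ os (cn k)}
  have hr := hγ.reg
  obtain ⟨w, k4, k5⟩ := hr.close F fun S hS => by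
    refine (mk_union_le _ _).trans (hr.add_le ((mk_union_le _ _).trans (hr.add_le
      (mk_insert_le.trans (hr.add_le (os_le hr (h2.small hγ).le) (one_le_aleph0.trans hr.big.le)))
      (hr.union_le (hr.prod_le le_rfl le_rfl) fun i => hr.union_le (k2 _ _) fun x =>
        os_le hr ((k1 _ _ x.2).1.small hγ).le)))
      (hr.union_le ((mk_le_mk_of_subset fun _ h => h.1).trans hS.le) fun ξ =>
        hr.union_le ξ.2.2 fun b => ?_))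
    by_cases hb : ∃ β j k, b.1 = n β j k ∧ V (th γ) (cn k)
    · obtain ⟨β, j, k, e1, e2⟩ := hb
      refine le_trans (mk_le_mk_of_subset ?_) (os_le hr (e2.small hγ).le)
      rintro x ⟨β', j', k', e3, -, e4⟩
      exact (n.inj (e1.symm.trans e3)).2.2 ▸ e4
    · refine le_trans (mk_le_mk_of_subset (t := ∅) ?_) (by simp)
      rintro x ⟨β, j, k, e3, e4, -⟩
      exact hb ⟨β, j, k, e3, e4⟩
  have k6 := k5 ∅ (empty_subset _) (by simpa using aleph0_pos.trans hr.big)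
  have : Nonempty w := ⟨⟨γ, k6 (Or.inl (Or.inl (Or.inl rfl)))⟩⟩
  obtain ⟨ι⟩ := k4
  let e : O → O := fun x => (invFun (fun y => (ι y).1) x).1
  have he : ∀ x ∈ w, ∃ y < γ, e y = x := fun x hx => ⟨_, (ι ⟨x, hx⟩).2, congrArg Subtype.val
    (leftInverse_invFun (Subtype.val_injective.comp ι.injective) ⟨x, hx⟩)⟩
  refine ⟨T, p, Y, e, h1, h2, h3, h4, fun q hq Z hZ => ?_, fun β j x hx => k1 β j hx,
    exists_rep hγ h2 fun x hx => he x (k6 (Or.inl (Or.inl (Or.inr hx)))),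
    fun β hβ j hj x hx => exists_rep hγ (k1 β j hx).1 fun y hy => he y (k6 (Or.inl (Or.inr
      (mem_iUnion.2 ⟨(⟨β, hβ⟩, ⟨j, hj⟩), mem_iUnion.2 ⟨⟨x, hx⟩, hy⟩⟩)))),
    fun v _ β j k m1 m2 m3 => exists_rep hγ m2 fun y hy => he y (k5 {e v}
      (singleton_subset_iff.2 (invFun (fun y => (ι y).1) v).2)
      (by simpa using one_lt_aleph0.trans hr.big) (Or.inr (mem_iUnion.2 ⟨⟨e v, rfl, m3⟩,
        mem_iUnion.2 ⟨⟨_, m1⟩, β, j, k, rfl, m2, hy⟩⟩)))⟩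
  obtain ⟨β, hβ, j, hj, y, m1, m2, m3⟩ := h5 q hq Z hZ
  obtain ⟨x, hx, m, m4, m5⟩ := k3 β j y ⟨m1.1, m3⟩
  exact ⟨β, hβ, j, hj, m, m4.trans m1, m2.mono Ld.trans m4, x, hx, m5⟩

theorem exists_tree [OrderBot O] [Big O] : ∃ κ : O, Lev κ ∧ Tree κ := by
  by_contra hn
  have h0 : ∀ γ : O, ∃ T p Y e, Lev γ → Cex γ T p Y e := fun γ => by
    by_cases h : Lev γ
    · obtain ⟨T, p, Y, e, h1⟩ := exists_cex h fun h' => hn ⟨γ, h, h'⟩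
      exact ⟨T, p, Y, e, fun _ => h1⟩
    · exact ⟨fun _ _ => True, ∅, fun _ _ => ∅, id, fun h' => absurd h' h⟩
  choose T p Y e h0 using h0
  obtain ⟨γ, κ, -, hγκ, r1, r2, r3, r4, hA⟩ := sub (fun γ => {l |
    (∃ u v, l = [u, v] ∧ max γ (e γ u) = max γ (e γ v)) ∨
    (∃ u v, l = [u, v, u] ∧ p γ = rep γ (e γ) u v) ∨
    (∃ β j u v, l = [β, j, u, v] ∧ rep γ (e γ) u v ∈ Y γ β j) ∨
    ∃ u v β j k1 k2, l = [u, v, β, j, k1, k2] ∧ ∃ k, n β j k ∈ cn (e γ v) ∧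
      V (max γ (e γ u)) (cn k) ∧ cn k = rep γ (e γ) k1 k2}) (fun x => max (g0 x) (th x)) ⊥
  have hγ : Lev γ := ⟨r1, fun x h => (max_lt_iff.1 (r3 x h)).1, fun x h => (max_lt_iff.1 (r3 x h)).2⟩
  have hκ : Lev κ := ⟨r2, fun x h => (max_lt_iff.1 (r4 x h)).1, fun x h => (max_lt_iff.1 (r4 x h)).2⟩
  have C := h0 γ hγ
  have D := h0 κ hκ
  have hth := hκ.th γ hγκ
  have hcd : th γ ≤ th κ := th_mono hγκ.le
  have M : ∀ k1 < γ, ∀ k2 < γ, ∀ x, V (th γ) (rep γ (e γ) k1 k2) → V (th κ) (rep κ (e κ) k1 k2) →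
      le x (mas γ κ (e γ) (e κ)) → le x (rep γ (e γ) k1 k2) → le x (rep κ (e κ) k1 k2) := by
    refine fun k1 h1 k2 h2 x h3 h4 h5 h6 => le_of_all fun c => master hγ hκ hγκ
      (fun u hu v hv => ?_) (fun u hu v hv β hβ j hj k m1 m2 m3 m4 => ?_) h1 h2 h3 h4 (h5.at c) h6
    · simpa using hA [u, v] (by simpa using ⟨hu, hv⟩)
    · obtain ⟨i1, n1, i2, n2, n3⟩ := C.rS v hv β j k m1 m3 m4
      have := (hA [u, v, β, j, i1, i2] (by simpa using ⟨hu, hv, hβ, hj, n1, n2⟩)).1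
        (Or.inr (Or.inr (Or.inr ⟨_, _, _, _, _, _, rfl, k, m1, m2, n3⟩)))
      simp only [mem_ofPred_eq, List.cons.injEq, reduceCtorEq, and_false, false_and, exists_false,
        false_or, and_true] at this
      obtain ⟨_, _, _, _, _, _, ⟨rfl, rfl, rfl, rfl, rfl, rfl⟩, k', n4⟩ := this
      exact ⟨_, n1, _, n2, k', n3, n4⟩
  obtain ⟨k1, h1, k2, h2, h3⟩ := C.rp
  have h4 : p κ = rep κ (e κ) k1 k2 := by
    simpa [h3] using hA [k1, k2, k1] (by simpa using ⟨h1, h2, h1⟩)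
  have h5 := mas_val (e := e γ) (e' := e κ) hκ hγκ
  have h6 : ∀ b ∈ p γ, ∀ b' ∈ mas γ κ (e γ) (e κ), b.co < b'.co := fun b hb b' hb' =>
    ((C.val.2 b hb).trans hth).trans_le (mas_co hb')
  have h7 : le (p γ ∪ mas γ κ (e γ) (e κ)) (p γ) := le_sub subset_union_left
    fun c β j l ξ m1 m2 => m1.elim id fun m3 => absurd (h6 _ m2 _ m3) (lt_irrefl c)
  have h8 : le (p γ ∪ mas γ κ (e γ) (e κ)) (mas γ κ (e γ) (e κ)) := le_sub subset_union_right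
    fun c β j l ξ m1 m2 => m1.elim (fun m3 => absurd (h6 _ m3 _ m2) (lt_irrefl c)) id
  have h9 : Ld (th κ) (p γ ∪ mas γ κ (e γ) (e κ)) (p κ) := ⟨(C.val.mono hcd).union h5,
    h4 ▸ M k1 h1 k2 h2 _ (h3 ▸ C.val) (h4 ▸ D.val) h8 (h3 ▸ h7)⟩
  obtain ⟨q', m1, j, hj, m2⟩ := D.t1 γ hγκ _ h9
  obtain ⟨q, m3, m4⟩ := tail (cut_th γ) (J := Iio γ × Iio γ) (fun L hL h =>
      hL.reg.prod (hL.reg.iio ((lt_th γ).trans h)) (hL.reg.iio ((lt_th γ).trans h)))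
    (fun i m => Ev le j (i.1, i.2) m ∨ ∀ x, Ld (th κ) x m → ¬ Ev le j (i.1, i.2) x) m1.1
    fun i y hy => decide_ld _ hy.1
  have m5 := m3.trans m1
  obtain ⟨β, hβ, j', hj', y, n1, n2, x, n3, n4⟩ := C.t3 (lo (th γ) q)
    ⟨m3.1.1.lo _, ((m5.2.trans h7).at _).lo_le C.val.2⟩
    (fun i r => ∀ x, Ld (th κ) x q → Le (th γ) x r → Ev le j i x)
    fun i r r' n1 n2 x n3 n4 => n2 x n3 (n4.trans (n1.2.at _))
  obtain ⟨i1, s1, i2, s2, s3⟩ := C.rY β hβ j' hj' x n3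
  have s4 : rep κ (e κ) i1 i2 ∈ Y κ β j' := by
    simpa [← s3, n3] using hA [β, j', i1, i2] (by simpa using ⟨hβ, hj', s1, s2⟩)
  have s5 : Ld (th κ) (am (th γ) y q) q := Tst.am ⟨n1.1.1, (n1.2.at _).of_lo⟩ m3.1 hcd
  have s6 := Le_am (th γ) y q
  obtain ⟨u, s7, s8⟩ := D.t2 γ hγκ β hβ.le j hj j' (hj'.trans hγκ) _ (s5.trans (m5.trans h9))
    (D.mo _ _ _ (s5.trans m3) m2) fun a ha b hb z hz => ⟨fun t1 => by
      obtain ⟨w, t2, t3⟩ := (n2 a ha b hb (lo (th γ) z)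
        ⟨hz.1.1.lo _, ((hz.2.at _).trans s6).lo_le n1.1.2⟩).2
        (t1.of_Le (Le_lo _ z) hγ.g0 hj' (lt_th γ).le)
      have t4 : Ld (th κ) (am (th γ) w z) z := Tst.am ⟨t2.1.1, (t2.2.at _).of_lo⟩ hz.1 hcd
      exact ⟨_, t4, t3 _ (t4.trans (hz.trans s5)) (Le_am _ w z)⟩, fun t1 => by
      obtain ⟨m, t2, t3, t4, t5⟩ := m4 (⟨a, ha.trans hβ⟩, ⟨b, hb.trans hβ⟩) z (hz.trans s5)
      have t6 : Ld (th κ) (am (th γ) m z) z := Tst.am ⟨t2.1.1, t4⟩ hz.1 hcd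
      have t7 := t3.resolve_right fun h => h _
        ⟨t6.1, t5 _ (Le_am _ m z) (t6.trans (hz.trans s5)).2⟩ (t1.mono t6.2)
      obtain ⟨w, t8, t9⟩ := (n2 a ha b hb (lo (th γ) m)
        ⟨t2.1.1.lo _, (t4.trans ((hz.2.at _).trans s6)).lo_le n1.1.2⟩).1
        fun x u1 u2 => t7.mono (t5 x u2.of_lo u1.2)
      exact ⟨_, Tst.am ⟨t8.1.1, (t8.2.at _).of_lo.trans t4⟩ hz.1 hcd,
        t9.of_Le (Le_am _ w z) hγ.g0 hj' (lt_th γ).le⟩⟩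
  exact (D.neg β j' _ s4).2 u (s7.trans' (M i1 s1 i2 s2 _ (s3 ▸ (C.neg β j' x n3).1)
    (D.neg β j' _ s4).1 ((s5.trans m5).2.trans h8)
    (s3 ▸ (s6.trans (n4.at _)).top (C.neg β j' x n3).1.2))) s8

end Pool.Agent.MP_d6f492_lc
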