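import Pool.Agent.MP_d6f492_lc.Bits

/-! Closure of the tails, node names and the chain condition. -/

namespace Pool.Agent.MP_d6f492_lc

open Cardinal Set Function Bit Dat

variable {O : Type} [LinearOrder O]

/-- A slot made conditional on one more condition. -/
def cond (k : O) : Bit O → Bit O
  | s c β j l => s c β j (k :: l)
  | b => b

omit [LinearOrder O] in
theorem cond_co (k : O) (b : Bit O) : (cond k b).co = b.co := by cases b <;> rfl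

omit [LinearOrder O] in
theorem cond_eq_s {k c β j : O} {l : List O} {b : Bit O} (h : cond k b = s c β j l) :
    ∃ l', b = s c β j l' ∧ l = k :: l' := by
  cases b <;> simp_all [cond]

variable [Dat O] {c d κ : O} {x y p q m : Cd O}

/-- Cuts between the blocks. -/
def Cut (c : O) : Prop := ∀ L, Lev L → th L ≤ c ∨ c < L

theorem cut_th (x : O) : Cut (th x) := fun L hL =>
  (le_or_gt L x).imp (fun h => th_mono h) (hL.th x)

theorem WF.cond {b : Bit O} {k : O} (h : WF b) (hc : Cut c) (hb : c ≤ b.co) (hk : k < g0 c) :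
    WF (cond k b) := by
  cases b with
  | s e β j l =>
    obtain ⟨γ, h1, h2, h3, h4⟩ := h
    have h5 := (hc γ h1.1).resolve_left (hb.trans_lt h1.2.2).not_ge
    exact ⟨γ, h1, h2, h3, List.forall_mem_cons.2 ⟨hk.trans (h1.1.g0 c h5), h4⟩⟩
  | a e ξ => exact h
  | n => exact h

theorem V.cond {k : O} (h : V d m) (hc : Cut c) (hk : k < g0 c) : V d (cond k '' hi c m) := by
  refine ⟨⟨?_, fun L hL => lt_of_le_of_lt ?_ (h.1.2 L hL)⟩, ?_⟩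
  · rintro _ ⟨b, hb, rfl⟩
    exact (h.1.1 b hb.1).cond hc hb.2 hk
  · refine le_trans (mk_le_mk_of_subset ?_) (mk_image_le (f := MP_d6f492_lc.cond k))
    rintro _ ⟨⟨b, hb, rfl⟩, h1⟩
    exact ⟨b, ⟨hb.1, cond_co k b ▸ h1⟩, rfl⟩
  · rintro _ ⟨b, hb, rfl⟩
    exact cond_co k b ▸ h.2 b hb.1

theorem V.iUnion [WellFoundedLT O] {ι : Type} {F : ι → Cd O} (hF : ∀ i, V d (F i))
    (h : ∀ L, Lev L → #ι < cn0 L ∨ ∃ q, Val q ∧ ∀ i, lo (th L) (F i) ⊆ q) : V d (⋃ i, F i) := by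
  refine ⟨⟨fun b hb => let ⟨i, hi⟩ := mem_iUnion.1 hb; (hF i).1.1 b hi, fun L hL => ?_⟩,
    fun b hb => let ⟨i, hi⟩ := mem_iUnion.1 hb; (hF i).2 b hi⟩
  rcases h L hL with h | ⟨q, h1, h2⟩
  · refine lt_of_le_of_lt (mk_le_mk_of_subset fun b hb => ?_)
      (hL.reg.union h fun i => (hF i).1.2 L hL)
    obtain ⟨i, hi⟩ := mem_iUnion.1 hb.1
    exact mem_iUnion.2 ⟨i, hi, hb.2⟩
  · refine lt_of_le_of_lt (mk_le_mk_of_subset fun b hb => ?_) (h1.2 L hL)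
    obtain ⟨i, hi⟩ := mem_iUnion.1 hb.1
    exact ⟨h2 i ⟨hi, hb.2⟩, hb.2⟩

variable [WellFoundedLT O]

theorem Le.to_lo (h : Le c x m) : le x (lo c m) := (h.trans ((le_lo c m).at c)).top fun _ h => h.2

theorem Le.of_lo (h : Le c x (lo c m)) : Le c x m := h.trans (Le_lo c m)

theorem mixA {k : O} (hk : cn k = lo c m) (hm : le m q) (h1 : Le c x m)
    (h2 : Le d x (q ∪ cond k '' hi c m)) : Le d x m := by
  induction d using WellFoundedLT.induction generalizing x with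
  | ind d ih =>
  intro e he
  rcases lt_or_ge e c with hec | hec
  · exact h1 e hec
  have k1 := (h2 e he).phi
  have h3 : ∀ ξ, a e ξ ∈ m → a e ξ ∈ q ∪ cond k '' hi c m := fun ξ h => Or.inr ⟨_, ⟨h, hec⟩, rfl⟩
  refine step_iff.2 ⟨fun ξ h => k1.pr ξ (h3 ξ h), fun β j z hz ⟨l, h4, h5⟩ => ?_,
    fun β j ξ z hξ hz h4 => ?_⟩
  · exact k1.sl β j z hz ⟨k :: l, Or.inr ⟨_, ⟨h4, hec⟩, rfl⟩, List.forall_mem_cons.2
      ⟨hk ▸ ((hz.2.mono hec).trans h1).to_lo.at e, h5⟩⟩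
  · obtain ⟨u, hu, ⟨l, h5 | ⟨b, h5, h6⟩, h7⟩ | h5⟩ := k1.nw β j ξ z (h3 ξ hξ) hz h4
    · have h8 := hu.2.trans hz.2
      obtain ⟨v, hv, h9⟩ := (hm e).phi.sl β j u
        ⟨hu.1, ih e he ((h8.mono hec).trans h1) (h8.trans (h2.mono he.le))⟩ ⟨l, h5, h7⟩
      exact ⟨v, hv.trans hu, Or.inl h9⟩
    · obtain ⟨l', rfl, rfl⟩ := cond_eq_s h6
      exact ⟨u, hu, Or.inl ⟨l', h5.1, (List.forall_mem_cons.1 h7).2⟩⟩
    · exact ⟨u, hu, Or.inr h5⟩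

theorem mixB {k : O} (hk : cn k = lo c m) (hm : le m q) : le (q ∪ cond k '' hi c m) q := by
  intro e
  refine step_iff.2 ⟨fun ξ h => Or.inl h,
    fun β j z hz ⟨l, h4, h5⟩ => ⟨z, ⟨hz.1, Le.refl _ _⟩, l, Or.inl h4, h5⟩, ?_⟩
  rintro β j ξ z hξ hz ⟨l, h4 | ⟨b, h4, h6⟩, h5⟩
  · exact ⟨z, ⟨hz.1, Le.refl _ _⟩, Or.inl ⟨l, h4, h5⟩⟩
  · obtain ⟨l', rfl, rfl⟩ := cond_eq_s h6
    obtain ⟨h7, h8⟩ := List.forall_mem_cons.1 h5
    exact (hm e).phi.nw β j ξ z hξ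
      ⟨hz.1, mixA hk hm (Le.of_lo ((hk ▸ h7).mono h4.2)) hz.2⟩ ⟨l', h4.1, h8⟩

theorem chain_union {ι : Type} {F : ι → Cd O} (hc : Cut c) (hp : V d p)
    (hι : ∀ L, Lev L → c < L → #ι < cn0 L) (h1 : ∀ i, Ld d (F i) p)
    (h2 : ∀ i, ∀ b ∈ F i, b.co < c → b ∈ p) (h3 : ∀ i j, le (F i) (F j) ∨ le (F j) (F i)) :
    Ld d (p ∪ ⋃ i, F i) p ∧ ∀ i, le (p ∪ ⋃ i, F i) (F i) := by
  have e : p ∪ ⋃ i, F i = ⋃₀ insert p (range F) := by simp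
  have h4 : ∀ x ∈ insert p (range F), ∀ y ∈ insert p (range F), le x y ∨ le y x := by
    rintro _ (rfl | ⟨i, rfl⟩) _ (rfl | ⟨j, rfl⟩)
    exacts [Or.inl (le.refl _), Or.inr (h1 j).2, Or.inl (h1 i).2, h3 i j]
  have h5 : ∀ x ∈ insert p (range F), le (p ∪ ⋃ i, F i) x := fun x hx => e ▸ sUnion_le
    (fun x hx y hy => (h4 x hx y hy).elim (fun h => ⟨x, hx, le.refl _, h⟩)
      fun h => ⟨y, hy, h, le.refl _⟩) hx
  refine ⟨⟨hp.union (V.iUnion (fun i => (h1 i).1) fun L hL => ?_), h5 p (Or.inl rfl)⟩,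
    fun i => h5 _ (Or.inr ⟨i, rfl⟩)⟩
  exact (hc L hL).elim (fun h => Or.inr ⟨p, hp.1, fun i b hb => h2 i b hb.1 (hb.2.trans_le h)⟩)
    fun h => Or.inl (hι L hL h)

/-- The tail above a cut meets few dense sets at once. -/
theorem tail (hc : Cut c) {J : Type} (hJ : ∀ L, Lev L → c < L → #J < cn0 L)
    (D : J → Cd O → Prop) (hp : V d p) (hD : ∀ j y, Ld d y p → ∃ m, Ld d m y ∧ D j m) :
    ∃ q, Ld d q p ∧ ∀ j y, Ld d y q → ∃ m, Ld d m p ∧ D j m ∧ Le c m y ∧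
      ∀ z, Le c z m → le z q → le z m := by
  have h0 : ∀ (i : Iio (g0 c) × J) (q : Cd O), ∃ q', Ld d q p → Ld d q' q ∧
      (∀ b ∈ q', b.co < c → b ∈ q) ∧ ((∃ x, Ld d x q ∧ le x (cn i.1.1)) → ∃ m, Ld d m p ∧ D i.2 m ∧
        le m (cn i.1.1) ∧ ∀ z, Le c z m → le z q' → le z m) := by
    intro i q
    by_cases h : Ld d q p ∧ ∃ x, Ld d x q ∧ le x (cn i.1.1)
    · obtain ⟨hq, x, h1, h2⟩ := h
      obtain ⟨m, h3, h4⟩ := hD i.2 x (h1.trans hq)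
      have h5 := h3.1.1.lo c
      have h6 := (h3.trans h1).2
      refine ⟨q ∪ cond (code (lo c m)) '' hi c m, fun _ => ⟨⟨hq.1.union (h3.1.cond hc h5.code),
        mixB h5.cn h6⟩, ?_, fun _ => ⟨m, (h3.trans h1).trans hq, h4, h3.2.trans h2,
          fun z h7 h8 => le_of_all fun e => mixA h5.cn h6 h7 (h8.at e)⟩⟩⟩
      rintro _ (hb | ⟨b, hb, rfl⟩) h7
      · exact hb
      · exact absurd (cond_co _ b ▸ h7) hb.2.not_gt
    · exact ⟨q, fun hq => ⟨hq.1.ld, fun _ hb _ => hb, fun h1 => absurd ⟨hq, h1⟩ h⟩⟩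
  choose st hst using h0
  have hI : ∀ L, Lev L → c < L → #(Iio (g0 c) × J) < cn0 L := fun L hL h =>
    hL.reg.prod (hL.reg.iio (hL.g0 c h)) (hJ L hL h)
  have hwo := WellOrderingRel.isWellOrder (α := Iio (g0 c) × J)
  let F : Iio (g0 c) × J → Cd O := hwo.wf.fix fun i R =>
    st i (p ∪ ⋃ i' : {i' // WellOrderingRel i' i}, R i'.1 i'.2)
  let U : Iio (g0 c) × J → Cd O := fun i => p ∪ ⋃ i' : {i' // WellOrderingRel i' i}, F i'.1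
  have hF : ∀ i, F i = st i (U i) := fun i => WellFounded.fix_eq _ _ i
  have tri : ∀ {A : Iio (g0 c) × J → Prop}, (∀ i, A i → ∀ i', WellOrderingRel i' i → le (F i) (F i')) →
      ∀ i j, A i → A j → le (F i) (F j) ∨ le (F j) (F i) := fun h i j hi hj => by
    rcases trichotomous_of WellOrderingRel i j with e | rfl | e
    exacts [Or.inr (h j hj i e), Or.inl (le.refl _), Or.inl (h i hi j e)]
  have key : ∀ i, Ld d (U i) p ∧ Ld d (F i) (U i) ∧ (∀ b ∈ F i, b.co < c → b ∈ p) ∧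
      ∀ i', WellOrderingRel i' i → le (F i) (F i') := by
    intro i
    induction i using hwo.wf.induction with
    | h i ih =>
    obtain ⟨h1, h2⟩ := chain_union (F := fun i' : {i' // WellOrderingRel i' i} => F i'.1) hc hp
      (fun L hL h => (mk_subtype_le _).trans_lt (hI L hL h))
      (fun i' => (ih _ i'.2).2.1.trans (ih _ i'.2).1) (fun i' => (ih _ i'.2).2.2.1)
      fun i1 i2 => tri (fun j hj => (ih j hj).2.2.2) _ _ i1.2 i2.2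
    obtain ⟨h3, h4, -⟩ := hst i (U i) h1
    rw [← hF] at h3 h4
    refine ⟨h1, h3, fun b hb h5 => (h4 b hb h5).elim id fun h6 => ?_,
      fun i' hi' => h3.2.trans (h2 ⟨i', hi'⟩)⟩
    obtain ⟨i', h7⟩ := mem_iUnion.1 h6
    exact (ih _ i'.2).2.2.1 b h7 h5
  obtain ⟨h1, h2⟩ := chain_union (F := F) hc hp hI (fun i => (key i).2.1.trans (key i).1)
    (fun i => (key i).2.2.1) fun i j => tri (A := fun _ => True) (fun j _ => (key j).2.2.2) i j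
      trivial trivial
  refine ⟨_, h1, fun j y hy => ?_⟩
  have h3 := hy.1.1.lo c
  let i : Iio (g0 c) × J := (⟨_, h3.code⟩, j)
  obtain ⟨m, h4, h5, h6, h7⟩ := (hst i (U i) (key i).1).2.2
    ⟨y, hy.trans' ((h2 i).trans (key i).2.1.2), h3.cn.symm ▸ le_lo c y⟩
  exact ⟨m, h4, h5, Le.of_lo ((h3.cn ▸ h6).at c), fun z h8 h9 => h7 z h8 (hF i ▸ h9.trans (h2 i))⟩

/-- The same below a level, with a bound on an ordinal parameter. -/
theorem tailb (hκ : Lev κ) {J : Type} (hJ : #J < cn0 κ) (D : J → O → Cd O → Prop) (hp : V d p)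
    (hD : ∀ j y, Ld d y p → ∃ m, Ld d m y ∧ ∃ b < κ, D j b m) :
    ∃ q, Ld d q p ∧ ∃ c < κ, ∃ b0 < κ, ∀ j y, Ld d y q → ∃ m, ∃ b < b0, Ld d m p ∧ D j b m ∧
      Le c m y ∧ ∀ z, Le c z m → le z q → le z m := by
  obtain ⟨x, hx, e⟩ := exists_cn0 hJ
  obtain ⟨q, h1, h2⟩ := tail (cut_th x) (fun L hL h => e ▸ hL.reg.iio ((lt_th x).trans h))
    (fun j m => ∃ b < κ, D j b m) hp hD
  have h3 : ∀ i : Iio (g0 (th x)) × J, ∃ b < κ, (∃ m, ∃ b < κ, cn i.1.1 = lo (th x) m ∧ Ld d m p ∧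
      D i.2 b m ∧ ∀ z, Le (th x) z m → le z q → le z m) → ∃ m, cn i.1.1 = lo (th x) m ∧ Ld d m p ∧
      D i.2 b m ∧ ∀ z, Le (th x) z m → le z q → le z m := fun i => by
    by_cases h : ∃ m, ∃ b < κ, cn i.1.1 = lo (th x) m ∧ Ld d m p ∧
      D i.2 b m ∧ ∀ z, Le (th x) z m → le z q → le z m
    · obtain ⟨m, b, hb, h⟩ := h
      exact ⟨b, hb, fun _ => ⟨m, h⟩⟩
    · exact ⟨x, hx, fun h' => absurd h' h⟩
  choose f h3 h4 using h3
  obtain ⟨b0, h5, h6⟩ := hκ.reg.bd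
    (hκ.reg.prod (hκ.reg.iio (hκ.g0 _ (hκ.th x hx))) hJ) h3
  refine ⟨q, h1, th x, hκ.th x hx, b0, h5, fun j y hy => ?_⟩
  obtain ⟨m, k1, ⟨b, hb, k2⟩, k3, k4⟩ := h2 j y hy
  have k5 := k1.1.1.lo (th x)
  obtain ⟨m', k6, k7, k8, k9⟩ := h4 (⟨_, k5.code⟩, j) ⟨m, b, hb, k5.cn, k1, k2, k4⟩
  refine ⟨m', _, h6 _, k7, k8, Le.trans (Le.of_lo ?_) k3, k9⟩
  rw [← k5.cn, k6]
  exact (le_lo _ _).at _

/-- A name for the node decided below `q`. -/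
theorem name {β : O} {Z : O × O → Cd O → Prop} (hZ : Mo (Ld d) Z) (hβ : β ≤ c) (hc : c ≤ d)
    (h : ∀ u < β, ∀ v < β, ∀ y, Ld d y q → ∃ m, V d m ∧ (Z (u, v) m ∨ ∀ x, Ld d x m → ¬ Z (u, v) x) ∧
      ∃ c' ≤ c, Le c' m y ∧ ∀ z, Le c' z m → le z q → le z m) :
    ∃ j < g0 (g0 c), Eqv (Ld d) β Z (Ev le j) q := by
  let t : Cd O := {b | ∃ u v k, b = n u v k ∧ u < β ∧ v < β ∧ k < g0 c ∧
    ∀ x, Ld d x q → le x (cn k) → Z (u, v) x}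
  have ht : Bd t (g0 c) := by
    rintro _ ⟨u, v, k, rfl, h1, h2, h3, -⟩
    exact lt_n.2 ⟨(h1.trans_le hβ).trans (lt_g0 c), (h2.trans_le hβ).trans (lt_g0 c), h3⟩
  refine ⟨code t, code_lt ht, fun u hu v hv y hy => ⟨fun h1 => ?_, ?_⟩⟩
  · obtain ⟨m, h2, h3, c', h4, h5, h6⟩ := h u hu v hv y hy
    have h7 : Ld d (am c' m y) y := Tst.am ⟨h2.1, h5⟩ hy.1 (h4.trans hc)
    have h8 := (h2.1.lo c').mono h4
    refine ⟨_, h7, code (lo c' m), (cn_code ht).symm ▸ ⟨u, v, _, rfl, hu, hv, h8.code,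
      fun x k1 k2 => hZ _ m x ⟨k1.1, h6 x (Le.of_lo ((h8.cn ▸ k2).at c')) k1.2⟩ ?_⟩,
      h8.cn.symm ▸ (Le_am c' m y).to_lo⟩
    exact h3.resolve_right fun h9 => h9 _ ⟨h7.1, h6 _ (Le_am c' m y) (h7.trans hy).2⟩
      (hZ _ y _ h7 h1)
  · rintro ⟨k, h1, h2⟩
    rw [cn_code ht] at h1
    obtain ⟨_, _, _, e, -, -, -, h3⟩ := h1
    obtain ⟨rfl, rfl, rfl⟩ := n.inj e
    exact ⟨y, hy.1.ld, h3 y hy h2⟩

theorem decide_ld (Z : Cd O → Prop) (hy : V d y) :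
    ∃ m, Ld d m y ∧ (Z m ∨ ∀ x, Ld d x m → ¬ Z x) := by
  by_cases h : ∃ m, Ld d m y ∧ Z m
  · exact h.imp fun m h => ⟨h.1, Or.inl h.2⟩
  · exact ⟨y, hy.ld, Or.inr fun x h1 h2 => h ⟨x, h1, h2⟩⟩

theorem small_name {β : O} {Z : O × O → Cd O → Prop} (hZ : Mo (Ld d) Z) (hd : th β ≤ d)
    (hp : V d p) : ∃ q, Ld d q p ∧ ∃ j < g0 (g0 (th β)), Eqv (Ld d) β Z (Ev le j) q := by
  obtain ⟨q, h1, h2⟩ := tail (cut_th β) (J := Iio β × Iio β) (fun L hL h =>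
      hL.reg.prod (hL.reg.iio ((lt_th β).trans h)) (hL.reg.iio ((lt_th β).trans h)))
    (fun e m => Z (e.1, e.2) m ∨ ∀ x, Ld d x m → ¬ Z (e.1, e.2) x) hp
    fun e y hy => decide_ld _ hy.1
  refine ⟨q, h1, name hZ (lt_th β).le hd fun u hu v hv y hy => ?_⟩
  obtain ⟨m, k1, k2, k3⟩ := h2 (⟨u, hu⟩, ⟨v, hv⟩) y hy
  exact ⟨m, k1.1, k2, _, le_rfl, k3⟩

/-- The chain condition. -/
theorem cc (hκ : Lev κ) (X : Set (Cd O)) (hX : ∀ p ∈ X, V (th κ) p) :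
    ∃ Y ⊆ X, #Y ≤ cn0 κ ∧ ∀ p ∈ X, ∃ x ∈ Y, ∃ m, Ld (th κ) m p ∧ le m x := by
  let tr : Set O → Cd O → Cd O := fun S p => {b ∈ p | b.co ∈ S ∧ ∃ c β j l, b = s c β j l}
  have h0 : ∀ S t, ∃ x, t ∈ tr S '' X → x ∈ X ∧ tr S x = t := fun S t => by
    by_cases h : t ∈ tr S '' X
    · exact h.imp fun x h _ => h
    · exact ⟨∅, fun h' => absurd h' h⟩
  choose rp hrp using h0
  have h1 : ∀ S : Set O, #S < cn0 κ → #(tr S '' X) ≤ cn0 κ := fun S hS => by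
    let f : S × {b : Bit O | b.lt κ} → Bit O := fun z =>
      Bit.rec (fun _ β j l => s z.1.1 β j l) (fun _ _ => z.2.1) (fun _ _ _ => z.2.1) z.2.1
    refine le_trans (mk_le_mk_of_subset ?_) (hκ.reg.subsets (Y := range f) (mk_range_le.trans ?_))
    · rintro _ ⟨p, hp, rfl⟩
      refine ⟨?_, (mk_le_mk_of_subset fun _ h => h.1).trans_lt ((hX p hp).small hκ)⟩
      rintro _ ⟨hb, h2, c, β, j, l, rfl⟩
      obtain ⟨γ, h3, h4, h5, h6⟩ := (hX p hp).1.1 _ hb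
      have h7 := h3.le ((hX p hp).2 _ hb)
      exact ⟨(⟨c, h2⟩, ⟨s β β j l, lt_s.2 ⟨h4.trans_le h7, h4.trans_le h7, h5.trans_le h7,
        fun k hk => (h6 k hk).trans_le h7⟩⟩), rfl⟩
    · exact hκ.reg.prod_le hS.le (bits_le hκ.reg hκ.g0)
  obtain ⟨u, h2, h3⟩ := hκ.reg.close (fun S => ⋃ t : tr S '' X, co '' rp S t.1) fun S hS =>
    hκ.reg.union_le (h1 S hS) fun t => mk_image_le.trans ((hX _ (hrp S _ t.2).1).small hκ).le
  refine ⟨⋃ S : {S : Set O | S ⊆ u ∧ #S < cn0 κ}, rp S.1 '' (tr S.1 '' X), ?_,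
    hκ.reg.union_le (hκ.reg.subsets h2) fun S => mk_image_le.trans (h1 _ S.2.2), fun p hp => ?_⟩
  · intro x hx
    obtain ⟨S, t, ht, rfl⟩ := mem_iUnion.1 hx
    exact (hrp _ t ht).1
  have h4 : #(co '' p ∩ u : Set O) < cn0 κ :=
    ((mk_le_mk_of_subset inter_subset_left).trans mk_image_le).trans_lt ((hX p hp).small hκ)
  have h5 : tr (co '' p ∩ u) p ∈ tr (co '' p ∩ u) '' X := ⟨p, hp, rfl⟩
  obtain ⟨h6, h7⟩ := hrp _ _ h5
  have h8 : ∀ b ∈ rp _ (tr (co '' p ∩ u) p), b.co ∈ u := fun b hb =>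
    h3 _ inter_subset_right h4 (mem_iUnion.2 ⟨⟨_, h5⟩, b, hb, rfl⟩)
  refine ⟨_, mem_iUnion.2 ⟨⟨_, inter_subset_right, h4⟩, _, h5, rfl⟩, p ∪ _,
    ⟨(hX p hp).union (hX _ h6), le_sub subset_union_left fun c β j l ξ k1 k2 => k1.elim id
      fun k3 => ?_⟩, le_sub subset_union_right fun c β j l ξ k1 k2 => k1.elim (fun k3 => ?_) id⟩
  · exact (h7.subset ⟨k3, ⟨⟨_, k2, rfl⟩, h8 _ k3⟩, _, _, _, _, rfl⟩).1
  · exact (h7.symm.subset ⟨k3, ⟨⟨_, k3, rfl⟩, h8 (a c ξ) k2⟩, _, _, _, _, rfl⟩).1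

end Pool.Agent.MP_d6f492_lc
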